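import Pool.Agent.Lib.MP_90732c_al.Ab.Defs

/-! An absolute bound for the Tarski numbers: adding edges to a graphing. -/

set_option autoImplicit false

open MeasureTheory
open scoped ENNReal Pointwise

namespace Pool.Agent.Lib.MP_90732c_al.Ab

variable {G : Type} [Group G] {Y : Type} [MulAction G Y]

private lemma gen_inl {ι κ : Type} (s : ι → G) (A : ι → Set Y) (t : κ → G) (C : κ → Set Y)
    (y : Y) (g : G) (hg : Gen s A y g) : Gen (Sum.elim s t) (Sum.elim A C) y g := by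
  induction hg with
  | one => exact Gen.one y
  | fwd g i _ hi ih => exact Gen.fwd y g (Sum.inl i) ih hi
  | bwd g i _ hi ih => exact Gen.bwd y g (Sum.inl i) ih hi

private lemma gen_inr {ι κ : Type} (s : ι → G) (A : ι → Set Y) (t : κ → G) (C : κ → Set Y)
    (j : κ) (y : Y) (hy : y ∈ C j) : Gen (Sum.elim s t) (Sum.elim A C) y (t j) := by
  have h := Gen.fwd (s := Sum.elim s t) (A := Sum.elim A C) y 1 (Sum.inr j) (Gen.one y)
    (by rw [one_smul]; exact hy)
  rw [mul_one] at h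
  exact h

/-- Adding edges of total measure `∑ ν (C j)` raises the excess by at most this amount. -/
theorem Exc.add [MeasurableSpace Y] {ν : Measure Y} {S : Y → G → Prop} {ρ : ℝ≥0∞}
    (h : Exc ν S ρ) {κ : Type} [Countable κ] (t : κ → G) (C : κ → Set Y)
    (hC : ∀ j, MeasurableSet (C j)) : ∃ S' : Y → G → Prop, Exc ν S' (ρ + ∑' j, ν (C j)) ∧
      (∀ y g, S y g → S' y g) ∧ ∀ j, ∀ y ∈ C j, S' y (t j) := by
  obtain ⟨ι, hι, s, A, hA, hS, hφ⟩ := h
  have hle : ∀ y g, S y g → Gen (Sum.elim s t) (Sum.elim A C) y g := fun y g hg =>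
    gen_inl s A t C y g ((hS y g).1 hg)
  refine ⟨Gen (Sum.elim s t) (Sum.elim A C), ⟨ι ⊕ κ, inferInstance, Sum.elim s t,
    Sum.elim A C, ?_, fun _ _ => Iff.rfl, ?_⟩, hle, fun j y hy => gen_inr s A t C j y hy⟩
  · rintro (i | j)
    · exact hA i
    · exact hC j
  · intro φ hm h1 hinv
    have key := hφ φ hm h1 fun y g hg => hinv y g (hle y g hg)
    have hsum : ∑' x : ι ⊕ κ, ∫⁻ y in Sum.elim A C x, φ y ∂ν =
        (∑' i, ∫⁻ y in A i, φ y ∂ν) + ∑' j, ∫⁻ y in C j, φ y ∂ν :=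
      ENNReal.summable.tsum_sum ENNReal.summable
    have hC1 : ∑' j, ∫⁻ y in C j, φ y ∂ν ≤ ∑' j, ν (C j) := by
      refine ENNReal.tsum_le_tsum fun j => ?_
      calc ∫⁻ y in C j, φ y ∂ν ≤ ∫⁻ _ in C j, 1 ∂ν := lintegral_mono fun y => h1 y
        _ = ν (C j) := by rw [setLIntegral_one]
    rw [hsum, ← add_assoc]
    exact add_le_add key hC1

end Pool.Agent.Lib.MP_90732c_al.Ab
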