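import Pool.Agent.Lib.MP_90732c_al.Ab.Defs
import Pool.Agent.Lib.MP_90732c_al.Percolate

/-! An absolute bound for the Tarski numbers: labels. -/

set_option autoImplicit false

open MeasureTheory
open scoped ENNReal Pointwise

namespace Pool.Agent.Lib.MP_90732c_al.Ab

variable {G : Type} [Group G]

/-- Relabelling the coordinates preserves the law of the labels. -/
lemma law_map_equiv {E : Type} (e : E ≃ E) :
    MeasurePreserving (fun ω : E → ℝ => fun h => ω (e.symm h)) (law E) (law E) := by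
  have h := Measure.infinitePi_map_piCongrLeft (X := fun _ : E => ℝ)
    (μ := fun _ => unif) e
  have h2 : (MeasurableEquiv.piCongrLeft (fun _ : E => ℝ) e :
      (E → ℝ) → (E → ℝ)) = fun ω : E → ℝ => fun h => ω (e.symm h) := by
    funext x f
    have hf : f = e (e.symm f) := by simp
    conv_lhs => rw [hf]
    change (Equiv.piCongrLeft (fun _ : E => ℝ) e) x (e (e.symm f)) = _
    rw [Equiv.piCongrLeft_apply_apply]
  constructor
  · rw [← h2]
    exact (MeasurableEquiv.piCongrLeft (fun _ : E => ℝ) e).measurable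
  · rw [← h2]
    exact h

theorem lam_measurePreserving [Countable G] (g : G) :
    MeasurePreserving (fun ω : Lab G => g • ω) (lam G) (lam G) :=
  law_map_equiv (Equiv.mulLeft g)

lemma unif_Ici {l : ℝ} (h0 : 0 ≤ l) (h1 : l ≤ 1) :
    unif (Set.Ici l) = ENNReal.ofReal (1 - l) := by
  unfold unif
  rw [Measure.restrict_apply measurableSet_Ici]
  have : Set.Ici l ∩ Set.Icc 0 1 = Set.Icc l 1 := by
    ext y
    simp only [Set.mem_inter_iff, Set.mem_Ici, Set.mem_Icc]
    constructor
    · rintro ⟨h, _, h2⟩; exact ⟨h, h2⟩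
    · rintro ⟨h, h2⟩; exact ⟨h, h0.trans h, h2⟩
  rw [this, Real.volume_Icc]

theorem lam_not_lt (E : Finset G) {l : ℝ} (h0 : 0 ≤ l) (h1 : l ≤ 1) :
    lam G {ω | ∀ h ∈ E, ¬ ω h < l} = ENNReal.ofReal ((1 - l) ^ E.card) := by
  have h := Measure.infinitePi_pi (μ := fun _ : G => unif) (s := E)
    (t := fun _ => Set.Ici l) (fun _ _ => measurableSet_Ici)
  have h2 : {ω : G → ℝ | ∀ h ∈ E, ¬ ω h < l} = Set.pi (↑E) (fun _ => Set.Ici l) := by
    ext x; simp [Set.mem_pi]
  change law G {ω : G → ℝ | ∀ h ∈ E, ¬ ω h < l} = _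
  rw [h2, law, h, Finset.prod_const, unif_Ici h0 h1, ENNReal.ofReal_pow (by linarith)]

theorem lam_lt {l : ℝ} (h0 : 0 ≤ l) (h1 : l ≤ 1) (g : G) :
    lam G {ω | ω g < l} = ENNReal.ofReal l := by
  have h := law_cyl (E := G) {g} h0 h1
  change law G {ω : G → ℝ | ω g < l} = _
  simpa using h

lemma measurableSet_min [Countable G] (U : Finset G) (u : G) :
    MeasurableSet {ω : G → ℝ | ∀ v ∈ U, v ≠ u → ω u < ω v} := by
  have h2 : {ω : G → ℝ | ∀ v ∈ U, v ≠ u → ω u < ω v} =
      ⋂ v ∈ U, {ω : G → ℝ | v ≠ u → ω u < ω v} := by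
    ext x; simp
  rw [h2]
  refine Finset.measurableSet_biInter U fun v _ => ?_
  by_cases hv : v = u
  · have h3 : {ω : G → ℝ | v ≠ u → ω u < ω v} = Set.univ := by
      ext x; simp [hv]
    rw [h3]
    exact MeasurableSet.univ
  · have h3 : {ω : G → ℝ | v ≠ u → ω u < ω v} = {ω : G → ℝ | ω u < ω v} := by
      ext x; simp [hv]
    rw [h3]
    exact measurableSet_lt (measurable_pi_apply u) (measurable_pi_apply v)

lemma law_min_le [Countable G] (U : Finset G) (u : G) (hu : u ∈ U) :
    law G {ω : G → ℝ | ∀ v ∈ U, v ≠ u → ω u < ω v} ≤ (U.card : ℝ≥0∞)⁻¹ := by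
  classical
  set A : G → Set (G → ℝ) := fun u => {ω | ∀ v ∈ U, v ≠ u → ω u < ω v} with hA
  have heq : ∀ w ∈ U, law G (A w) = law G (A u) := by
    intro w hw
    have hm := law_map_equiv (Equiv.swap u w)
    have h1 : (fun ω : G → ℝ => fun h => ω ((Equiv.swap u w).symm h)) ⁻¹' (A w) = A u := by
      ext ω
      have hw' : (ω ∈ (fun ω : G → ℝ => fun h => ω ((Equiv.swap u w).symm h)) ⁻¹' (A w)) ↔
          ∀ v ∈ U, v ≠ w → ω (Equiv.swap u w w) < ω (Equiv.swap u w v) := Iff.rfl
      have hu' : ω ∈ A u ↔ ∀ v ∈ U, v ≠ u → ω u < ω v := Iff.rfl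
      rw [hw', hu', Equiv.swap_apply_right]
      constructor
      · intro h v hv hne
        by_cases hvw : v = w
        · subst hvw
          have := h u hu (fun h => hne h.symm)
          rwa [Equiv.swap_apply_left] at this
        · have := h v hv hvw
          rwa [Equiv.swap_apply_of_ne_of_ne hne hvw] at this
      · intro h v hv hne
        by_cases hvu : v = u
        · subst hvu
          rw [Equiv.swap_apply_left]
          exact h w hw (fun h => hne h.symm)
        · rw [Equiv.swap_apply_of_ne_of_ne hvu hne]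
          exact h v hv hvu
    have h2 := hm.measure_preimage (s := A w) (measurableSet_min U w).nullMeasurableSet
    rw [h1] at h2
    exact h2.symm
  have hdis : (U : Set G).PairwiseDisjoint A := by
    intro a ha b hb hab
    rw [Function.onFun, Set.disjoint_left]
    intro ω h1 h2
    exact lt_asymm (h1 b hb (Ne.symm hab)) (h2 a ha hab)
  have h1 : law G (⋃ w ∈ U, A w) = ∑ w ∈ U, law G (A w) :=
    measure_biUnion_finset hdis fun w _ => measurableSet_min U w
  have h2 : (U.card : ℝ≥0∞) * law G (A u) ≤ 1 := by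
    calc (U.card : ℝ≥0∞) * law G (A u) = ∑ w ∈ U, law G (A w) := by
          rw [Finset.sum_congr rfl heq, Finset.sum_const, nsmul_eq_mul]
      _ = law G (⋃ w ∈ U, A w) := h1.symm
      _ ≤ 1 := prob_le_one
  rw [ENNReal.le_inv_iff_mul_le, mul_comm]
  exact h2

theorem lam_min_le [Countable G] (U : Finset G) (u : G) (hu : u ∈ U) :
    lam G {ω | ∀ v ∈ U, v ≠ u → ω u < ω v} ≤ (U.card : ℝ≥0∞)⁻¹ :=
  law_min_le U u hu

theorem lam_injective [Countable G] : ∀ᵐ ω ∂(lam G), Function.Injective ω :=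
  ae_injective G

theorem lam_free [Countable G] (g : G) (hg : g ≠ 1) : lam G {ω : Lab G | g • ω = ω} = 0 := by
  have h : {ω : Lab G | g • ω = ω} ⊆ {x : G → ℝ | x g⁻¹ = x 1} := by
    intro ω hω
    have h1 : (g • ω) 1 = ω 1 := congrFun (show g • ω = ω from hω) 1
    rw [smul_lab, mul_one] at h1
    exact h1
  refine le_antisymm ((measure_mono h).trans ?_) zero_le
  have hne : g⁻¹ ≠ (1 : G) := by simpa using hg
  exact (law_eq_zero hne).le

end Pool.Agent.Lib.MP_90732c_al.Ab
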