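import Pool.Agent.Lib.MP_90732c_al.Ab.Defs

/-! Module EXT: extensions of a graphing to a product (helper5). -/

set_option autoImplicit false

open MeasureTheory
open scoped ENNReal Pointwise

namespace Pool.Agent.Lib.MP_90732c_al.Ab

variable {G : Type} [Group G] {Y : Type} [MulAction G Y]

theorem gen_prod_iff {Ω : Type} [MulAction G Ω] {ι : Type} (s : ι → G) (A : ι → Set Y)
    (x : Y × Ω) (g : G) :
    Gen s (fun i => (Prod.fst : Y × Ω → Y) ⁻¹' A i) x g ↔ Gen s A x.1 g := by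
  constructor
  · intro h
    induction h with
    | one => exact Gen.one _
    | fwd g i _ hA ih => exact Gen.fwd _ g i ih hA
    | bwd g i _ hA ih => exact Gen.bwd _ g i ih hA
  · intro h
    generalize hy : x.1 = y at h
    induction h with
    | one => exact Gen.one _
    | fwd g i _ hA ih =>
      refine Gen.fwd _ g i ih ?_
      change (g • x).1 ∈ A i
      rw [Prod.smul_fst, hy]
      exact hA
    | bwd g i _ hA ih =>
      refine Gen.bwd _ g i ih ?_
      change ((s i)⁻¹ • g • x).1 ∈ A i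
      rw [Prod.smul_fst, Prod.smul_fst, hy]
      exact hA

theorem Exc.prod [MeasurableSpace Y] {ν : Measure Y} [SFinite ν] {S : Y → G → Prop} {ρ : ℝ≥0∞}
    (h : Exc ν S ρ) {Ω : Type} [MeasurableSpace Ω] [MulAction G Ω] (P : Measure Ω)
    [IsProbabilityMeasure P] (hP : ∀ g : G, MeasurePreserving (fun ω : Ω => g • ω) P P) :
    Exc (ν.prod P) (fun (x : Y × Ω) (g : G) => S x.1 g) ρ := by
  obtain ⟨ι, hι, s, A, hA, hS, hexc⟩ := h
  refine ⟨ι, hι, s, fun i => (Prod.fst : Y × Ω → Y) ⁻¹' A i, fun i => measurable_fst (hA i),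
    fun x g => ?_, fun φ hφ hφ1 hinv => ?_⟩
  · rw [gen_prod_iff]
    exact hS x.1 g
  · have hm : Measurable fun y : Y => ∫⁻ ω, φ (y, ω) ∂P := hφ.lintegral_prod_right'
    have h1 : ∀ y : Y, ∫⁻ ω, φ (y, ω) ∂P ≤ 1 := by
      intro y
      calc ∫⁻ ω, φ (y, ω) ∂P ≤ ∫⁻ _, 1 ∂P := lintegral_mono fun ω => hφ1 (y, ω)
        _ = 1 := by simp
    have h2 : ∀ (y : Y) (g : G), S y g →
        ∫⁻ ω, φ (g • y, ω) ∂P = ∫⁻ ω, φ (y, ω) ∂P := by
      intro y g hy
      have hmy : Measurable fun ω : Ω => φ (g • y, ω) := hφ.comp measurable_prodMk_left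
      rw [← (hP g).lintegral_comp hmy]
      refine lintegral_congr fun ω => ?_
      exact hinv (y, ω) g hy
    have h3 := hexc (fun y => ∫⁻ ω, φ (y, ω) ∂P) hm h1 h2
    have h4 : ∀ i, ∫⁻ x in (Prod.fst : Y × Ω → Y) ⁻¹' A i, φ x ∂(ν.prod P) =
        ∫⁻ y in A i, (∫⁻ ω, φ (y, ω) ∂P) ∂ν := by
      intro i
      have e : (Prod.fst : Y × Ω → Y) ⁻¹' A i = A i ×ˢ (Set.univ : Set Ω) := by
        ext x
        simp
      rw [e, ← Measure.prod_restrict, Measure.restrict_univ, lintegral_prod _ hφ.aemeasurable]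
    have h5 : ∫⁻ x, φ x ∂(ν.prod P) = ∫⁻ y, (∫⁻ ω, φ (y, ω) ∂P) ∂ν :=
      lintegral_prod _ hφ.aemeasurable
    rw [h5, tsum_congr h4]
    exact h3

end Pool.Agent.Lib.MP_90732c_al.Ab
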