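import Pool.Agent.Lib.MP_90732c_al.Ab.Defs

/-! Module GEN: basic facts about the relation generated by a graphing (helper94). -/

set_option autoImplicit false

open MeasureTheory
open scoped ENNReal Pointwise

namespace Pool.Agent.Lib.MP_90732c_al.Ab

variable {G : Type} [Group G] {Y : Type} [MulAction G Y]

theorem Gen.edge {ι : Type} (s : ι → G) (A : ι → Set Y) (i : ι) (y : Y) (hy : y ∈ A i) :
    Gen s A y (s i) := by
  have h := Gen.fwd (s := s) (A := A) y 1 i (Gen.one y) (by rwa [one_smul])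
  rwa [mul_one] at h

theorem Gen.edge_inv {ι : Type} (s : ι → G) (A : ι → Set Y) (i : ι) (y : Y)
    (hy : (s i)⁻¹ • y ∈ A i) : Gen s A y (s i)⁻¹ := by
  have h := Gen.bwd (s := s) (A := A) y 1 i (Gen.one y) (by rwa [one_smul])
  rwa [mul_one] at h

theorem Gen.trans' {ι : Type} (s : ι → G) (A : ι → Set Y) (y : Y) (g h : G)
    (h1 : Gen s A y g) (h2 : Gen s A (g • y) h) : Gen s A y (h * g) := by
  induction h2 with
  | one => rwa [one_mul]
  | fwd k i _ hk ih =>
    rw [mul_assoc]
    refine Gen.fwd y (k * g) i ih ?_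
    rwa [mul_smul]
  | bwd k i _ hk ih =>
    rw [mul_assoc]
    refine Gen.bwd y (k * g) i ih ?_
    rwa [mul_smul k g y]

theorem Gen.isRel {ι : Type} (s : ι → G) (A : ι → Set Y) : IsRel (Gen s A) := by
  refine ⟨fun y => Gen.one y, fun y g h h1 h2 => Gen.trans' s A y g h h1 h2, ?_⟩
  intro y g h
  induction h with
  | one =>
    rw [inv_one]
    exact Gen.one _
  | fwd g i _ hk ih =>
    rw [mul_inv_rev]
    apply Gen.trans'
    · apply Gen.edge_inv
      rwa [← mul_smul, inv_mul_cancel_left]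
    · rwa [← mul_smul, inv_mul_cancel_left]
  | bwd g i _ hk ih =>
    rw [mul_inv_rev, inv_inv]
    apply Gen.trans'
    · apply Gen.edge
      rwa [mul_smul]
    · rwa [← mul_smul, mul_inv_cancel_left]

theorem Gen.mono {ι κ : Type} {s : ι → G} {A : ι → Set Y} {s' : κ → G} {A' : κ → Set Y}
    (h : ∀ i, ∀ y ∈ A i, Gen s' A' y (s i)) (y : Y) (g : G) (hg : Gen s A y g) :
    Gen s' A' y g := by
  have hR := Gen.isRel s' A'
  induction hg with
  | one => exact Gen.one y
  | fwd g i _ hk ih => exact hR.mul y g (s i) ih (h i _ hk)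
  | bwd g i _ hk ih =>
    have h1 := hR.inv _ _ (h i _ hk)
    rw [smul_inv_smul] at h1
    exact hR.mul y g (s i)⁻¹ ih h1

/-- The product along a list of edges. -/
def lval {ι : Type} (s : ι → G) : List (ι × Bool) → G
  | [] => 1
  | (i, true) :: l => s i * lval s l
  | (i, false) :: l => (s i)⁻¹ * lval s l

/-- The points from which a list of edges can be followed. -/
def lset {ι : Type} (s : ι → G) (A : ι → Set Y) : List (ι × Bool) → Set Y
  | [] => Set.univ
  | (i, true) :: l => lset s A l ∩ {y | lval s l • y ∈ A i}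
  | (i, false) :: l => lset s A l ∩ {y | (s i)⁻¹ • lval s l • y ∈ A i}

theorem lset_gen {ι : Type} (s : ι → G) (A : ι → Set Y) (y : Y) :
    ∀ l : List (ι × Bool), y ∈ lset s A l → Gen s A y (lval s l)
  | [], _ => Gen.one y
  | (i, true) :: l, h => Gen.fwd y _ i (lset_gen s A y l h.1) h.2
  | (i, false) :: l, h => Gen.bwd y _ i (lset_gen s A y l h.1) h.2

theorem gen_iff {ι : Type} (s : ι → G) (A : ι → Set Y) (y : Y) (g : G) :
    Gen s A y g ↔ ∃ l : List (ι × Bool), lval s l = g ∧ y ∈ lset s A l := by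
  constructor
  · intro h
    induction h with
    | one => exact ⟨[], rfl, Set.mem_univ _⟩
    | fwd g i _ hk ih =>
      obtain ⟨l, hl, hy⟩ := ih
      refine ⟨(i, true) :: l, ?_, hy, ?_⟩
      · change s i * lval s l = s i * g
        rw [hl]
      · change lval s l • y ∈ A i
        rwa [hl]
    | bwd g i _ hk ih =>
      obtain ⟨l, hl, hy⟩ := ih
      refine ⟨(i, false) :: l, ?_, hy, ?_⟩
      · change (s i)⁻¹ * lval s l = (s i)⁻¹ * g
        rw [hl]
      · change (s i)⁻¹ • lval s l • y ∈ A i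
        rwa [hl]
  · rintro ⟨l, rfl, hy⟩
    exact lset_gen s A y l hy

theorem lset_measurable {ι : Type} [MeasurableSpace Y] (s : ι → G) (A : ι → Set Y)
    (hA : ∀ i, MeasurableSet (A i)) (hG : ∀ g : G, Measurable fun y : Y => g • y) :
    ∀ l : List (ι × Bool), MeasurableSet (lset s A l)
  | [] => MeasurableSet.univ
  | (i, true) :: l => (lset_measurable s A hA hG l).inter (hG (lval s l) (hA i))
  | (i, false) :: l =>
    (lset_measurable s A hA hG l).inter (((hG (s i)⁻¹).comp (hG (lval s l))) (hA i))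

theorem Gen.measurable {ι : Type} [Countable ι] [MeasurableSpace Y] (s : ι → G) (A : ι → Set Y)
    (hA : ∀ i, MeasurableSet (A i)) (hG : ∀ g : G, Measurable fun y : Y => g • y) (g : G) :
    MeasurableSet {y | Gen s A y g} := by
  have h : {y | Gen s A y g} = ⋃ l : {l : List (ι × Bool) // lval s l = g}, lset s A l.1 := by
    ext y
    rw [Set.mem_iUnion]
    constructor
    · intro hy
      obtain ⟨l, hl, hy'⟩ := (gen_iff s A y g).1 hy
      exact ⟨⟨l, hl⟩, hy'⟩
    · rintro ⟨⟨l, hl⟩, hy'⟩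
      exact (gen_iff s A y g).2 ⟨l, hl, hy'⟩
  rw [h]
  exact MeasurableSet.iUnion fun l => lset_measurable s A hA hG l.1

theorem Exc.isRel [MeasurableSpace Y] {ν : Measure Y} {S : Y → G → Prop} {ρ : ℝ≥0∞}
    (h : Exc ν S ρ) : IsRel S := by
  obtain ⟨ι, _, s, A, _, hS, _⟩ := h
  have hR := Gen.isRel s A
  exact ⟨fun y => (hS y 1).2 (hR.one y),
    fun y g h h1 h2 => (hS y _).2 (hR.mul y g h ((hS y g).1 h1) ((hS _ h).1 h2)),
    fun y g h => (hS _ _).2 (hR.inv y g ((hS y g).1 h))⟩

theorem Exc.measurableSet [MeasurableSpace Y] {ν : Measure Y} {S : Y → G → Prop} {ρ : ℝ≥0∞}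
    (h : Exc ν S ρ) (hG : ∀ g : G, Measurable fun y : Y => g • y) (g : G) :
    MeasurableSet {y | S y g} := by
  obtain ⟨ι, _, s, A, hA, hS, _⟩ := h
  have h1 : {y | S y g} = {y | Gen s A y g} := by
    ext y
    exact hS y g
  rw [h1]
  exact Gen.measurable s A hA hG g

theorem Exc.mono [MeasurableSpace Y] {ν : Measure Y} {S : Y → G → Prop} {ρ ρ' : ℝ≥0∞}
    (h : Exc ν S ρ) (hρ : ρ ≤ ρ') : Exc ν S ρ' := by
  obtain ⟨ι, hι, s, A, hA, hS, h1⟩ := h
  refine ⟨ι, hι, s, A, hA, hS, fun φ h2 h3 h4 => (h1 φ h2 h3 h4).trans ?_⟩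
  gcongr

/-- Equality has excess `0`. -/
theorem exc_one [MeasurableSpace Y] (ν : Measure Y) :
    Exc ν (fun (_ : Y) (g : G) => g = 1) 0 := by
  refine ⟨Empty, inferInstance, fun i => i.elim, fun i => i.elim, fun i => i.elim, ?_, ?_⟩
  · intro y g
    constructor
    · intro h
      rw [h]
      exact Gen.one y
    · intro h
      cases h with
      | one => rfl
      | fwd g i _ _ => exact i.elim
      | bwd g i _ _ => exact i.elim
  · intro φ _ _ _
    simp

end Pool.Agent.Lib.MP_90732c_al.Ab
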