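import Pool.Agent.Lib.MP_90732c_al.Ab.Defs

/-! Module SML: the small pieces of a tile. -/

set_option autoImplicit false

open MeasureTheory
open scoped ENNReal Pointwise

namespace Pool.Agent.Lib.MP_90732c_al.Ab

variable {G : Type} [Group G] {Y : Type} [MulAction G Y]

namespace SMLaux

/-- the relation on the positions -/
theorem rel_refl {S : Y → G → Prop} (hS : IsRel S) (z : Y) (h : G) : S (h • z) (h * h⁻¹) := by
  rw [mul_inv_cancel]
  exact hS.one _

theorem rel_symm {S : Y → G → Prop} (hS : IsRel S) {z : Y} {h k : G}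
    (hk : S (h • z) (k * h⁻¹)) : S (k • z) (h * k⁻¹) := by
  have h1 := hS.inv _ _ hk
  rw [smul_smul, inv_mul_cancel_right, mul_inv_rev, inv_inv] at h1
  exact h1

theorem rel_trans {S : Y → G → Prop} (hS : IsRel S) {z : Y} {h k l : G}
    (hk : S (h • z) (k * h⁻¹)) (hl : S (k • z) (l * k⁻¹)) : S (h • z) (l * h⁻¹) := by
  have h1 := hS.mul (h • z) (k * h⁻¹) (l * k⁻¹) hk
    (by rw [smul_smul, inv_mul_cancel_right]; exact hl)
  rw [← mul_assoc, inv_mul_cancel_right] at h1
  exact h1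

theorem mem_piece {S : Y → G → Prop} {F : Finset G} {z : Y} {h k : G} :
    k ∈ piece S F z h ↔ k ∈ F ∧ S (h • z) (k * h⁻¹) := by
  classical
  unfold piece
  rw [Finset.mem_filter]

theorem piece_eq {S : Y → G → Prop} (hS : IsRel S) {F : Finset G} {z : Y} {h k : G}
    (hk : S (h • z) (k * h⁻¹)) : piece S F z k = piece S F z h := by
  ext l
  rw [mem_piece, mem_piece]
  exact ⟨fun ⟨h1, h2⟩ => ⟨h1, rel_trans hS hk h2⟩,
    fun ⟨h1, h2⟩ => ⟨h1, rel_trans hS (rel_symm hS hk) h2⟩⟩

end SMLaux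

open SMLaux

open Classical in
theorem small_card {m : ℕ} (t : Fin m → G) {S : Y → G → Prop} (hS : IsRel S) (F : Finset G)
    (f : ℕ) (hF : ∀ Q ⊆ F, Q.Nonempty → Q.card < f → Q.card ≤ 2 * (ebd t Q F).card) (z : Y) :
    (F.filter fun h => Small S F f z h).card ≤
      4 * ((Finset.univ ×ˢ F).filter fun p : Fin m × G =>
        t p.1 * p.2 ∈ F ∧ ¬ S (p.2 • z) (t p.1)).card := by
  set C : Finset (Finset G) := (F.filter fun h => Small S F f z h).image (piece S F z) with hC
  set Cut : Finset (Fin m × G) := (Finset.univ ×ˢ F).filter fun p : Fin m × G =>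
    t p.1 * p.2 ∈ F ∧ ¬ S (p.2 • z) (t p.1) with hCut
  -- members of `C`
  have hmem : ∀ Q ∈ C, ∃ h ∈ F, Small S F f z h ∧ Q = piece S F z h := by
    intro Q hQ
    rw [hC, Finset.mem_image] at hQ
    obtain ⟨h, hh, rfl⟩ := hQ
    rw [Finset.mem_filter] at hh
    exact ⟨h, hh.1, hh.2, rfl⟩
  have hpiece : ∀ Q ∈ C, ∀ h ∈ Q, Q = piece S F z h := by
    intro Q hQ k hk
    obtain ⟨h, hh, -, rfl⟩ := hmem Q hQ
    exact (piece_eq hS (mem_piece.1 hk).2).symm
  -- the small positions are covered by the small pieces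
  have h1 : (F.filter fun h => Small S F f z h) ⊆ C.biUnion id := by
    intro h hh
    rw [Finset.mem_biUnion]
    refine ⟨piece S F z h, Finset.mem_image_of_mem _ hh, ?_⟩
    rw [Finset.mem_filter] at hh
    exact mem_piece.2 ⟨hh.1, rel_refl hS z h⟩
  have h2 : (F.filter fun h => Small S F f z h).card ≤ ∑ Q ∈ C, Q.card :=
    (Finset.card_le_card h1).trans Finset.card_biUnion_le
  have h3 : ∀ Q ∈ C, Q.card ≤ 2 * (Cut.filter fun p => ¬ (p.2 ∈ Q ↔ t p.1 * p.2 ∈ Q)).card := by
    intro Q hQ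
    obtain ⟨h, hh, hs, hQe⟩ := hmem Q hQ
    have hQF : Q ⊆ F := by
      intro k hk
      rw [hQe] at hk
      exact (mem_piece.1 hk).1
    have hQn : Q.Nonempty := ⟨h, by rw [hQe]; exact mem_piece.2 ⟨hh, rel_refl hS z h⟩⟩
    have hQc : Q.card < f := by rw [hQe]; exact hs
    refine (hF Q hQF hQn hQc).trans (Nat.mul_le_mul_left 2 (Finset.card_le_card ?_))
    intro p hp
    unfold ebd at hp
    rw [Finset.mem_filter, Finset.mem_product] at hp
    rw [Finset.mem_filter, hCut, Finset.mem_filter, Finset.mem_product]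
    refine ⟨⟨hp.1, hp.2.1, fun hSp => hp.2.2 ?_⟩, hp.2.2⟩
    have hSp' : S (p.2 • z) (t p.1 * p.2 * p.2⁻¹) := by
      rw [mul_inv_cancel_right]; exact hSp
    constructor
    · intro hq
      rw [hpiece Q hQ _ hq]
      exact mem_piece.2 ⟨hp.2.1, hSp'⟩
    · intro hq
      rw [hpiece Q hQ _ hq]
      exact mem_piece.2 ⟨hp.1.2, rel_symm hS hSp'⟩
  have h4 : ∑ Q ∈ C, (Cut.filter fun p => ¬ (p.2 ∈ Q ↔ t p.1 * p.2 ∈ Q)).card =
      ∑ p ∈ Cut, (C.filter fun Q => ¬ (p.2 ∈ Q ↔ t p.1 * p.2 ∈ Q)).card :=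
    Finset.sum_card_bipartiteAbove_eq_sum_card_bipartiteBelow
      (fun (Q : Finset G) (p : Fin m × G) => ¬ (p.2 ∈ Q ↔ t p.1 * p.2 ∈ Q))
  have h5 : ∀ p ∈ Cut, (C.filter fun Q => ¬ (p.2 ∈ Q ↔ t p.1 * p.2 ∈ Q)).card ≤ 2 := by
    intro p _
    have hsub : (C.filter fun Q => ¬ (p.2 ∈ Q ↔ t p.1 * p.2 ∈ Q)) ⊆
        {piece S F z p.2, piece S F z (t p.1 * p.2)} := by
      intro Q hQ
      rw [Finset.mem_filter] at hQ
      rw [Finset.mem_insert, Finset.mem_singleton]
      by_cases hq : p.2 ∈ Q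
      · exact Or.inl (hpiece Q hQ.1 _ hq)
      · by_cases hq' : t p.1 * p.2 ∈ Q
        · exact Or.inr (hpiece Q hQ.1 _ hq')
        · exact absurd (iff_of_false hq hq') hQ.2
    exact (Finset.card_le_card hsub).trans Finset.card_le_two
  calc (F.filter fun h => Small S F f z h).card ≤ ∑ Q ∈ C, Q.card := h2
    _ ≤ ∑ Q ∈ C, 2 * (Cut.filter fun p => ¬ (p.2 ∈ Q ↔ t p.1 * p.2 ∈ Q)).card :=
        Finset.sum_le_sum h3
    _ = 2 * ∑ p ∈ Cut, (C.filter fun Q => ¬ (p.2 ∈ Q ↔ t p.1 * p.2 ∈ Q)).card := by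
        rw [← Finset.mul_sum, h4]
    _ ≤ 2 * ∑ p ∈ Cut, 2 := Nat.mul_le_mul_left 2 (Finset.sum_le_sum h5)
    _ = 4 * Cut.card := by rw [Finset.sum_const, smul_eq_mul]; ring

namespace SMLaux

open Classical in
/-- the number of true predicates is measurable -/
theorem measurable_card {α β : Type} [MeasurableSpace α] (F : Finset β) (P : β → α → Prop)
    (hP : ∀ k ∈ F, MeasurableSet {y | P k y}) :
    Measurable fun y => (F.filter fun k => P k y).card := by
  have e : (fun y => (F.filter fun k => P k y).card) = fun y => ∑ k ∈ F, if P k y then 1 else 0 := by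
    funext y
    rw [Finset.card_filter]
  rw [e]
  exact Finset.measurable_sum _ fun k hk => Measurable.ite (hP k hk) measurable_const
    measurable_const

theorem small_measurable [MeasurableSpace Y] {S : Y → G → Prop}
    (hG : ∀ g : G, Measurable fun y : Y => g • y) (hSm : ∀ g, MeasurableSet {y | S y g})
    (F : Finset G) (f : ℕ) (h : G) : MeasurableSet {z | Small S F f z h} := by
  classical
  have h1 : Measurable fun z : Y => (piece S F z h).card := by
    unfold piece
    exact measurable_card F (fun k z => S (h • z) (k * h⁻¹)) fun k _ => hG h (hSm (k * h⁻¹))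
  exact h1 (measurableSet_Iio (a := f))

end SMLaux

theorem fine_measurable [Countable G] [MeasurableSpace Y] {S : Y → G → Prop}
    (hG : ∀ g : G, Measurable fun y : Y => g • y) (hSm : ∀ g, MeasurableSet {y | S y g})
    (F : Finset G) (f : ℕ) : MeasurableSet (Fine S F f) := by
  classical
  have h1 : Measurable fun y : Y => (F.filter fun h => Small S F f (h⁻¹ • y) h).card :=
    measurable_card F (fun h y => Small S F f (h⁻¹ • y) h) fun h _ =>
      hG h⁻¹ (small_measurable hG hSm F f h)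
  exact measurableSet_le (h1.const_mul 4) measurable_const

theorem fine_compl_le {m : ℕ} [MeasurableSpace Y] {ν : Measure Y}
    (hν : ∀ g : G, MeasurePreserving (fun y : Y => g • y) ν ν) (t : Fin m → G)
    {S : Y → G → Prop} (hS : IsRel S) (hSm : ∀ g, MeasurableSet {y | S y g}) (F : Finset G)
    (hne : F.Nonempty) (f : ℕ)
    (hF : ∀ Q ⊆ F, Q.Nonempty → Q.card < f → Q.card ≤ 2 * (ebd t Q F).card) :
    ν (Fine S F f)ᶜ ≤ 16 * ∑ i, ν {y | ¬ S y (t i)} := by
  classical
  have hG : ∀ g : G, Measurable fun y : Y => g • y := fun g => (hν g).measurable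
  have hsm : ∀ h, MeasurableSet {z | Small S F f z h} := small_measurable hG hSm F f
  have hcard : (F.card : ℝ≥0∞) ≠ 0 := by
    rw [Nat.cast_ne_zero]
    exact hne.card_pos.ne'
  have hcard' : (F.card : ℝ≥0∞) ≠ ∞ := ENNReal.natCast_ne_top _
  -- a counting function as a sum of indicators
  have hcnt : ∀ (P : G → Y → Prop), (∀ h, MeasurableSet {y | P h y}) →
      ∫⁻ y, ((F.filter fun h => P h y).card : ℝ≥0∞) ∂ν = ∑ h ∈ F, ν {y | P h y} := by
    intro P hP
    have e : (fun y => ((F.filter fun h => P h y).card : ℝ≥0∞)) =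
        fun y => ∑ h ∈ F, {y | P h y}.indicator (fun _ => (1 : ℝ≥0∞)) y := by
      funext y
      rw [Finset.card_filter, Nat.cast_sum]
      refine Finset.sum_congr rfl fun h _ => ?_
      by_cases hy : P h y
      · rw [if_pos hy, Set.indicator_of_mem (show y ∈ {y | P h y} from hy), Nat.cast_one]
      · rw [if_neg hy, Set.indicator_of_notMem (show y ∉ {y | P h y} from hy), Nat.cast_zero]
    rw [e, lintegral_finsetSum _ fun h _ => measurable_const.indicator (hP h)]
    refine Finset.sum_congr rfl fun h _ => ?_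
    rw [lintegral_indicator (hP h), lintegral_const, Measure.restrict_apply_univ, one_mul]
  -- Markov
  have h1 : (F.card : ℝ≥0∞) * ν (Fine S F f)ᶜ ≤ 4 * ∑ h ∈ F, ν {z | Small S F f z h} := by
    have e1 : ∑ h ∈ F, ν {z | Small S F f z h} = ∑ h ∈ F, ν {y | Small S F f (h⁻¹ • y) h} := by
      refine Finset.sum_congr rfl fun h _ => ?_
      exact ((hν h⁻¹).measure_preimage (hsm h).nullMeasurableSet).symm
    rw [e1, ← hcnt (fun h y => Small S F f (h⁻¹ • y) h) fun h => hG h⁻¹ (hsm h),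
      ← lintegral_const_mul' _ _ (by norm_num)]
    have hfm : MeasurableSet (Fine S F f) := by
      have h1 : Measurable fun y : Y => (F.filter fun h => Small S F f (h⁻¹ • y) h).card :=
        measurable_card F (fun h y => Small S F f (h⁻¹ • y) h) fun h _ => hG h⁻¹ (hsm h)
      exact measurableSet_le (h1.const_mul 4) measurable_const
    calc (F.card : ℝ≥0∞) * ν (Fine S F f)ᶜ
        = ∫⁻ y in (Fine S F f)ᶜ, (F.card : ℝ≥0∞) ∂ν := by rw [lintegral_const, Measure.restrict_apply_univ]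
      _ ≤ ∫⁻ y in (Fine S F f)ᶜ, 4 * ((F.filter fun h => Small S F f (h⁻¹ • y) h).card : ℝ≥0∞) ∂ν := by
          refine setLIntegral_mono' hfm.compl fun y hy => ?_
          have : ¬ 4 * (F.filter fun h => Small S F f (h⁻¹ • y) h).card ≤ F.card := hy
          have h2 : F.card ≤ 4 * (F.filter fun h => Small S F f (h⁻¹ • y) h).card :=
            (not_le.1 this).le
          exact_mod_cast h2
      _ ≤ ∫⁻ y, 4 * ((F.filter fun h => Small S F f (h⁻¹ • y) h).card : ℝ≥0∞) ∂ν :=
          setLIntegral_le_lintegral _ _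
  -- the cut edges
  have h2 : ∑ h ∈ F, ν {z | Small S F f z h} ≤
      4 * ∑ p ∈ (Finset.univ : Finset (Fin m)) ×ˢ F, ν {z | ¬ S (p.2 • z) (t p.1)} := by
    rw [← hcnt (fun h z => Small S F f z h) hsm]
    have hP : ∀ p : Fin m × G, MeasurableSet {z | ¬ S (p.2 • z) (t p.1)} := fun p =>
      (hG p.2 (hSm (t p.1))).compl
    have hc2 : ∫⁻ z, ((((Finset.univ : Finset (Fin m)) ×ˢ F).filter fun p =>
        ¬ S (p.2 • z) (t p.1)).card : ℝ≥0∞) ∂ν =
        ∑ p ∈ (Finset.univ : Finset (Fin m)) ×ˢ F, ν {z | ¬ S (p.2 • z) (t p.1)} := by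
      have e : (fun z => ((((Finset.univ : Finset (Fin m)) ×ˢ F).filter fun p =>
          ¬ S (p.2 • z) (t p.1)).card : ℝ≥0∞)) =
          fun z => ∑ p ∈ (Finset.univ : Finset (Fin m)) ×ˢ F,
            {z | ¬ S (p.2 • z) (t p.1)}.indicator (fun _ => (1 : ℝ≥0∞)) z := by
        funext z
        rw [Finset.card_filter, Nat.cast_sum]
        refine Finset.sum_congr rfl fun p _ => ?_
        by_cases hy : ¬ S (p.2 • z) (t p.1)
        · rw [if_pos hy, Set.indicator_of_mem (show z ∈ {z | ¬ S (p.2 • z) (t p.1)} from hy),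
            Nat.cast_one]
        · rw [if_neg hy, Set.indicator_of_notMem (show z ∉ {z | ¬ S (p.2 • z) (t p.1)} from hy),
            Nat.cast_zero]
      rw [e, lintegral_finsetSum _ fun p _ => measurable_const.indicator (hP p)]
      refine Finset.sum_congr rfl fun p _ => ?_
      rw [lintegral_indicator (hP p), lintegral_const, Measure.restrict_apply_univ, one_mul]
    rw [← hc2, ← lintegral_const_mul' _ _ (by norm_num)]
    refine lintegral_mono fun z => ?_
    have h3 := small_card t hS F f hF z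
    have h4 : ((Finset.univ ×ˢ F).filter fun p : Fin m × G =>
        t p.1 * p.2 ∈ F ∧ ¬ S (p.2 • z) (t p.1)).card ≤
        (((Finset.univ : Finset (Fin m)) ×ˢ F).filter fun p => ¬ S (p.2 • z) (t p.1)).card := by
      refine Finset.card_le_card fun p hp => ?_
      rw [Finset.mem_filter] at hp ⊢
      exact ⟨hp.1, hp.2.2⟩
    have h5 := h3.trans (Nat.mul_le_mul_left 4 h4)
    refine (Nat.cast_le (α := ℝ≥0∞).2 h5).trans (le_of_eq ?_)
    rw [Nat.cast_mul, Nat.cast_ofNat]
  have h3 : ∑ p ∈ (Finset.univ : Finset (Fin m)) ×ˢ F, ν {z | ¬ S (p.2 • z) (t p.1)} =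
      (F.card : ℝ≥0∞) * ∑ i, ν {y | ¬ S y (t i)} := by
    rw [Finset.sum_product, Finset.mul_sum]
    refine Finset.sum_congr rfl fun i _ => ?_
    have : ∀ h ∈ F, ν {z | ¬ S (h • z) (t i)} = ν {y | ¬ S y (t i)} := by
      intro h _
      exact (hν h).measure_preimage (hSm (t i)).compl.nullMeasurableSet
    rw [Finset.sum_congr rfl this, Finset.sum_const, nsmul_eq_mul]
  rw [h3] at h2
  have h4 : (F.card : ℝ≥0∞) * ν (Fine S F f)ᶜ ≤
      (F.card : ℝ≥0∞) * (16 * ∑ i, ν {y | ¬ S y (t i)}) := by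
    refine h1.trans ((mul_le_mul_right h2 4).trans (le_of_eq ?_))
    ring
  exact (ENNReal.mul_le_mul_iff_right hcard hcard').1 h4

end Pool.Agent.Lib.MP_90732c_al.Ab
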