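import Pool.Agent.Lib.MP_90732c_al.Ab.LAB
import Pool.Agent.Lib.MP_90732c_al.Ab.GEN
import Pool.Agent.Lib.MP_90732c_al.Ab.ADD
import Pool.Agent.Lib.MP_90732c_al.Ab.EXT
import Pool.Agent.Lib.MP_90732c_al.Ab.SML

/-! An absolute bound for the Tarski numbers, module LNK: linking the large pieces of random
tiles (helper74). -/

set_option autoImplicit false

open MeasureTheory
open scoped ENNReal Pointwise

namespace Pool.Agent.Lib.MP_90732c_al.Ab

variable {G : Type} [Group G] {Y : Type} [MulAction G Y]

namespace LNK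

lemma mem_piece {S : Y → G → Prop} {F : Finset G} {z : Y} {h k : G} :
    k ∈ piece S F z h ↔ k ∈ F ∧ S (h • z) (k * h⁻¹) := by
  classical
  unfold piece
  rw [Finset.mem_filter]

lemma piece_sub (S : Y → G → Prop) (F : Finset G) (z : Y) (h : G) : piece S F z h ⊆ F :=
  fun _ hk => (mem_piece.1 hk).1

/-- positions of a tile are related as the points -/
lemma rel_symm {S : Y → G → Prop} (hS : IsRel S) {z : Y} {h k : G}
    (hk : S (h • z) (k * h⁻¹)) : S (k • z) (h * k⁻¹) := by
  have := hS.inv _ _ hk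
  rwa [smul_smul, inv_mul_cancel_right, mul_inv_rev, inv_inv] at this

lemma rel_trans {S : Y → G → Prop} (hS : IsRel S) {z : Y} {h k m : G}
    (hk : S (h • z) (k * h⁻¹)) (hm : S (k • z) (m * k⁻¹)) : S (h • z) (m * h⁻¹) := by
  have h1 : (k * h⁻¹) • h • z = k • z := by rw [smul_smul, inv_mul_cancel_right]
  have := hS.mul _ _ _ hk (by rw [h1]; exact hm)
  rwa [mul_assoc, inv_mul_cancel_left] at this

lemma piece_eq {S : Y → G → Prop} (hS : IsRel S) {F : Finset G} {z : Y} {h k : G}
    (hk : k ∈ piece S F z h) : piece S F z k = piece S F z h := by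
  rw [mem_piece] at hk
  ext m
  rw [mem_piece, mem_piece]
  refine and_congr_right fun _ => ⟨fun hm => rel_trans hS hk.2 hm, fun hm => ?_⟩
  exact rel_trans hS (rel_symm hS hk.2) hm

lemma self_mem {S : Y → G → Prop} (hS : IsRel S) {F : Finset G} (z : Y) {h : G} (hh : h ∈ F) :
    h ∈ piece S F z h := by
  rw [mem_piece]
  refine ⟨hh, ?_⟩
  rw [mul_inv_cancel]
  exact hS.one _

/-- `r` is the representative of a large piece -/
def Rep (enc : G → ℕ) (S : Y → G → Prop) (F : Finset G) (f : ℕ) (z : Y) (r : G) : Prop :=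
  r ∈ F ∧ ¬ Small S F f z r ∧ ∀ k ∈ piece S F z r, enc r ≤ enc k

lemma exists_rep (enc : G → ℕ) {S : Y → G → Prop} (hS : IsRel S) {F : Finset G} {f : ℕ} {z : Y}
    {h : G} (hh : h ∈ F) (hs : ¬ Small S F f z h) : ∃ r ∈ piece S F z h, Rep enc S F f z r := by
  obtain ⟨r, hr, hmin⟩ := Finset.exists_min_image (piece S F z h) enc ⟨h, self_mem hS z hh⟩
  refine ⟨r, hr, piece_sub _ _ _ _ hr, ?_, ?_⟩
  · unfold Small at hs ⊢
    rwa [piece_eq hS hr]
  · intro k hk
    rw [piece_eq hS hr] at hk
    exact hmin k hk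

open Classical in
lemma rep_card {enc : G → ℕ} (henc : Function.Injective enc) {S : Y → G → Prop} (hS : IsRel S)
    (F : Finset G) (f : ℕ) (z : Y) :
    (F.filter fun r => Rep enc S F f z r).card * f ≤ F.card := by
  have hdis : ∀ r ∈ F.filter (fun r => Rep enc S F f z r),
      ∀ r' ∈ F.filter (fun r => Rep enc S F f z r), r ≠ r' →
      Disjoint (piece S F z r) (piece S F z r') := by
    intro r hr r' hr' hne
    rw [Finset.mem_filter] at hr hr'
    rw [Finset.disjoint_left]
    intro k hk hk'
    apply hne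
    apply henc
    have e : piece S F z r = piece S F z r' := (piece_eq hS hk).symm.trans (piece_eq hS hk')
    apply le_antisymm
    · apply hr.2.2.2
      rw [e]
      exact self_mem hS z hr'.1
    · apply hr'.2.2.2
      rw [← e]
      exact self_mem hS z hr.1
  have h1 := Finset.card_biUnion hdis
  have h2 : ((F.filter fun r => Rep enc S F f z r).biUnion fun r => piece S F z r).card ≤
      F.card := by
    apply Finset.card_le_card
    intro k hk
    rw [Finset.mem_biUnion] at hk
    obtain ⟨r, -, hk⟩ := hk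
    exact piece_sub _ _ _ _ hk
  rw [h1] at h2
  refine le_trans ?_ h2
  rw [← smul_eq_mul]
  apply Finset.card_nsmul_le_sum
  intro r hr
  rw [Finset.mem_filter] at hr
  have := hr.2.2.1
  unfold Small at this
  omega

section meas

variable [MeasurableSpace Y]

lemma piece_meas {S : Y → G → Prop} (hG : ∀ g : G, Measurable fun y : Y => g • y)
    (hSm : ∀ g, MeasurableSet {y | S y g}) (F : Finset G) (r : G) (p : Finset G → Prop) :
    MeasurableSet {y | p (piece S F y r)} := by
  classical
  have e : {y | p (piece S F y r)} = ⋃ P ∈ F.powerset.filter p, {y | piece S F y r = P} := by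
    ext y
    simp only [Set.mem_ofPred_eq, Set.mem_iUnion, Finset.mem_filter, Finset.mem_powerset,
      exists_prop]
    constructor
    · intro h
      exact ⟨_, ⟨piece_sub _ _ _ _, h⟩, rfl⟩
    · rintro ⟨P, ⟨-, hP⟩, rfl⟩
      exact hP
  rw [e]
  refine Finset.measurableSet_biUnion _ fun P hP => ?_
  rw [Finset.mem_filter, Finset.mem_powerset] at hP
  have e2 : {y | piece S F y r = P} = ⋂ k ∈ F, {y | S (r • y) (k * r⁻¹) ↔ k ∈ P} := by
    ext y
    simp only [Set.mem_ofPred_eq, Set.mem_iInter]
    constructor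
    · rintro rfl k hk
      rw [mem_piece]
      exact ⟨fun h => ⟨hk, h⟩, fun h => h.2⟩
    · intro h
      ext k
      rw [mem_piece]
      constructor
      · rintro ⟨hk, hk'⟩
        exact (h k hk).1 hk'
      · intro hk
        exact ⟨hP.1 hk, (h k (hP.1 hk)).2 hk⟩
  rw [e2]
  refine Finset.measurableSet_biInter _ fun k _ => ?_
  have h1 : MeasurableSet {y | S (r • y) (k * r⁻¹)} := hG r (hSm (k * r⁻¹))
  by_cases hk : k ∈ P
  · simpa [hk] using h1
  · have : {y | S (r • y) (k * r⁻¹) ↔ k ∈ P} = {y | S (r • y) (k * r⁻¹)}ᶜ := by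
      ext y
      simp [hk]
    rw [this]
    exact h1.compl

lemma rep_meas (enc : G → ℕ) {S : Y → G → Prop} (hG : ∀ g : G, Measurable fun y : Y => g • y)
    (hSm : ∀ g, MeasurableSet {y | S y g}) (F : Finset G) (f : ℕ) (r : G) :
    MeasurableSet {y | Rep enc S F f y r} := by
  exact piece_meas hG hSm F r (fun P => r ∈ F ∧ ¬ P.card < f ∧ ∀ k ∈ P, enc r ≤ enc k)

open Classical in
lemma sum_rep {ν : Measure Y} [IsProbabilityMeasure ν] {enc : G → ℕ}
    (henc : Function.Injective enc) {S : Y → G → Prop} (hS : IsRel S)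
    (hG : ∀ g : G, Measurable fun y : Y => g • y)
    (hSm : ∀ g, MeasurableSet {y | S y g}) (F : Finset G) {f : ℕ} (hf : 0 < f) :
    ∑ r ∈ F, ν {y | Rep enc S F f y r} ≤ ENNReal.ofReal ((F.card : ℝ) / f) := by
  have h1 : ∑ r ∈ F, ν {y | Rep enc S F f y r} =
      ∫⁻ y, ∑ r ∈ F, ({y | Rep enc S F f y r} : Set Y).indicator (fun _ => (1 : ℝ≥0∞)) y ∂ν := by
    rw [lintegral_finsetSum]
    · refine Finset.sum_congr rfl fun r _ => ?_
      rw [lintegral_indicator (rep_meas enc hG hSm F f r), setLIntegral_const, one_mul]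
    · intro r _
      exact measurable_const.indicator (rep_meas enc hG hSm F f r)
  rw [h1]
  have h2 : ∀ y, ∑ r ∈ F, ({y | Rep enc S F f y r} : Set Y).indicator (fun _ => (1 : ℝ≥0∞)) y ≤
      ENNReal.ofReal ((F.card : ℝ) / f) := by
    intro y
    have e : ∑ r ∈ F, ({y | Rep enc S F f y r} : Set Y).indicator (fun _ => (1 : ℝ≥0∞)) y =
        ((F.filter fun r => Rep enc S F f y r).card : ℝ≥0∞) := by
      rw [Finset.card_filter]
      push_cast
      refine Finset.sum_congr rfl fun r _ => ?_
      rw [Set.indicator_apply]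
      rfl
    rw [e, ← ENNReal.ofReal_natCast]
    apply ENNReal.ofReal_le_ofReal
    rw [le_div_iff₀ (by exact_mod_cast hf)]
    exact_mod_cast rep_card henc hS F f y
  calc _ ≤ ∫⁻ _, ENNReal.ofReal ((F.card : ℝ) / f) ∂ν := lintegral_mono h2
    _ = _ := by rw [lintegral_const, measure_univ, mul_one]

end meas

open Classical in
/-- the good positions -/
noncomputable def good (S : Y → G → Prop) (F : Finset G) (f : ℕ) (w : G) (y : Y) : Finset G :=
  F.filter fun h => w * h ∈ F ∧ ¬ Small S F f (h⁻¹ • y) h ∧ ¬ Small S F f (h⁻¹ • y) (w * h)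

open Classical in
lemma good_card {S : Y → G → Prop} {F : Finset G} {f : ℕ} {w : G} {y : Y} {k : ℕ}
    (hk : 4 * k ≤ F.card) (hw : 4 * (F.filter fun h => w * h ∉ F).card ≤ F.card)
    (h1 : y ∈ Fine S F f) (h2 : w • y ∈ Fine S F f) : k ≤ (good S F f w y).card := by
  have hF1 : 4 * (F.filter fun h => Small S F f (h⁻¹ • y) h).card ≤ F.card := h1
  have hF2 : 4 * (F.filter fun h => Small S F f (h⁻¹ • w • y) h).card ≤ F.card := h2
  have h3 : (F.filter fun h => w * h ∈ F ∧ Small S F f (h⁻¹ • y) (w * h)).card ≤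
      (F.filter fun h => Small S F f (h⁻¹ • w • y) h).card := by
    apply Finset.card_le_card_of_injOn (fun h => w * h)
    · intro h hh
      simp only [Finset.coe_filter, Set.mem_ofPred_eq] at hh ⊢
      refine ⟨hh.2.1, ?_⟩
      have e : (w * h)⁻¹ • w • y = h⁻¹ • y := by
        rw [smul_smul, mul_inv_rev, inv_mul_cancel_right]
      rw [e]
      exact hh.2.2
    · intro a _ b _ hab
      exact mul_left_cancel hab
  have h4 : F.card ≤ (good S F f w y).card + (F.filter fun h => w * h ∉ F).card +
      (F.filter fun h => Small S F f (h⁻¹ • y) h).card +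
      (F.filter fun h => w * h ∈ F ∧ Small S F f (h⁻¹ • y) (w * h)).card := by
    have hsub : F ⊆ ((good S F f w y ∪ (F.filter fun h => w * h ∉ F)) ∪
      (F.filter fun h => Small S F f (h⁻¹ • y) h)) ∪
      (F.filter fun h => w * h ∈ F ∧ Small S F f (h⁻¹ • y) (w * h)) := by
      intro h hh
      simp only [good, Finset.mem_union, Finset.mem_filter]
      tauto
    refine (Finset.card_le_card hsub).trans ?_
    refine (Finset.card_union_le _ _).trans ?_
    gcongr
    refine (Finset.card_union_le _ _).trans ?_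
    gcongr
    exact Finset.card_union_le _ _
  omega

end LNK

open LNK in
open Classical in
theorem link [Countable G] [MeasurableSpace Y] {ν : Measure Y} [IsProbabilityMeasure ν]
    (hν : ∀ g : G, MeasurePreserving (fun y : Y => g • y) ν ν) {S : Y → G → Prop} {ρ : ℝ≥0∞}
    (h : Exc ν S ρ) (F : Finset G) (f : ℕ) (hf : 0 < f) {l : ℝ} (h0 : 0 ≤ l) (h1 : l ≤ 1) :
    ∃ S' : Y × Lab G → G → Prop,
      Exc (ν.prod (lam G)) S' (ρ + ENNReal.ofReal (l * F.card / f)) ∧
      (∀ x g, S x.1 g → S' x g) ∧
      ∀ (w : G) (k : ℕ), 4 * k ≤ F.card →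
        4 * (F.filter fun h => w * h ∉ F).card ≤ F.card →
        (ν.prod (lam G)) {x | x.1 ∈ Fine S F f ∧ w • x.1 ∈ Fine S F f ∧ ¬ S' x w} ≤
          ENNReal.ofReal ((1 - l) ^ k) := by
  obtain ⟨enc, henc⟩ := exists_injective_nat G
  have hS := h.isRel
  have hG : ∀ g : G, Measurable fun y : Y => g • y := fun g => (hν g).measurable
  have hSm : ∀ g, MeasurableSet {y | S y g} := fun g => h.measurableSet hG g
  have hp := h.prod (lam G) (fun g => lam_measurePreserving g)
  have hGL : ∀ g : G, Measurable fun ω : Lab G => g • ω :=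
    fun g => (lam_measurePreserving g).measurable
  have hGX : ∀ g : G, Measurable fun x : Y × Lab G => g • x := fun g =>
    ((hG g).comp measurable_fst).prodMk ((hGL g).comp measurable_snd)
  have hlm : MeasurableSet {ω : Lab G | ω 1 < l} := by
    have : Measurable fun ω : Lab G => ω 1 := measurable_pi_apply (1 : G)
    exact measurableSet_lt this measurable_const
  let C : F → Set (Y × Lab G) := fun r => {y | Rep enc S F f y r} ×ˢ {ω : Lab G | ω 1 < l}
  have hC : ∀ r, MeasurableSet (C r) := fun r => (rep_meas enc hG hSm F f r).prod hlm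
  obtain ⟨S', hS'1, hS'2, hS'3⟩ := hp.add (κ := F) (fun r => (r : G)) C hC
  have hR := hS'1.isRel
  refine ⟨S', ?_, hS'2, ?_⟩
  · refine hS'1.mono ?_
    gcongr
    have e1 : ∀ r : F, (ν.prod (lam G)) (C r) =
        ν {y | Rep enc S F f y r} * ENNReal.ofReal l := by
      intro r
      rw [Measure.prod_prod, lam_lt h0 h1]
    have e2 : ∑' r : F, (ν.prod (lam G)) (C r) =
        (∑ r ∈ F, ν {y | Rep enc S F f y r}) * ENNReal.ofReal l := by
      simp only [e1]
      rw [tsum_fintype, ← Finset.sum_mul, Finset.sum_coe_sort F fun r => ν {y | Rep enc S F f y r}]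
    rw [e2]
    calc _ ≤ ENNReal.ofReal ((F.card : ℝ) / f) * ENNReal.ofReal l := by
          gcongr
          exact sum_rep henc hS hG hSm F hf
      _ = ENNReal.ofReal (l * F.card / f) := by
          rw [← ENNReal.ofReal_mul (by positivity)]
          congr 1
          ring
  · intro w k hk hw
    -- a point in a large piece of an active tile is linked to the centre
    have key : ∀ (z : Y × Lab G) (p : G), z.2 1 < l → p ∈ F → ¬ Small S F f z.1 p →
        S' (p • z) p⁻¹ := by
      intro z p hz hp' hs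
      obtain ⟨r, hr, hrep⟩ := exists_rep enc hS hp' hs
      have a1 : S' z r := hS'3 ⟨r, hrep.1⟩ z ⟨hrep, hz⟩
      have a2 : S' (p • z) (r * p⁻¹) := hS'2 (p • z) _ (mem_piece.1 hr).2
      have a3 : S' (r • z) r⁻¹ := hR.inv _ _ a1
      have e : (r * p⁻¹) • p • z = r • z := by rw [smul_smul, inv_mul_cancel_right]
      have a4 := hR.mul _ _ _ a2 (by rw [e]; exact a3)
      rwa [inv_mul_cancel_left] at a4
    have hD : MeasurableSet {x : Y × Lab G | x.1 ∈ Fine S F f ∧ w • x.1 ∈ Fine S F f ∧
        ¬ S' x w} := by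
      have f1 := fine_measurable hG hSm F f
      have f2 : MeasurableSet {x : Y × Lab G | x.1 ∈ Fine S F f} := measurable_fst f1
      have f3 : MeasurableSet {x : Y × Lab G | w • x.1 ∈ Fine S F f} :=
        ((hG w).comp measurable_fst) f1
      have f4 : MeasurableSet {x : Y × Lab G | S' x w} := hS'1.measurableSet hGX w
      exact f2.inter (f3.inter f4.compl)
    rw [Measure.prod_apply hD]
    have hb : ∀ y, lam G (Prod.mk y ⁻¹' {x : Y × Lab G | x.1 ∈ Fine S F f ∧
        w • x.1 ∈ Fine S F f ∧ ¬ S' x w}) ≤ ENNReal.ofReal ((1 - l) ^ k) := by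
      intro y
      by_cases hy : y ∈ Fine S F f ∧ w • y ∈ Fine S F f
      · have hsub : (Prod.mk y ⁻¹' {x : Y × Lab G | x.1 ∈ Fine S F f ∧
            w • x.1 ∈ Fine S F f ∧ ¬ S' x w}) ⊆
            {ω : Lab G | ∀ p ∈ good S F f w y, ¬ ω p < l} := by
          intro ω hω p hp' hlt
          have hω' : ¬ S' (y, ω) w := hω.2.2
          apply hω'
          unfold good at hp'
          rw [Finset.mem_filter] at hp'
          obtain ⟨q1, q2, q3, q4⟩ := hp'
          set z : Y × Lab G := p⁻¹ • (y, ω) with hz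
          have hz1 : z.1 = p⁻¹ • y := rfl
          have hz2 : z.2 1 = ω p := by
            show (p⁻¹ • ω) 1 = ω p
            rw [smul_lab, inv_inv, mul_one]
          have b1 := key z p (by rw [hz2]; exact hlt) q1 (by rw [hz1]; exact q3)
          have b2 := key z (w * p) (by rw [hz2]; exact hlt) q2 (by rw [hz1]; exact q4)
          have b3 := hR.inv _ _ b2
          rw [inv_smul_smul, inv_inv] at b3
          have e1 : p • z = (y, ω) := by rw [hz, smul_inv_smul]
          have e2 : p⁻¹ • p • z = z := inv_smul_smul _ _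
          have b4 := hR.mul _ _ _ b1 (by rw [e2]; exact b3)
          rw [mul_inv_cancel_right, e1] at b4
          exact b4
        refine (measure_mono hsub).trans ?_
        rw [lam_not_lt _ h0 h1]
        apply ENNReal.ofReal_le_ofReal
        exact pow_le_pow_of_le_one (by linarith) (by linarith) (good_card hk hw hy.1 hy.2)
      · have : (Prod.mk y ⁻¹' {x : Y × Lab G | x.1 ∈ Fine S F f ∧
            w • x.1 ∈ Fine S F f ∧ ¬ S' x w}) = ∅ := by
          ext ω
          constructor
          · intro hω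
            exact hy ⟨hω.1, hω.2.1⟩
          · intro hω
            exact hω.elim
        rw [this, measure_empty]
        exact zero_le
    calc _ ≤ ∫⁻ _, ENNReal.ofReal ((1 - l) ^ k) ∂ν := lintegral_mono hb
      _ = _ := by rw [lintegral_const, measure_univ, mul_one]

end Pool.Agent.Lib.MP_90732c_al.Ab
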