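import Pool.Agent.Lib.MP_90732c_al.Ab.GEN
import Pool.Agent.Lib.MP_90732c_al.Ab.ADD
import Pool.Agent.Lib.MP_90732c_al.Ab.LAB
import Pool.Agent.Lib.MP_90732c_al.Ab.LNK

/-! # Module ADG: adding one more generator -/

set_option autoImplicit false

open MeasureTheory
open scoped ENNReal Pointwise

namespace Pool.Agent.Lib.MP_90732c_al.Ab

variable {G : Type} [Group G] {Y : Type} [MulAction G Y]

theorem hasFull_of_hasState {m : ℕ} (t : Fin m → G) {ρ β : ℝ≥0∞} (h : HasState t ρ β) :
    HasFull (Set.range t) (ρ + β) := by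
  obtain ⟨Y, mY, sY, aY, ν, pν, S, hν, hS, hβ⟩ := h
  have hm : ∀ i, MeasurableSet {y | ¬ S y (t i)} := fun i =>
    (hS.measurableSet (fun g => (hν g).measurable) (t i)).compl
  obtain ⟨S', h1, h2, h3⟩ := hS.add t (fun i => {y | ¬ S y (t i)}) hm
  refine ⟨Y, mY, sY, aY, ν, pν, S', hν, h1.mono ?_, ?_⟩
  · rw [tsum_fintype]
    exact add_le_add le_rfl hβ
  · rintro y _ ⟨i, rfl⟩
    by_cases hy : S y (t i)
    · exact h2 y _ hy
    · exact h3 i y hy

/-- A set with an expanding family is not small. -/
theorem le_card_of_expand {m : ℕ} {t : Fin m → G} {f : ℕ} (hE : Expand t f) {F : Finset G}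
    (hne : F.Nonempty) (h0 : 2000 * (bd t F).card ≤ F.card) : f ≤ F.card := by
  by_contra h
  have h1 := hE F hne (by omega)
  have h2 := Finset.card_pos.2 hne
  omega

open Classical in
/-- The positions in a small piece of the relation of the subgroup generated by `t`. -/
theorem card_small_le {m : ℕ} (t : Fin m → G) (f : ℕ) (hE : Expand t f) (F : Finset G)
    (S : Y → G → Prop) (hS : ∀ y, ∀ g ∈ Subgroup.closure (Set.range t), S y g) (y : Y) :
    (F.filter fun h => Small S F f (h⁻¹ • y) h).card ≤ (bd t F).card := by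
  set Γ := Subgroup.closure (Set.range t) with hΓ
  let Q : G → Finset G := fun h => F.filter fun k => k * h⁻¹ ∈ Γ
  set H := F.filter fun h => Small S F f (h⁻¹ • y) h with hH
  have hQeq : ∀ k h : G, k * h⁻¹ ∈ Γ → Q k = Q h := by
    intro k h hk
    ext a
    simp only [Q, Finset.mem_filter, and_congr_right_iff]
    intro _
    have e1 : a * h⁻¹ = (a * k⁻¹) * (k * h⁻¹) := by group
    rw [e1]
    exact (Subgroup.mul_mem_cancel_right Γ hk).symm
  have hmem : ∀ h ∈ F, h ∈ Q h := by
    intro h hh
    simp only [Q, Finset.mem_filter]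
    exact ⟨hh, by rw [mul_inv_cancel]; exact Γ.one_mem⟩
  have hsmall : ∀ h ∈ H, (Q h).card < f := by
    intro h hh
    rw [hH, Finset.mem_filter] at hh
    refine lt_of_le_of_lt (Finset.card_le_card ?_) hh.2
    intro k hk
    simp only [Q, Finset.mem_filter] at hk
    simp only [piece, Finset.mem_filter]
    exact ⟨hk.1, hS _ _ hk.2⟩
  have hcl : ∀ h ∈ H, ((bd t F).filter fun p => p.2 ∈ Q h).card ≥ (Q h).card := by
    intro h hh
    have h1 := hE (Q h) ⟨h, hmem h (Finset.mem_filter.1 hh).1⟩ (hsmall h hh)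
    refine h1.trans (Finset.card_le_card ?_)
    rintro ⟨i, q⟩ hq
    simp only [bd, Finset.mem_filter, Finset.mem_product, Finset.mem_univ, true_and, Q] at hq ⊢
    obtain ⟨⟨hq1, hq2⟩, hq3⟩ := hq
    refine ⟨⟨hq1, fun h4 => hq3 ⟨h4, ?_⟩⟩, hq1, hq2⟩
    rw [mul_assoc]
    exact Γ.mul_mem (Subgroup.subset_closure ⟨i, rfl⟩) hq2
  calc H.card = ∑ P ∈ H.image Q, (H.filter fun h => Q h = P).card :=
        Finset.card_eq_sum_card_fiberwise fun h hh => Finset.mem_image_of_mem Q hh
    _ ≤ ∑ P ∈ H.image Q, ((bd t F).filter fun p => Q p.2 = P).card := by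
        refine Finset.sum_le_sum fun P hP => ?_
        obtain ⟨h, hh, rfl⟩ := Finset.mem_image.1 hP
        refine le_trans (Finset.card_le_card ?_) ((hcl h hh).trans (Finset.card_le_card ?_))
        · intro k hk
          rw [Finset.mem_filter] at hk
          rw [← hk.2]
          exact hmem k (Finset.mem_filter.1 hk.1).1
        · rintro ⟨i, q⟩ hq
          rw [Finset.mem_filter] at hq ⊢
          refine ⟨hq.1, hQeq _ _ ?_⟩
          exact (Finset.mem_filter.1 hq.2).2
    _ ≤ (bd t F).card := by
        rw [← Finset.card_biUnion]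
        · refine Finset.card_le_card ?_
          intro p hp
          rw [Finset.mem_biUnion] at hp
          obtain ⟨P, -, hp⟩ := hp
          exact (Finset.mem_filter.1 hp).1
        · intro P _ P' _ hPP
          rw [Function.onFun, Finset.disjoint_left]
          intro p hp hp'
          exact hPP ((Finset.mem_filter.1 hp).2.symm.trans (Finset.mem_filter.1 hp').2)

/-- The subgroup generated by a set of full elements. -/
theorem full_closure {S : Y → G → Prop} (hS : IsRel S) {K : Set G} (hK : ∀ y, ∀ g ∈ K, S y g)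
    (y : Y) (g : G) (hg : g ∈ Subgroup.closure K) : S y g := by
  have : ∀ y, S y g := by
    induction hg using Subgroup.closure_induction with
    | mem x hx => exact fun y => hK y x hx
    | one => exact fun y => hS.one y
    | mul a b _ _ ha hb => exact fun y => hS.mul y b a (hb y) (ha _)
    | inv a _ ha =>
      intro y
      have h1 := hS.inv (a⁻¹ • y) a (ha _)
      rwa [smul_inv_smul] at h1
  exact this y

open Classical in
theorem add_generator {m : ℕ} [Countable G] (t : Fin m → G) (s : G) (f : ℕ) (hf8 : 8 ≤ f)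
    (hE : Expand t f) (F : Finset G) (hne : F.Nonempty) (h0 : 2000 * (bd t F).card ≤ F.card)
    (h1 : 2000 * (F.filter fun h => s * h ∉ F).card ≤ F.card)
    {L : ℝ} (hL0 : 0 ≤ L) (hLf : L ≤ f) {K : Set G} (hK : Set.range t ⊆ K) {ρ : ℝ≥0∞}
    (h : HasFull K ρ) :
    HasFull (insert s K) (ρ + ENNReal.ofReal (L / f) + ENNReal.ofReal (Real.exp (-(L / 8)))) := by
  obtain ⟨Y, mY, sY, aY, ν, pν, S, hν, hS, hSK⟩ := h
  have hfF := le_card_of_expand hE hne h0
  have hF0 : (0 : ℝ) < F.card := by
    have := Finset.card_pos.2 hne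
    exact_mod_cast this
  have hfF' : (f : ℝ) ≤ F.card := by exact_mod_cast hfF
  have hf0 : (0 : ℝ) < f := by
    have : 0 < f := by omega
    exact_mod_cast this
  have hl0 : 0 ≤ L / F.card := div_nonneg hL0 hF0.le
  have hl1 : L / F.card ≤ 1 := by
    rw [div_le_one hF0]
    exact hLf.trans hfF'
  have hfine : ∀ y, y ∈ Fine S F f := by
    intro y
    have h2 := card_small_le t f hE F S (fun y g hg => full_closure hS.isRel
      (fun y g hg => hSK y g (hK hg)) y g hg) y
    change 4 * (F.filter fun h => Small S F f (h⁻¹ • y) h).card ≤ F.card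
    omega
  obtain ⟨S', h2, h3, h4⟩ := link hν hS F f (by omega) hl0 hl1
  have h5 := h4 s (F.card / 4) (by omega) (by omega)
  have hν' : ∀ g : G, MeasurePreserving (fun x : Y × Lab G => g • x) (ν.prod (lam G))
      (ν.prod (lam G)) := fun g => (hν g).prod (lam_measurePreserving g)
  have hm : MeasurableSet {x : Y × Lab G | ¬ S' x s} :=
    (h2.measurableSet (fun g => (hν' g).measurable) s).compl
  obtain ⟨S'', h6, h7, h8⟩ := h2.add (fun _ : Unit => s) (fun _ => {x | ¬ S' x s}) (fun _ => hm)
  refine ⟨Y × Lab G, inferInstance, inferInstance, inferInstance, ν.prod (lam G), inferInstance,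
    S'', hν', h6.mono ?_, ?_⟩
  · refine add_le_add (le_of_eq ?_) ?_
    · congr 3
      field_simp
    · rw [tsum_fintype, Finset.univ_unique, Finset.sum_singleton]
      have e1 : {x : Y × Lab G | ¬ S' x s} =
          {x | x.1 ∈ Fine S F f ∧ s • x.1 ∈ Fine S F f ∧ ¬ S' x s} := by
        ext x
        simp only [Set.mem_ofPred_eq]
        exact ⟨fun hx => ⟨hfine _, hfine _, hx⟩, fun hx => hx.2.2⟩
      rw [e1]
      refine h5.trans (ENNReal.ofReal_le_ofReal ?_)
      have e2 : 1 - L / F.card ≤ Real.exp (-(L / F.card)) := by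
        have := Real.add_one_le_exp (-(L / F.card))
        linarith
      have e3 : (1 - L / F.card) ^ (F.card / 4) ≤ Real.exp (-(L / F.card)) ^ (F.card / 4) :=
        pow_le_pow_left₀ (by linarith) e2 _
      refine e3.trans ?_
      rw [← Real.exp_nat_mul, Real.exp_le_exp]
      have e4 : (F.card : ℝ) / 8 ≤ ((F.card / 4 : ℕ) : ℝ) := by
        have e5 : F.card ≤ 8 * (F.card / 4) := by omega
        have e6 : (F.card : ℝ) ≤ 8 * ((F.card / 4 : ℕ) : ℝ) := by exact_mod_cast e5
        linarith
      have e7 : L / 8 ≤ ((F.card / 4 : ℕ) : ℝ) * (L / F.card) := by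
        calc L / 8 = (F.card : ℝ) / 8 * (L / F.card) := by field_simp
          _ ≤ _ := mul_le_mul_of_nonneg_right e4 hl0
      linarith
  · intro x g hg
    rcases hg with rfl | hg
    · by_cases hx : S' x g
      · exact h7 x g hx
      · exact h8 () x hx
    · exact h7 x g (h3 x g (hSK _ g hg))

end Pool.Agent.Lib.MP_90732c_al.Ab
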