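import Pool.Agent.Lib.MP_90732c_al.Ab.LAB

/-! Module CEN: the least label of a finite set and of a translate. -/

set_option autoImplicit false

open MeasureTheory
open scoped ENNReal Pointwise

namespace Pool.Agent.Lib.MP_90732c_al.Ab

variable {G : Type} [Group G]

open Classical in
/-- Outside an event of probability at most `2 * ∂ / |F|` there is `u` with `u ∈ F`, `t * u ∈ F`
which has the strictly least label in `F` and also in `t⁻¹ • F`. -/
theorem centre_le [Countable G] (F : Finset G) (hne : F.Nonempty) (t : G) :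
    lam G {ω : Lab G | ¬ ∃ u ∈ F, t * u ∈ F ∧ (∀ v ∈ F, v ≠ u → ω u < ω v) ∧
      ∀ v ∈ F, t⁻¹ * v ≠ u → ω u < ω (t⁻¹ * v)} ≤
      2 * ((F.filter fun h => t * h ∉ F).card : ℝ≥0∞) / (F.card : ℝ≥0∞) := by
  set F' : Finset G := F.image fun v => t⁻¹ * v with hF'
  set U : Finset G := F ∪ F' with hU
  set D : Finset G := U.filter fun u => ¬ (u ∈ F ∧ t * u ∈ F) with hD
  have hmemF' : ∀ u, u ∈ F' ↔ t * u ∈ F := by
    intro u
    rw [hF', Finset.mem_image]
    constructor
    · rintro ⟨v, hv, rfl⟩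
      rw [mul_inv_cancel_left]
      exact hv
    · intro h
      exact ⟨t * u, h, inv_mul_cancel_left _ _⟩
  have hcF' : F'.card = F.card := Finset.card_image_of_injective _ (mul_right_injective _)
  -- the exceptional elements
  have hDc : D.card ≤ 2 * (F.filter fun h => t * h ∉ F).card := by
    have h1 : D ⊆ (F.filter fun h => t * h ∉ F) ∪ (F' \ F) := by
      intro u hu
      rw [hD, Finset.mem_filter, hU, Finset.mem_union] at hu
      rw [Finset.mem_union, Finset.mem_filter, Finset.mem_sdiff]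
      by_cases h : u ∈ F
      · exact Or.inl ⟨h, fun h' => hu.2 ⟨h, h'⟩⟩
      · exact Or.inr ⟨hu.1.resolve_left h, h⟩
    have h2 : (F' \ F).card = (F.filter fun h => t * h ∉ F).card := by
      have e1 : (F \ F') = F.filter fun h => t * h ∉ F := by
        ext u
        rw [Finset.mem_sdiff, Finset.mem_filter, hmemF']
      have e2 := Finset.card_sdiff_add_card_inter F' F
      have e3 := Finset.card_sdiff_add_card_inter F F'
      rw [Finset.inter_comm F F'] at e3
      rw [← e1]
      omega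
    calc D.card ≤ _ := Finset.card_le_card h1
      _ ≤ _ := Finset.card_union_le _ _
      _ = 2 * (F.filter fun h => t * h ∉ F).card := by rw [h2]; ring
  have hFU : F.card ≤ U.card := Finset.card_le_card Finset.subset_union_left
  have hinj : lam G {ω : Lab G | ¬ Function.Injective ω} = 0 := lam_injective (G := G)
  have hsub : {ω : Lab G | ¬ ∃ u ∈ F, t * u ∈ F ∧ (∀ v ∈ F, v ≠ u → ω u < ω v) ∧
      ∀ v ∈ F, t⁻¹ * v ≠ u → ω u < ω (t⁻¹ * v)} ⊆
      {ω : Lab G | ¬ Function.Injective ω} ∪
        ⋃ u ∈ D, {ω : Lab G | ∀ v ∈ U, v ≠ u → ω u < ω v} := by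
    intro ω hω
    by_cases hi : Function.Injective ω
    · right
      obtain ⟨u, hu, hmin⟩ := Finset.exists_min_image U ω (hne.mono Finset.subset_union_left)
      have hst : ∀ v ∈ U, v ≠ u → ω u < ω v := fun v hv hvu =>
        lt_of_le_of_ne (hmin v hv) fun h => hvu (hi h).symm
      rw [Set.mem_iUnion₂]
      refine ⟨u, ?_, hst⟩
      rw [hD, Finset.mem_filter]
      refine ⟨hu, fun h => hω ⟨u, h.1, h.2, fun v hv => hst v (Finset.mem_union_left _ hv),
        fun v hv => hst _ (Finset.mem_union_right _ ?_)⟩⟩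
      rw [hmemF', mul_inv_cancel_left]
      exact hv
    · exact Or.inl hi
  calc _ ≤ lam G ({ω : Lab G | ¬ Function.Injective ω} ∪
        ⋃ u ∈ D, {ω : Lab G | ∀ v ∈ U, v ≠ u → ω u < ω v}) := measure_mono hsub
    _ ≤ lam G {ω : Lab G | ¬ Function.Injective ω} +
        lam G (⋃ u ∈ D, {ω : Lab G | ∀ v ∈ U, v ≠ u → ω u < ω v}) := measure_union_le _ _
    _ ≤ 0 + ∑ u ∈ D, lam G {ω : Lab G | ∀ v ∈ U, v ≠ u → ω u < ω v} :=
        add_le_add hinj.le (measure_biUnion_finset_le _ _)
    _ ≤ 0 + ∑ u ∈ D, (F.card : ℝ≥0∞)⁻¹ := by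
        refine add_le_add le_rfl (Finset.sum_le_sum fun u hu => ?_)
        refine (lam_min_le U u (Finset.mem_filter.1 hu).1).trans ?_
        rw [ENNReal.inv_le_inv]
        exact_mod_cast hFU
    _ = (D.card : ℝ≥0∞) / F.card := by
        rw [zero_add, Finset.sum_const, nsmul_eq_mul, div_eq_mul_inv]
    _ ≤ _ := by
        refine ENNReal.div_le_div_right ?_ _
        exact_mod_cast hDc

end Pool.Agent.Lib.MP_90732c_al.Ab
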