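import Pool.Agent.Lib.MP_90732c_al.Pieces

/-! An absolute bound for the Tarski numbers: definitions. -/

set_option autoImplicit false

open MeasureTheory
open scoped ENNReal Pointwise

namespace Pool.Agent.Lib.MP_90732c_al.Ab

variable {G : Type} [Group G] {Y : Type} [MulAction G Y]

/-- The relation generated by a graphing: `Gen s A y g` says that `g • y` is reached from `y`
along the edges `z — s i • z` (`z ∈ A i`), the product of the group elements being `g`. -/
inductive Gen {ι : Type} (s : ι → G) (A : ι → Set Y) : Y → G → Prop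
  | one (y : Y) : Gen s A y 1
  | fwd (y : Y) (g : G) (i : ι) : Gen s A y g → g • y ∈ A i → Gen s A y (s i * g)
  | bwd (y : Y) (g : G) (i : ι) : Gen s A y g → (s i)⁻¹ • g • y ∈ A i →
      Gen s A y ((s i)⁻¹ * g)

/-- A family of equivalence relations on the orbits (`S y g`: the points `y` and `g • y` are
equivalent). -/
structure IsRel (S : Y → G → Prop) : Prop where
  one : ∀ y, S y 1
  mul : ∀ y g h, S y g → S (g • y) h → S y (h * g)
  inv : ∀ y g, S y g → S (g • y) g⁻¹

/-- `S` is generated by a graphing which has excess at most `ρ` on each `S`-invariant part: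
for every measurable `S`-invariant function `0 ≤ φ ≤ 1` the weighted cost is at most
`∫ φ + ρ`. -/
def Exc [MeasurableSpace Y] (ν : Measure Y) (S : Y → G → Prop) (ρ : ℝ≥0∞) : Prop :=
  ∃ (ι : Type) (_ : Countable ι) (s : ι → G) (A : ι → Set Y), (∀ i, MeasurableSet (A i)) ∧
    (∀ y g, S y g ↔ Gen s A y g) ∧
    ∀ φ : Y → ℝ≥0∞, Measurable φ → (∀ y, φ y ≤ 1) → (∀ y g, S y g → φ (g • y) = φ y) →
      ∑' i, ∫⁻ y in A i, φ y ∂ν ≤ (∫⁻ y, φ y ∂ν) + ρ

/-! ### Labels -/

/-- The space of labels. -/
def Lab (G : Type) : Type := G → ℝ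

instance : MeasurableSpace (Lab G) := inferInstanceAs (MeasurableSpace (G → ℝ))

instance [Countable G] : StandardBorelSpace (Lab G) :=
  inferInstanceAs (StandardBorelSpace (G → ℝ))

/-- The shift action: `(g • ω) h = ω (g⁻¹ * h)`. -/
instance : MulAction G (Lab G) where
  smul g ω := fun h => ω (g⁻¹ * h)
  one_smul ω := by
    change (fun h => ω (1⁻¹ * h)) = ω
    funext h
    rw [inv_one, one_mul]
  mul_smul a b ω := by
    change (fun h => ω ((a * b)⁻¹ * h)) = fun h => ω (b⁻¹ * (a⁻¹ * h))
    funext h
    rw [mul_inv_rev, mul_assoc]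

lemma smul_lab (g : G) (ω : Lab G) (h : G) : (g • ω) h = ω (g⁻¹ * h) := rfl

/-- Independent uniform labels. -/
noncomputable def lam (G : Type) : Measure (Lab G) := law G

instance : IsProbabilityMeasure (lam G) := inferInstanceAs (IsProbabilityMeasure (law G))

/-! ### Finite sets -/

open Classical in
/-- The edges leaving `F`. -/
noncomputable def bd {m : ℕ} (t : Fin m → G) (F : Finset G) : Finset (Fin m × G) :=
  (Finset.univ ×ˢ F).filter fun p => t p.1 * p.2 ∉ F

open Classical in
/-- The edges inside `F` with exactly one end point in `Q`. -/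
noncomputable def ebd {m : ℕ} (t : Fin m → G) (Q F : Finset G) : Finset (Fin m × G) :=
  (Finset.univ ×ˢ F).filter fun p => t p.1 * p.2 ∈ F ∧ ¬ (p.2 ∈ Q ↔ t p.1 * p.2 ∈ Q)

open Classical in
/-- The letters `1`, `t i`, `(t i)⁻¹`. -/
noncomputable def letters {m : ℕ} (t : Fin m → G) : Finset G :=
  insert 1 (Finset.univ.image t ∪ Finset.univ.image fun i => (t i)⁻¹)

open Classical in
/-- The products of `n` letters. -/
noncomputable def words {m : ℕ} (t : Fin m → G) (n : ℕ) : Finset G := letters t ^ n

open Classical in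
/-- The positions of the tile `F • z` which are `S`-equivalent to the position `h`. -/
noncomputable def piece (S : Y → G → Prop) (F : Finset G) (z : Y) (h : G) : Finset G :=
  F.filter fun k => S (h • z) (k * h⁻¹)

/-- The position `h` of the tile `F • z` is in a small piece. -/
def Small (S : Y → G → Prop) (F : Finset G) (f : ℕ) (z : Y) (h : G) : Prop :=
  (piece S F z h).card < f

open Classical in
/-- The points which are in a small piece of at most a quarter of their tiles. -/
def Fine (S : Y → G → Prop) (F : Finset G) (f : ℕ) : Set Y :=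
  {y | 4 * (F.filter fun h => Small S F f (h⁻¹ • y) h).card ≤ F.card}

/-- A bound for the number of words of length `321` in two letters and their inverses. -/
def cW : ℕ := 5 ^ 321

/-! ### States -/

/-- There is a relation of excess at most `ρ` for which the edges `t i` of total measure at most
`β` are cut. -/
def HasState {m : ℕ} (t : Fin m → G) (ρ β : ℝ≥0∞) : Prop :=
  ∃ (Y : Type) (_ : MeasurableSpace Y) (_ : StandardBorelSpace Y) (_ : MulAction G Y)
    (ν : Measure Y) (_ : IsProbabilityMeasure ν) (S : Y → G → Prop),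
    (∀ g : G, MeasurePreserving (fun y : Y => g • y) ν ν) ∧ Exc ν S ρ ∧
      ∑ i, ν {y | ¬ S y (t i)} ≤ β

/-- There is a relation of excess at most `ρ` which contains all edges `g ∈ L`. -/
def HasFull (L : Set G) (ρ : ℝ≥0∞) : Prop :=
  ∃ (Y : Type) (_ : MeasurableSpace Y) (_ : StandardBorelSpace Y) (_ : MulAction G Y)
    (ν : Measure Y) (_ : IsProbabilityMeasure ν) (S : Y → G → Prop),
    (∀ g : G, MeasurePreserving (fun y : Y => g • y) ν ν) ∧ Exc ν S ρ ∧
      ∀ y, ∀ g ∈ L, S y g

/-- Every set of less than `f` elements has a large boundary. -/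
def Expand {m : ℕ} (t : Fin m → G) (f : ℕ) : Prop :=
  ∀ W : Finset G, W.Nonempty → W.card < f → W.card ≤ (bd t W).card

end Pool.Agent.Lib.MP_90732c_al.Ab
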