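import Pool.Agent.Lib.MP_90732c_al.Ab.GEN
import Pool.Agent.Lib.MP_90732c_al.Ab.EXT
import Pool.Agent.Lib.MP_90732c_al.Ab.LAB

set_option autoImplicit false

open MeasureTheory
open scoped ENNReal Pointwise

namespace Pool.Agent.Lib.MP_90732c_al.Ab

variable {G : Type} [Group G] {Y : Type} [MulAction G Y]

/-! ## FIN: comparison with the cost -/

lemma Gen.reflTransGen {ι : Type} {s : ι → G} {A : ι → Set Y} {y : Y} {g : G}
    (h : Gen s A y g) : Relation.ReflTransGen
      (fun y z : Y => ∃ i, (y ∈ A i ∧ z = s i • y) ∨ (z ∈ A i ∧ y = s i • z)) y (g • y) := by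
  induction h with
  | one => rw [one_smul]
  | fwd g i _ hi ih =>
    refine ih.tail ⟨i, Or.inl ⟨hi, ?_⟩⟩
    rw [mul_smul]
  | bwd g i _ hi ih =>
    refine ih.tail ⟨i, Or.inr ⟨?_, ?_⟩⟩
    · rw [mul_smul]; exact hi
    · rw [mul_smul, smul_inv_smul]

theorem le_of_hasFull [Countable G] {c : ℝ≥0∞} (hc : CostGe G c) {K : Set G}
    (hK : Subgroup.closure K = ⊤) {ρ : ℝ≥0∞} (h : HasFull K ρ) : c ≤ 1 + ρ := by
  classical
  obtain ⟨Y, _, _, _, ν, _, S, hν, hexc, hfull⟩ := h
  -- the relation contains everything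
  have hrel := hexc.isRel
  have hS : ∀ g : G, ∀ y : Y, S y g := by
    intro g
    have hg : g ∈ Subgroup.closure K := by rw [hK]; trivial
    induction hg using Subgroup.closure_induction with
    | mem x hx => exact fun y => hfull y x hx
    | one => exact fun y => hrel.one y
    | mul a b _ _ ha hb => exact fun y => hrel.mul y b a (hb y) (ha (b • y))
    | inv a _ ha =>
      intro y
      have := hrel.inv (a⁻¹ • y) a (ha _)
      rwa [smul_inv_smul] at this
  -- the product with the labels is free
  obtain ⟨ι, _, s, A, hA, hgen, hφ⟩ := hexc.prod (lam G) lam_measurePreserving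
  have hsum : ∑' i, (ν.prod (lam G)) (A i) ≤ 1 + ρ := by
    have := hφ (fun _ => 1) measurable_const (fun _ => le_rfl) (fun _ _ _ => rfl)
    simpa using this
  refine le_trans ?_ hsum
  have : Encodable ι := Encodable.ofCountable ι
  let s' : ℕ → G := fun n => ((Encodable.decode₂ ι n).map s).getD 1
  let A' : ℕ → Set (Y × Lab G) := fun n => ((Encodable.decode₂ ι n).map A).getD ∅
  have hs' : ∀ i, s' (Encodable.encode i) = s i := fun i => by simp [s']
  have hA' : ∀ i, A' (Encodable.encode i) = A i := fun i => by simp [A']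
  have key : ∑' i, (ν.prod (lam G)) (A i) = ∑' n, (ν.prod (lam G)) (A' n) := by
    rw [← (Encodable.encode_injective (α := ι)).tsum_eq (f := fun n => (ν.prod (lam G)) (A' n))]
    · simp only [hA']
    · intro n hn
      rw [Function.mem_support] at hn
      cases hd : Encodable.decode₂ ι n with
      | none =>
        exfalso; apply hn
        simp [A', hd]
      | some i => exact ⟨i, (Encodable.mem_decode₂.1 hd)⟩
  rw [key]
  refine hc (Y × Lab G) (ν.prod (lam G)) (fun g => (hν g).prod (lam_measurePreserving g)) ?_ s' A'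
    ?_ ?_
  · intro g hg
    refine measure_mono_null (t := Set.univ ×ˢ {ω : Lab G | g • ω = ω}) ?_ ?_
    · rintro ⟨y, ω⟩ hx
      exact ⟨trivial, congrArg Prod.snd hx⟩
    · rw [Measure.prod_prod, lam_free g hg, mul_zero]
  · intro n
    cases hd : Encodable.decode₂ ι n with
    | none => simp [A', hd]
    | some i => simpa [A', hd] using hA i
  · refine Filter.Eventually.of_forall fun x g => ?_
    have h1 := ((hgen x g).1 (hS g x.1)).reflTransGen
    refine Relation.ReflTransGen.mono ?_ _ _ h1
    rintro y z ⟨i, hi⟩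
    refine ⟨Encodable.encode i, ?_⟩
    rw [hs', hA']
    exact hi

end Pool.Agent.Lib.MP_90732c_al.Ab
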