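import Pool.Agent.Lib.MP_90732c_al.Ab.Defs

/-! HAL: sets of small boundary when the Tarski number is large. -/

set_option autoImplicit false

open scoped Pointwise

namespace Pool.Agent.Lib.MP_90732c_al.Ab

variable {G : Type} [Group G]

namespace Hal

open Classical in
/-- Doubling sets give paradoxical decompositions. -/
theorem tarskiLe_of_double (U : Finset G) (hU : U.Nonempty)
    (h : ∀ A : Finset G, 2 * A.card ≤ (A * U).card) : TarskiLe G (2 * U.card) := by
  let O : G × Bool → Finset G := fun p => {p.1} * U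
  obtain ⟨F, hFinj, hF⟩ := (Finset.all_card_le_biUnion_card_iff_exists_injective O).1 (by
    intro Q
    set X := Q.image Prod.fst with hX
    have hQX : Q.card ≤ 2 * X.card := by
      have h5 : Q ⊆ X ×ˢ (Finset.univ : Finset Bool) := by
        intro p hp
        exact Finset.mem_product.2 ⟨Finset.mem_image_of_mem _ hp, Finset.mem_univ _⟩
      have h7 := Finset.card_le_card h5
      rw [Finset.card_product, Finset.card_univ, Fintype.card_bool] at h7
      omega
    have hXU : X * U ⊆ Q.biUnion O := by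
      intro y hy
      obtain ⟨a, ha, u, hu, rfl⟩ := Finset.mem_mul.1 hy
      obtain ⟨p, hp, rfl⟩ := Finset.mem_image.1 ha
      rw [Finset.mem_biUnion]
      exact ⟨p, hp, Finset.mul_mem_mul (Finset.mem_singleton_self _) hu⟩
    exact hQX.trans ((h X).trans (Finset.card_le_card hXU)))
  have h1 := tarskiLe_of_injective (fun _ => U) hU F hFinj (by
    intro x c
    have h2 := hF (x, c)
    simp only [O] at h2
    obtain ⟨a, ha, u, hu, h3⟩ := Finset.mem_mul.1 h2
    rw [Finset.mem_singleton] at ha
    rw [← h3, ha, inv_mul_cancel_left]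
    exact hu)
  have h2 : TarskiLe G (U.card + U.card) := h1
  exact h2.mono (by omega)

open Classical in
/-- The set `{1} ∪ {t i}`. -/
noncomputable def UU {m : ℕ} (t : Fin m → G) : Finset G := insert 1 (Finset.univ.image t)

open Classical in
lemma card_UU_le {m : ℕ} (t : Fin m → G) : (UU t).card ≤ m + 1 := by
  unfold UU
  refine (Finset.card_insert_le _ _).trans ?_
  have h := Finset.card_image_le (s := (Finset.univ : Finset (Fin m))) (f := t)
  rw [Finset.card_univ, Fintype.card_fin] at h
  omega

open Classical in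
lemma one_mem_UU {m : ℕ} (t : Fin m → G) : (1 : G) ∈ UU t := Finset.mem_insert_self _ _

open Classical in
lemma mem_UU {m : ℕ} (t : Fin m → G) (i : Fin m) : t i ∈ UU t :=
  Finset.mem_insert_of_mem (Finset.mem_image_of_mem t (Finset.mem_univ i))

open Classical in
lemma bd_card_le {m : ℕ} (t : Fin m → G) (F : Finset G) :
    (bd t F).card + m * F.card ≤ m * (UU t * F).card := by
  have hsub : F ⊆ UU t * F := by
    intro h hh
    have := Finset.mul_mem_mul (one_mem_UU t) hh
    rwa [one_mul] at this
  have h1 : (bd t F).card ≤ ((Finset.univ : Finset (Fin m)) ×ˢ ((UU t * F) \ F)).card := by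
    refine Finset.card_le_card_of_injOn (fun p => (p.1, t p.1 * p.2)) ?_ ?_
    · intro p hp
      rw [Finset.mem_coe] at hp
      unfold bd at hp
      rw [Finset.mem_filter, Finset.mem_product] at hp
      rw [Finset.mem_coe, Finset.mem_product, Finset.mem_sdiff]
      exact ⟨Finset.mem_univ _, Finset.mul_mem_mul (mem_UU t p.1) hp.1.2, hp.2⟩
    · intro p _ q _ hpq
      simp only [Prod.mk.injEq] at hpq
      obtain ⟨h1, h2⟩ := hpq
      rw [h1] at h2
      exact Prod.ext h1 (mul_left_cancel h2)
  rw [Finset.card_product, Finset.card_univ, Fintype.card_fin] at h1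
  have h2 := Finset.card_sdiff_add_card_eq_card hsub
  calc (bd t F).card + m * F.card ≤ m * ((UU t * F) \ F).card + m * F.card :=
        Nat.add_le_add_right h1 _
    _ = m * (((UU t * F) \ F).card + F.card) := by ring
    _ = m * (UU t * F).card := by rw [h2]

open Classical in
lemma pow_expand {m : ℕ} (hm : m ≤ 3) (t : Fin m → G)
    (hc : ∀ F : Finset G, F.Nonempty → F.card < 2000 * (bd t F).card) (k : ℕ) :
    ∀ F : Finset G, F.Nonempty →
      (1 + 1 / 6000 : ℝ) ^ k * F.card ≤ ((UU t ^ k * F).card : ℝ) := by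
  induction k with
  | zero => intro F hF; simp
  | succ k ih =>
    intro F hF
    have hUF : (UU t * F).Nonempty := Finset.Nonempty.mul ⟨1, one_mem_UU t⟩ hF
    have h1 := ih (UU t * F) hUF
    have e : UU t ^ (k + 1) * F = UU t ^ k * (UU t * F) := by rw [pow_succ, mul_assoc]
    rw [e]
    refine le_trans ?_ h1
    have h2 := hc F hF
    have h3 := bd_card_le t F
    have hsub : F.card ≤ (UU t * F).card := by
      apply Finset.card_le_card
      intro h hh
      have := Finset.mul_mem_mul (one_mem_UU t) hh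
      rwa [one_mul] at this
    have h4 : (bd t F).card + 3 * F.card ≤ 3 * (UU t * F).card := by
      have h5 : m * ((UU t * F).card - F.card) ≤ 3 * ((UU t * F).card - F.card) :=
        Nat.mul_le_mul_right _ hm
      rw [Nat.mul_sub, Nat.mul_sub] at h5
      have h6 : m * F.card ≤ m * (UU t * F).card := Nat.mul_le_mul_left _ hsub
      omega
    have h5 : (6001 : ℝ) * F.card ≤ 6000 * (UU t * F).card := by
      have : 6001 * F.card ≤ 6000 * (UU t * F).card := by omega
      exact_mod_cast this
    have h6 : (1 + 1 / 6000 : ℝ) * F.card ≤ (UU t * F).card := by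
      have : (1 + 1 / 6000 : ℝ) = 6001 / 6000 := by norm_num
      rw [this, div_mul_eq_mul_div, div_le_iff₀ (by norm_num)]
      linarith
    calc (1 + 1 / 6000 : ℝ) ^ (k + 1) * F.card
        = (1 + 1 / 6000 : ℝ) ^ k * ((1 + 1 / 6000 : ℝ) * F.card) := by rw [pow_succ]; ring
      _ ≤ (1 + 1 / 6000 : ℝ) ^ k * (UU t * F).card :=
          mul_le_mul_of_nonneg_left h6 (pow_nonneg (by norm_num) _)

end Hal

open Classical in
theorem exists_small_bd (hT : ¬ TarskiLe G (2 * 4 ^ 6000)) {m : ℕ} (hm : m ≤ 3)
    (t : Fin m → G) : ∃ F : Finset G, F.Nonempty ∧ 2000 * (bd t F).card ≤ F.card := by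
  by_contra hcon
  push Not at hcon
  obtain ⟨n, hn⟩ : ∃ n : ℕ, n = 6000 := ⟨6000, rfl⟩
  rw [← hn] at hT
  apply hT
  have hexp := Hal.pow_expand hm t hcon n
  have h2 : (2 : ℝ) ≤ (1 + 1 / 6000 : ℝ) ^ n := by
    have h := one_add_mul_le_pow (show (-2 : ℝ) ≤ 1 / 6000 by norm_num) n
    have h3 : (1 : ℝ) + (n : ℝ) * (1 / 6000) = 2 := by rw [hn]; norm_num
    rw [h3] at h
    exact h
  set V : Finset G := (Hal.UU t ^ n)⁻¹ with hV
  have hUn : (Hal.UU t ^ n).Nonempty := Finset.Nonempty.pow ⟨1, Hal.one_mem_UU t⟩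
  have hVne : V.Nonempty := hUn.inv
  have hdbl : ∀ A : Finset G, 2 * A.card ≤ (A * V).card := by
    intro A
    rcases A.eq_empty_or_nonempty with hA | hA
    · rw [hA]; simp
    · have e : A * V = (Hal.UU t ^ n * A⁻¹)⁻¹ := by rw [hV, mul_inv_rev, inv_inv]
      rw [e, Finset.card_inv]
      have h3 := hexp A⁻¹ hA.inv
      rw [Finset.card_inv] at h3
      have h4 : (2 : ℝ) * A.card ≤ ((Hal.UU t ^ n * A⁻¹).card : ℝ) :=
        le_trans (mul_le_mul_of_nonneg_right h2 (Nat.cast_nonneg _)) h3
      exact_mod_cast h4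
  refine (Hal.tarskiLe_of_double V hVne hdbl).mono ?_
  apply Nat.mul_le_mul_left
  rw [hV, Finset.card_inv]
  refine Finset.card_pow_le.trans ?_
  exact Nat.pow_le_pow_left ((Hal.card_UU_le t).trans (by omega)) n

end Pool.Agent.Lib.MP_90732c_al.Ab
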