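import Pool.Agent.Lib.MP_90732c_al.Ab.Defs
import Pool.Agent.Lib.MP_90732c_al.Uniform

/-! An absolute bound for the Tarski numbers: local freeness (module LOC). -/

set_option autoImplicit false

open MeasureTheory
open scoped ENNReal Pointwise

namespace Pool.Agent.Lib.MP_90732c_al.Ab

variable {G : Type} [Group G]

theorem exists_expand (hfg : Group.FG G) (hexp : ¬ ∃ n : ℕ, 0 < n ∧ ∀ g : G, g ^ n = 1)
    {c : ℝ} (hc1 : 1 < c) (hc : CostGe G (ENNReal.ofReal c)) (f : ℕ) :
    ∃ t : Fin 2 → G, Expand t f := by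
  classical
  have : Countable G := countable_of_fg hfg
  obtain ⟨T, hT⟩ := Group.fg_def.1 hfg
  obtain ⟨cf, hcf⟩ := exists_tau hc hc1 T hT
  obtain ⟨N₀, hN₀⟩ := exists_four (G := G) cf (2 * f)
  obtain ⟨g, hg⟩ := exists_order hexp N₀
  obtain ⟨τ, _, hτ⟩ := hcf g
  obtain ⟨ψ, _, hψ⟩ := hN₀ g τ hg hτ
  let ι : Fin 2 → Fin 4 := Fin.castLE (by norm_num)
  have hι : Function.Injective ι := Fin.castLE_injective _
  refine ⟨fun i => (ψ (FreeGroup.of (ι i)))⁻¹, fun W hW hWf => ?_⟩
  set t : Fin 2 → G := fun i => (ψ (FreeGroup.of (ι i)))⁻¹ with ht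
  set I : Finset (Fin 2 × G) := (Finset.univ ×ˢ W).filter fun p => t p.1 * p.2 ∈ W with hI
  have hsum : I.card + (bd t W).card = 2 * W.card := by
    have h := Finset.card_filter_add_card_filter_not (s := Finset.univ ×ˢ W)
      (fun p : Fin 2 × G => t p.1 * p.2 ∈ W)
    rw [Finset.card_product, Finset.card_univ, Fintype.card_fin] at h
    exact h
  have hIW : I.card ≤ W.card := by
    set E : Finset (G × Fin 4) := I.image fun p => (p.2⁻¹, ι p.1) with hE
    have h1 : E.card = I.card := by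
      refine Finset.card_image_of_injective _ ?_
      rintro ⟨i, w⟩ ⟨i', w'⟩ h
      simp only [Prod.mk.injEq, inv_inj] at h
      obtain ⟨h2, h3⟩ := h
      rw [h2, hι h3]
    have h2 : E.card ≤ 2 * f := by
      rw [h1]
      omega
    have h3 := Tree.card_le ψ hψ E h2
    have h4 : Tree.VE ψ E ⊆ W.image fun w => w⁻¹ := by
      intro x hx
      unfold Tree.VE at hx
      rw [Finset.mem_union, Finset.mem_image, Finset.mem_image] at hx
      rw [Finset.mem_image]
      rcases hx with ⟨e, he, rfl⟩ | ⟨e, he, rfl⟩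
      · rw [hE, Finset.mem_image] at he
        obtain ⟨p, hp, rfl⟩ := he
        rw [hI, Finset.mem_filter, Finset.mem_product] at hp
        exact ⟨p.2, hp.1.2, rfl⟩
      · rw [hE, Finset.mem_image] at he
        obtain ⟨p, hp, rfl⟩ := he
        rw [hI, Finset.mem_filter] at hp
        refine ⟨t p.1 * p.2, hp.2, ?_⟩
        simp only [ht, mul_inv_rev, inv_inv]
    have h5 := (h3.trans (Finset.card_le_card h4)).trans Finset.card_image_le
    rwa [h1] at h5
  omega

end Pool.Agent.Lib.MP_90732c_al.Ab
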