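import Pool.Agent.Lib.MP_90732c_al.Ab.GEN

/-! Contraction of a graphing onto a set, and reattachment of the other points. -/

set_option autoImplicit false

open MeasureTheory
open scoped ENNReal Pointwise

namespace Pool.Agent.Lib.MP_90732c_al.Ab

variable {G : Type} [Group G] {Y : Type} [MulAction G Y]

/-- A measurable choice of a label. -/
lemma exists_label {Λ : Type} [Countable Λ] [Nonempty Λ] [MeasurableSpace Y] (C : Λ → Set Y)
    (hC : ∀ l, MeasurableSet (C l)) : ∃ c : Y → Λ, (∀ l, MeasurableSet {y | c y = l}) ∧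
      ∀ y, (∃ l, y ∈ C l) → y ∈ C (c y) := by
  classical
  obtain ⟨e, he⟩ := exists_surjective_nat Λ
  have hex : ∀ y, (∃ l, y ∈ C l) → ∃ n, y ∈ C (e n) := by
    rintro y ⟨l, hl⟩
    obtain ⟨n, rfl⟩ := he l
    exact ⟨n, hl⟩
  let k : Y → ℕ := fun y => if h : ∃ n, y ∈ C (e n) then Nat.find h else 0
  have hk : ∀ n, MeasurableSet {y | k y = n} := by
    intro n
    have h1 : {y | k y = n} = ((C (e n)) ∩ ⋂ j ∈ Set.Iio n, (C (e j))ᶜ) ∪
        (if n = 0 then (⋂ j, (C (e j))ᶜ) else ∅) := by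
      ext y
      by_cases h : ∃ n, y ∈ C (e n)
      · have hky : k y = Nat.find h := dif_pos h
        have hnot : y ∉ (⋂ j, (C (e j))ᶜ) := by
          obtain ⟨j, hj⟩ := h
          intro h2
          exact Set.mem_iInter.1 h2 j hj
        have h3 : y ∉ (if n = 0 then (⋂ j, (C (e j))ᶜ) else ∅) := by
          split_ifs
          · exact hnot
          · simp
        simp only [Set.mem_ofPred_eq, Set.mem_union, h3, or_false, hky, Set.mem_inter_iff,
          Set.mem_iInter, Set.mem_Iio, Set.mem_compl_iff]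
        rw [Nat.find_eq_iff]
      · have hky : k y = 0 := dif_neg h
        push Not at h
        simp only [Set.mem_ofPred_eq, Set.mem_union, hky, Set.mem_inter_iff, h n, false_and,
          false_or]
        by_cases hn : n = 0
        · simp [hn, h]
        · simp only [hn, if_false, Set.mem_empty_iff_false, iff_false]
          exact fun h4 => hn h4.symm
    rw [h1]
    refine MeasurableSet.union ((hC _).inter (MeasurableSet.biInter (Set.to_countable _)
      fun j _ => (hC _).compl)) ?_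
    split_ifs
    · exact MeasurableSet.iInter fun j => (hC _).compl
    · exact MeasurableSet.empty
  refine ⟨fun y => e (k y), ?_, ?_⟩
  · intro l
    have h1 : {y | e (k y) = l} = ⋃ n ∈ {n | e n = l}, {y | k y = n} := by
      ext y
      simp
    rw [h1]
    exact MeasurableSet.biUnion (Set.to_countable _) fun n _ => hk n
  · intro y hy
    have h := hex y hy
    have hky : k y = Nat.find h := dif_pos h
    change y ∈ C (e (k y))
    rw [hky]
    exact Nat.find_spec h

section Contraction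

variable {ι : Type}

/-- The group element of a directed edge. -/
def st (s : ι → G) (l : ι × Bool) : G := cond l.2 (s l.1) (s l.1)⁻¹

/-- The starting points of the directed edges. -/
def El (s : ι → G) (A : ι → Set Y) (l : ι × Bool) : Set Y :=
  cond l.2 (A l.1) {y | (s l.1)⁻¹ • y ∈ A l.1}

/-- The reversed label. -/
def rv (l : ι × Bool) : ι × Bool := (l.1, !l.2)

lemma st_rv (s : ι → G) (l : ι × Bool) : st s (rv l) = (st s l)⁻¹ := by
  obtain ⟨i, b⟩ := l
  cases b <;> simp [st, rv]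

lemma mem_El_rv (s : ι → G) (A : ι → Set Y) (l : ι × Bool) (y : Y) :
    st s l • y ∈ El s A (rv l) ↔ y ∈ El s A l := by
  obtain ⟨i, b⟩ := l
  cases b <;> simp [st, rv, El]

lemma measurableSet_El [MeasurableSpace Y] (s : ι → G) (A : ι → Set Y)
    (hA : ∀ i, MeasurableSet (A i)) (hG : ∀ g : G, Measurable fun y : Y => g • y)
    (l : ι × Bool) : MeasurableSet (El s A l) := by
  obtain ⟨i, b⟩ := l
  cases b
  · exact hG _ (hA i)
  · exact hA i

/-- The points at distance at most `m` from `B`. -/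
def Nb (s : ι → G) (A : ι → Set Y) (B : Set Y) : ℕ → Set Y
  | 0 => B
  | m + 1 => Nb s A B m ∪ {y | ∃ l, y ∈ El s A l ∧ st s l • y ∈ Nb s A B m}

lemma measurableSet_Nb [MeasurableSpace Y] [Countable ι] (s : ι → G) (A : ι → Set Y) (B : Set Y)
    (hA : ∀ i, MeasurableSet (A i)) (hB : MeasurableSet B)
    (hG : ∀ g : G, Measurable fun y : Y => g • y) (m : ℕ) : MeasurableSet (Nb s A B m) := by
  induction m with
  | zero => exact hB
  | succ m ih =>
    have h1 : {y | ∃ l, y ∈ El s A l ∧ st s l • y ∈ Nb s A B m} =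
        ⋃ l, (El s A l ∩ (fun y => st s l • y) ⁻¹' Nb s A B m) := by
      ext y
      simp
    refine ih.union ?_
    rw [h1]
    exact MeasurableSet.iUnion fun l => (measurableSet_El s A hA hG l).inter (hG _ ih)

/-- **The spanning forest towards `B`.** -/
lemma exists_forest [MeasurableSpace Y] [Countable ι] [Countable G] [Nonempty ι] (s : ι → G)
    (A : ι → Set Y) (B : Set Y) (hA : ∀ i, MeasurableSet (A i)) (hB : MeasurableSet B)
    (hG : ∀ g : G, Measurable fun y : Y => g • y) :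
    ∃ (V : Set Y) (lev : Y → ℕ) (c : Y → ι × Bool) (γ : Y → G), MeasurableSet V ∧ B ⊆ V ∧
      (∀ l, ∀ y ∈ El s A l, (y ∈ V ↔ st s l • y ∈ V)) ∧
      (∀ l, MeasurableSet {y | y ∈ V ∧ y ∉ B ∧ c y = l}) ∧
      (∀ g, MeasurableSet {y | y ∈ V ∧ γ y = g}) ∧ (∀ y ∈ B, γ y = 1) ∧
      (∀ y ∈ V, y ∉ B → y ∈ El s A (c y) ∧ lev (st s (c y) • y) < lev y ∧
        γ y = γ (st s (c y) • y) * st s (c y)) ∧
      ∀ y ∈ V, γ y • y ∈ B := by
  classical
  set N := Nb s A B with hN
  have hNm : ∀ m, MeasurableSet (N m) := measurableSet_Nb s A B hA hB hG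
  have hmono1 : ∀ m, N m ⊆ N (m + 1) := fun m => Set.subset_union_left
  have hmono : ∀ m m', m ≤ m' → N m ⊆ N m' := fun m m' h =>
    monotone_nat_of_le_succ (f := N) hmono1 h
  have hstep : ∀ m l y, y ∈ El s A l → st s l • y ∈ N m → y ∈ N (m + 1) :=
    fun m l y h1 h2 => Or.inr ⟨l, h1, h2⟩
  -- the choice of labels
  have hlab := fun m => exists_label (fun l => El s A l ∩ (fun y => st s l • y) ⁻¹' N m)
    (fun l => (measurableSet_El s A hA hG l).inter (hG _ (hNm m)))
  choose cm hcm1 hcm2 using hlab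
  have hcm : ∀ m y, y ∈ N (m + 1) → y ∉ N m → y ∈ El s A (cm m y) ∧
      st s (cm m y) • y ∈ N m := by
    intro m y h1 h2
    rcases h1 with h1 | ⟨l, h1, h3⟩
    · exact absurd h1 h2
    · exact hcm2 m y ⟨l, h1, h3⟩
  -- the roots
  let γm : ℕ → Y → G := fun m => Nat.rec (fun _ => 1) (fun m γ y =>
    if y ∈ N m then γ y else γ (st s (cm m y) • y) * st s (cm m y)) m
  have hγ0 : ∀ y, γm 0 y = 1 := fun y => rfl
  have hγs : ∀ m y, γm (m + 1) y = if y ∈ N m then γm m y else
      γm m (st s (cm m y) • y) * st s (cm m y) := fun m y => rfl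
  have hγstab : ∀ m k y, y ∈ N m → γm (m + k) y = γm m y := by
    intro m k y hy
    induction k with
    | zero => rfl
    | succ k ih =>
      rw [← add_assoc, hγs, if_pos (hmono m (m + k) (by omega) hy), ih]
  have hγmeas : ∀ m g, MeasurableSet {y | γm m y = g} := by
    intro m
    induction m with
    | zero =>
      intro g
      simp only [hγ0]
      exact MeasurableSet.const _
    | succ m ih =>
      intro g
      have h1 : {y | γm (m + 1) y = g} = (N m ∩ {y | γm m y = g}) ∪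
          ((N m)ᶜ ∩ ⋃ l, ({y | cm m y = l} ∩
            (fun y => st s l • y) ⁻¹' {y | γm m y = g * (st s l)⁻¹})) := by
        ext y
        simp only [Set.mem_ofPred_eq, hγs, Set.mem_union, Set.mem_inter_iff, Set.mem_compl_iff,
          Set.mem_iUnion, Set.mem_preimage]
        by_cases hy : y ∈ N m
        · simp [hy]
        · simp only [hy, if_false, false_and, not_false_eq_true, true_and, false_or]
          constructor
          · intro h
            exact ⟨cm m y, rfl, by rw [← h, mul_inv_cancel_right]⟩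
          · rintro ⟨l, rfl, h⟩
            rw [h, inv_mul_cancel_right]
      rw [h1]
      exact ((hNm m).inter (ih g)).union ((hNm m).compl.inter (MeasurableSet.iUnion fun l =>
        (hcm1 m l).inter (hG _ (ih _))))
  have hroot : ∀ m y, y ∈ N m → γm m y • y ∈ B := by
    intro m
    induction m with
    | zero =>
      intro y hy
      rw [hγ0, one_smul]
      exact hy
    | succ m ih =>
      intro y hy
      rw [hγs]
      by_cases h : y ∈ N m
      · rw [if_pos h]
        exact ih y h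
      · rw [if_neg h, mul_smul]
        exact ih _ (hcm m y hy h).2
  -- the level
  let lev : Y → ℕ := fun y => if h : ∃ m, y ∈ N m then Nat.find h else 0
  have hlev : ∀ y, (∃ m, y ∈ N m) → y ∈ N (lev y) ∧ ∀ m, y ∈ N m → lev y ≤ m := by
    intro y h
    have h1 : lev y = Nat.find h := dif_pos h
    rw [h1]
    exact ⟨Nat.find_spec h, fun m hm => Nat.find_min' h hm⟩
  have hγeq : ∀ m y, y ∈ N m → γm (lev y) y = γm m y := by
    intro m y hy
    obtain ⟨h1, h2⟩ := hlev y ⟨m, hy⟩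
    obtain ⟨k, hk⟩ := Nat.exists_eq_add_of_le (h2 m hy)
    rw [hk]
    exact (hγstab (lev y) k y h1).symm
  have hpos : ∀ y, (∃ m, y ∈ N m) → y ∉ B → ∃ m, lev y = m + 1 ∧ y ∈ N (m + 1) ∧ y ∉ N m := by
    intro y hy hyB
    obtain ⟨h1, h2⟩ := hlev y hy
    have h3 : lev y ≠ 0 := by
      intro h
      rw [h] at h1
      exact hyB h1
    obtain ⟨m, hm⟩ := Nat.exists_eq_succ_of_ne_zero h3
    have hm' : lev y = m + 1 := hm
    refine ⟨m, hm', by rw [← hm']; exact h1, fun h4 => ?_⟩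
    have := h2 m h4
    omega
  have hlevset : ∀ m, MeasurableSet {y | (∃ m, y ∈ N m) ∧ lev y = m} := by
    intro m
    have h1 : {y | (∃ m, y ∈ N m) ∧ lev y = m} = N m ∩ ⋂ j ∈ Set.Iio m, (N j)ᶜ := by
      ext y
      simp only [Set.mem_ofPred_eq, Set.mem_inter_iff, Set.mem_iInter, Set.mem_Iio,
        Set.mem_compl_iff]
      constructor
      · rintro ⟨h, rfl⟩
        obtain ⟨h1, h2⟩ := hlev y h
        exact ⟨h1, fun j hj hyj => absurd (h2 j hyj) (by omega)⟩
      · rintro ⟨h1, h2⟩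
        refine ⟨⟨m, h1⟩, ?_⟩
        obtain ⟨h3, h4⟩ := hlev y ⟨m, h1⟩
        by_contra hne
        exact h2 _ (lt_of_le_of_ne (h4 m h1) hne) h3
    rw [h1]
    exact (hNm m).inter (MeasurableSet.biInter (Set.to_countable _) fun j _ => (hNm j).compl)
  refine ⟨⋃ m, N m, lev, fun y => cm (lev y - 1) y, fun y => γm (lev y) y,
    MeasurableSet.iUnion hNm, fun y hy => Set.mem_iUnion.2 ⟨0, hy⟩, ?_, ?_, ?_, ?_, ?_, ?_⟩
  · intro l y hy
    constructor
    · intro h
      obtain ⟨m, hm⟩ := Set.mem_iUnion.1 h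
      refine Set.mem_iUnion.2 ⟨m + 1, hstep m (rv l) _ ((mem_El_rv s A l y).2 hy) ?_⟩
      rw [st_rv, inv_smul_smul]
      exact hm
    · intro h
      obtain ⟨m, hm⟩ := Set.mem_iUnion.1 h
      exact Set.mem_iUnion.2 ⟨m + 1, hstep m l y hy hm⟩
  · intro l
    have h1 : {y | y ∈ (⋃ m, N m) ∧ y ∉ B ∧ cm (lev y - 1) y = l} =
        ⋃ m, ({y | (∃ m, y ∈ N m) ∧ lev y = m} ∩ Bᶜ ∩ {y | cm (m - 1) y = l}) := by
      ext y
      simp only [Set.mem_ofPred_eq, Set.mem_iUnion, Set.mem_inter_iff, Set.mem_compl_iff]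
      constructor
      · rintro ⟨h2, h3, h4⟩
        exact ⟨lev y, ⟨⟨h2, rfl⟩, h3⟩, h4⟩
      · rintro ⟨m, ⟨⟨h2, rfl⟩, h3⟩, h4⟩
        exact ⟨h2, h3, h4⟩
    rw [h1]
    exact MeasurableSet.iUnion fun m => ((hlevset m).inter hB.compl).inter (hcm1 _ _)
  · intro g
    have h1 : {y | y ∈ (⋃ m, N m) ∧ γm (lev y) y = g} =
        ⋃ m, ({y | (∃ m, y ∈ N m) ∧ lev y = m} ∩ {y | γm m y = g}) := by
      ext y
      simp only [Set.mem_ofPred_eq, Set.mem_iUnion, Set.mem_inter_iff]
      constructor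
      · rintro ⟨h2, h4⟩
        exact ⟨lev y, ⟨h2, rfl⟩, h4⟩
      · rintro ⟨m, ⟨h2, rfl⟩, h4⟩
        exact ⟨h2, h4⟩
    rw [h1]
    exact MeasurableSet.iUnion fun m => (hlevset m).inter (hγmeas _ _)
  · intro y hy
    have h1 : γm (lev y) y = γm 0 y := hγeq 0 y hy
    exact h1.trans (hγ0 y)
  · intro y hy hyB
    obtain ⟨m, h1, h2, h3⟩ := hpos y (Set.mem_iUnion.1 hy) hyB
    obtain ⟨h4, h5⟩ := hcm m y h2 h3
    have h6 : lev y - 1 = m := by omega
    simp only [h6]
    refine ⟨h4, ?_, ?_⟩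
    · have := (hlev _ ⟨m, h5⟩).2 m h5
      omega
    · rw [h1, hγs, if_neg h3, ← hγeq m _ h5]
  · intro y hy
    obtain ⟨m, hm⟩ := Set.mem_iUnion.1 hy
    change γm (lev y) y • y ∈ B
    rw [hγeq m y hm]
    exact hroot m y hm

/-- The used edges. -/
def Used (V B : Set Y) (c : Y → ι × Bool) (s : ι → G) (i : ι) : Set Y :=
  {y | (y ∈ V ∧ y ∉ B ∧ c y = (i, true)) ∨ (s i • y ∈ V ∧ s i • y ∉ B ∧ c (s i • y) = (i, false))}

/-- The elements of the new graphing. -/
def ns (s : ι → G) : (ι × G × G) ⊕ G → G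
  | Sum.inl (i, p, q) => q * s i * p⁻¹
  | Sum.inr g => g

/-- The domains of the new graphing. -/
def nA (V B : Set Y) (c : Y → ι × Bool) (s : ι → G) (A : ι → Set Y) (γ a : Y → G) :
    (ι × G × G) ⊕ G → Set Y
  | Sum.inl (i, p, q) => {x | p⁻¹ • x ∈ A i ∧ p⁻¹ • x ∉ Used V B c s i ∧ p⁻¹ • x ∈ V ∧
      γ (p⁻¹ • x) = p ∧ γ (s i • p⁻¹ • x) = q}
  | Sum.inr g => {y | y ∉ B ∧ a y = g}

section Conn

variable {V B : Set Y} {lev : Y → ℕ} {c : Y → ι × Bool} {γ a : Y → G} {s : ι → G} {A : ι → Set Y}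

lemma used_sub (hpar : ∀ y ∈ V, y ∉ B → y ∈ El s A (c y) ∧ lev (st s (c y) • y) < lev y ∧
      γ y = γ (st s (c y) • y) * st s (c y)) (i : ι) : Used V B c s i ⊆ A i := by
  rintro y (⟨h1, h2, h3⟩ | ⟨h1, h2, h3⟩)
  · have := (hpar y h1 h2).1
    rw [h3] at this
    exact this
  · have := (hpar _ h1 h2).1
    rw [h3] at this
    have h4 : (s i)⁻¹ • s i • y ∈ A i := this
    rwa [inv_smul_smul] at h4

/-- One edge in the new graphing. -/
lemma new_edge (hpar : ∀ y ∈ V, y ∉ B → y ∈ El s A (c y) ∧ lev (st s (c y) • y) < lev y ∧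
      γ y = γ (st s (c y) • y) * st s (c y)) (i : ι) (z : Y) (hz : z ∈ A i) (hzV : z ∈ V) :
    Gen (ns s) (nA V B c s A γ a) (γ z • z) (γ (s i • z) * s i * (γ z)⁻¹) := by
  by_cases hU : z ∈ Used V B c s i
  · have h1 : γ (s i • z) * s i * (γ z)⁻¹ = 1 := by
      rcases hU with ⟨h1, h2, h3⟩ | ⟨h1, h2, h3⟩
      · have := (hpar z h1 h2).2.2
        rw [h3] at this
        have h4 : γ z = γ (s i • z) * s i := this
        rw [← h4, mul_inv_cancel]
      · have := (hpar _ h1 h2).2.2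
        rw [h3] at this
        have h4 : γ (s i • z) = γ ((s i)⁻¹ • s i • z) * (s i)⁻¹ := this
        rw [inv_smul_smul] at h4
        rw [h4, inv_mul_cancel_right, mul_inv_cancel]
    rw [h1]
    exact Gen.one _
  · have h1 : Gen (ns s) (nA V B c s A γ a) (γ z • z)
        (ns s (Sum.inl (i, γ z, γ (s i • z))) * 1) := by
      refine Gen.fwd _ 1 (Sum.inl (i, γ z, γ (s i • z))) (Gen.one _) ?_
      rw [one_smul]
      change (γ z)⁻¹ • γ z • z ∈ A i ∧ (γ z)⁻¹ • γ z • z ∉ Used V B c s i ∧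
        (γ z)⁻¹ • γ z • z ∈ V ∧ γ ((γ z)⁻¹ • γ z • z) = γ z ∧
        γ (s i • (γ z)⁻¹ • γ z • z) = γ (s i • z)
      rw [inv_smul_smul]
      exact ⟨hz, hU, hzV, rfl, rfl⟩
    rwa [mul_one] at h1

lemma new_conn (hinv : ∀ l, ∀ y ∈ El s A l, (y ∈ V ↔ st s l • y ∈ V))
    (hpar : ∀ y ∈ V, y ∉ B → y ∈ El s A (c y) ∧ lev (st s (c y) • y) < lev y ∧
      γ y = γ (st s (c y) • y) * st s (c y)) (y : Y) (g : G) (hg : Gen s A y g) (hy : y ∈ V) :
    g • y ∈ V ∧ Gen (ns s) (nA V B c s A γ a) (γ y • y) (γ (g • y) * g * (γ y)⁻¹) := by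
  induction hg with
  | one => exact ⟨by rwa [one_smul], by rw [one_smul, mul_one, mul_inv_cancel]; exact Gen.one _⟩
  | fwd g i _ hmem ih =>
    obtain ⟨h1, h2⟩ := ih
    have h3 : s i • g • y ∈ V := (hinv (i, true) (g • y) hmem).1 h1
    refine ⟨by rwa [mul_smul], ?_⟩
    have h4 := new_edge (a := a) hpar i (g • y) hmem h1
    have h5 : (γ (g • y) * g * (γ y)⁻¹) • γ y • y = γ (g • y) • g • y := by
      rw [mul_smul, inv_smul_smul, mul_smul]
    have h6 := (Gen.isRel _ _).mul _ _ _ h2 (by rw [h5]; exact h4)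
    have h7 : γ (s i • g • y) * s i * (γ (g • y))⁻¹ * (γ (g • y) * g * (γ y)⁻¹) =
        γ ((s i * g) • y) * (s i * g) * (γ y)⁻¹ := by
      rw [mul_smul]
      group
    rwa [h7] at h6
  | bwd g i _ hmem ih =>
    obtain ⟨h1, h2⟩ := ih
    have h8 : s i • (s i)⁻¹ • g • y = g • y := smul_inv_smul _ _
    have h3 : (s i)⁻¹ • g • y ∈ V := by
      refine (hinv (i, true) _ hmem).2 ?_
      change s i • (s i)⁻¹ • g • y ∈ V
      rw [h8]
      exact h1
    refine ⟨by rwa [mul_smul], ?_⟩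
    have h4 := (Gen.isRel _ _).inv _ _ (new_edge (a := a) hpar i ((s i)⁻¹ • g • y) hmem h3)
    rw [h8] at h4
    have h9 : (γ (g • y) * s i * (γ ((s i)⁻¹ • g • y))⁻¹) • γ ((s i)⁻¹ • g • y) •
        (s i)⁻¹ • g • y = γ (g • y) • g • y := by
      rw [mul_smul, inv_smul_smul, mul_smul, h8]
    rw [h9] at h4
    have h5 : (γ (g • y) * g * (γ y)⁻¹) • γ y • y = γ (g • y) • g • y := by
      rw [mul_smul, inv_smul_smul, mul_smul]
    have h6 := (Gen.isRel _ _).mul _ _ _ h2 (by rw [h5]; exact h4)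
    have h7 : (γ (g • y) * s i * (γ ((s i)⁻¹ • g • y))⁻¹)⁻¹ * (γ (g • y) * g * (γ y)⁻¹) =
        γ (((s i)⁻¹ * g) • y) * ((s i)⁻¹ * g) * (γ y)⁻¹ := by
      rw [mul_smul]
      group
    rwa [h7] at h6

end Conn

/-- Sum over a countable measurable partition given by a function. -/
lemma tsum_fiber {κ : Type} [Countable κ] [MeasurableSpace Y] (ν : Measure Y) (D : Set Y)
    (f : Y → κ) (hf : ∀ k, MeasurableSet {y | y ∈ D ∧ f y = k}) (φ : Y → ℝ≥0∞) :
    ∑' k, ∫⁻ y in {y | y ∈ D ∧ f y = k}, φ y ∂ν = ∫⁻ y in D, φ y ∂ν := by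
  rw [← lintegral_iUnion hf]
  · congr 2
    ext y
    simp
  · intro k k' hkk'
    rw [Function.onFun, Set.disjoint_left]
    rintro y ⟨_, h1⟩ ⟨_, h2⟩
    exact hkk' (h1.symm.trans h2)

theorem replace_aux [Countable G] [MeasurableSpace Y] {ν : Measure Y} [IsProbabilityMeasure ν]
    (hν : ∀ g : G, MeasurePreserving (fun y : Y => g • y) ν ν) {ρ : ℝ≥0∞}
    [Countable ι] [Nonempty ι] (s : ι → G) (A : ι → Set Y) (hA : ∀ i, MeasurableSet (A i))
    (hxi : ∀ φ : Y → ℝ≥0∞, Measurable φ → (∀ y, φ y ≤ 1) →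
      (∀ y g, Gen s A y g → φ (g • y) = φ y) →
      ∑' i, ∫⁻ y in A i, φ y ∂ν ≤ (∫⁻ y, φ y ∂ν) + ρ)
    (B : Set Y) (hB : MeasurableSet B) (a : Y → G)
    (ha : ∀ g, MeasurableSet {y | a y = g}) : ∃ S' : Y → G → Prop, Exc ν S' ρ ∧
      (∀ y ∈ B, ∀ g : G, g • y ∈ B → Gen s A y g → S' y g) ∧ ∀ y, y ∉ B → S' y (a y) := by
  classical
  have hG : ∀ g : G, Measurable fun y : Y => g • y := fun g => (hν g).measurable
  obtain ⟨V, lev, c, γ, hV, hBV, hinv, hcm, hγm, hγB, hpar, hroot⟩ :=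
    exists_forest s A B hA hB hG
  -- measurability
  have hγset : ∀ g, MeasurableSet {y | y ∈ V ∧ γ y = g} := hγm
  have hW : ∀ l, MeasurableSet {y | y ∈ V ∧ y ∉ B ∧ c y = l} := hcm
  have hUsed : ∀ i, MeasurableSet (Used V B c s i) := by
    intro i
    exact (hW (i, true)).union (hG (s i) (hW (i, false)))
  have hUsub : ∀ i, Used V B c s i ⊆ A i := used_sub hpar
  have hD : ∀ i p q, MeasurableSet {y | y ∈ (A i \ Used V B c s i) ∩ V ∧ (γ y, γ (s i • y)) = (p, q)} := by
    intro i p q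
    have h1 : {y | y ∈ (A i \ Used V B c s i) ∩ V ∧ (γ y, γ (s i • y)) = (p, q)} =
        (A i \ Used V B c s i) ∩ ({y | y ∈ V ∧ γ y = p} ∩
          (fun y => s i • y) ⁻¹' {y | y ∈ V ∧ γ y = q}) := by
      ext y
      simp only [Set.mem_ofPred_eq, Set.mem_inter_iff, Set.mem_sdiff, Prod.mk.injEq,
        Set.mem_preimage]
      constructor
      · rintro ⟨⟨⟨h1, h2⟩, h3⟩, h4, h5⟩
        exact ⟨⟨h1, h2⟩, ⟨h3, h4⟩, (hinv (i, true) y h1).1 h3, h5⟩
      · rintro ⟨⟨h1, h2⟩, ⟨h3, h4⟩, h5, h6⟩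
        exact ⟨⟨⟨h1, h2⟩, h3⟩, h4, h6⟩
    rw [h1]
    exact ((hA i).diff (hUsed i)).inter ((hγset p).inter (hG _ (hγset q)))
  have hnA : ∀ k, MeasurableSet (nA V B c s A γ a k) := by
    rintro (⟨i, p, q⟩ | g)
    · have h1 : nA V B c s A γ a (Sum.inl (i, p, q)) = (fun x => p⁻¹ • x) ⁻¹'
          {y | y ∈ (A i \ Used V B c s i) ∩ V ∧ (γ y, γ (s i • y)) = (p, q)} := by
        ext x
        simp only [nA, Set.mem_ofPred_eq, Set.mem_preimage, Set.mem_inter_iff, Set.mem_sdiff,
          Prod.mk.injEq, and_assoc]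
      rw [h1]
      exact hG _ (hD i p q)
    · exact hB.compl.inter (ha g)
  have hrel := Gen.isRel (ns s) (nA V B c s A γ a)
  refine ⟨Gen (ns s) (nA V B c s A γ a), ⟨_, inferInstance, ns s, nA V B c s A γ a, hnA,
    fun _ _ => Iff.rfl, ?_⟩, ?_, ?_⟩
  · intro φ hφ hφ1 hφinv
    -- the extension of `φ`
    let φ₀ : Y → ℝ≥0∞ := fun y => if y ∈ V then φ (γ y • y) else 0
    have hφ₀m : Measurable φ₀ := by
      have h1 : φ₀ = fun y => ∑' g : G, Set.indicator {y | y ∈ V ∧ γ y = g}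
          (fun y => φ (g • y)) y := by
        funext y
        by_cases hy : y ∈ V
        · rw [tsum_eq_single (γ y)]
          · simp only [φ₀, if_pos hy]
            rw [Set.indicator_of_mem (show y ∈ {z | z ∈ V ∧ γ z = γ y} from ⟨hy, rfl⟩)]
          · intro g hg
            rw [Set.indicator_of_notMem]
            rintro ⟨_, h2⟩
            exact hg h2.symm
        · simp only [φ₀, if_neg hy]
          symm
          rw [ENNReal.tsum_eq_zero]
          intro g
          rw [Set.indicator_of_notMem]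
          exact fun h2 => hy h2.1
      rw [h1]
      exact Measurable.ennreal_tsum fun g => (hφ.comp (hG g)).indicator (hγset g)
    have hφ₀1 : ∀ y, φ₀ y ≤ 1 := by
      intro y
      simp only [φ₀]
      split_ifs
      · exact hφ1 _
      · exact zero_le
    have hnotV : ∀ y g, Gen s A y g → y ∉ V → g • y ∉ V := by
      intro y g hg hy
      induction hg with
      | one => rwa [one_smul]
      | fwd g i _ hmem ih =>
        rw [mul_smul]
        exact fun h => ih ((hinv (i, true) _ hmem).2 h)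
      | bwd g i _ hmem ih =>
        rw [mul_smul]
        intro h
        have := (hinv (i, true) _ hmem).1 h
        apply ih
        have h2 : st s (i, true) • (s i)⁻¹ • g • y = g • y := smul_inv_smul _ _
        rwa [h2] at this
    have hφ₀inv : ∀ y g, Gen s A y g → φ₀ (g • y) = φ₀ y := by
      intro y g hg
      by_cases hy : y ∈ V
      · obtain ⟨h1, h2⟩ := new_conn (a := a) hinv hpar y g hg hy
        have h3 := hφinv _ _ h2
        simp only [φ₀, if_pos h1, if_pos hy]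
        rw [← h3]
        congr 1
        rw [mul_smul, inv_smul_smul, mul_smul]
      · simp only [φ₀, if_neg hy, if_neg (hnotV y g hg hy)]
    have hmain := hxi φ₀ hφ₀m hφ₀1 hφ₀inv
    -- on `B`
    have hφ₀B : ∀ y ∈ B, φ₀ y = φ y := by
      intro y hy
      simp only [φ₀, if_pos (hBV hy), hγB y hy, one_smul]
    set w : ℝ≥0∞ := ∫⁻ y in V \ B, φ₀ y ∂ν with hw
    have hwfin : w ≠ ⊤ := by
      refine ne_top_of_le_ne_top ENNReal.one_ne_top ?_
      calc w ≤ ∫⁻ y in V \ B, 1 ∂ν := lintegral_mono fun y => hφ₀1 y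
        _ = ν (V \ B) := by rw [setLIntegral_one]
        _ ≤ 1 := prob_le_one
    have hint : ∫⁻ y, φ₀ y ∂ν = (∫⁻ y in B, φ y ∂ν) + w := by
      have h1 : ∫⁻ y, φ₀ y ∂ν = ∫⁻ y in V, φ₀ y ∂ν := by
        rw [← lintegral_indicator hV]
        congr 1
        funext y
        by_cases hy : y ∈ V
        · rw [Set.indicator_of_mem hy]
        · rw [Set.indicator_of_notMem hy]
          simp only [φ₀, if_neg hy]
      have h2 : ∫⁻ y in V, φ₀ y ∂ν = (∫⁻ y in B, φ₀ y ∂ν) + ∫⁻ y in V \ B, φ₀ y ∂ν := by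
        rw [← lintegral_union (hV.diff hB) Set.disjoint_sdiff_right, Set.union_sdiff_cancel hBV]
      rw [h1, h2]
      congr 1
      exact setLIntegral_congr_fun hB fun y hy => hφ₀B y hy
    -- the used edges
    have hused : ∑' i, ∫⁻ y in Used V B c s i, φ₀ y ∂ν = w := by
      have h1 : ∀ i, ∫⁻ y in Used V B c s i, φ₀ y ∂ν =
          (∫⁻ y in {y | y ∈ V \ B ∧ c y = (i, true)}, φ₀ y ∂ν) +
          ∫⁻ y in {y | y ∈ V \ B ∧ c y = (i, false)}, φ₀ y ∂ν := by
        intro i
        have h2 : Used V B c s i = {y | y ∈ V \ B ∧ c y = (i, true)} ∪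
            (fun y => s i • y) ⁻¹' {y | y ∈ V \ B ∧ c y = (i, false)} := by
          ext y
          simp only [Used, Set.mem_ofPred_eq, Set.mem_union, Set.mem_preimage, Set.mem_sdiff,
            and_assoc]
        have h3 : MeasurableSet {y | y ∈ V \ B ∧ c y = (i, false)} := by
          have := hW (i, false)
          simpa only [Set.mem_sdiff, and_assoc] using this
        rw [h2, lintegral_union (hG _ h3)]
        · congr 1
          have h4 : ∫⁻ y in (fun y => s i • y) ⁻¹' {y | y ∈ V \ B ∧ c y = (i, false)}, φ₀ y ∂ν =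
              ∫⁻ y in (fun y => s i • y) ⁻¹' {y | y ∈ V \ B ∧ c y = (i, false)},
                φ₀ (s i • y) ∂ν := by
            refine setLIntegral_congr_fun (hG _ h3) fun y hy => ?_
            have h5 : y ∈ A i := by
              apply hUsub i
              rw [h2]
              exact Or.inr hy
            exact (hφ₀inv y (s i) (Gen.edge s A i y h5)).symm
          rw [h4]
          exact (hν (s i)).setLIntegral_comp_preimage h3 hφ₀m
        · rw [Set.disjoint_left]
          rintro y ⟨⟨h5, h6⟩, h7⟩ ⟨⟨h8, h9⟩, h10⟩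
          have e1 := (hpar y h5 h6).2.1
          rw [h7] at e1
          have e2 : lev (st s (c (s i • y)) • s i • y) < lev (s i • y) :=
            (hpar (s i • y) h8 h9).2.1
          rw [h10] at e2
          have e3 : st s (i, false) • s i • y = y := inv_smul_smul _ _
          rw [e3] at e2
          have e4 : st s (i, true) • y = s i • y := rfl
          rw [e4] at e1
          omega
      have h6 : ∑' l : ι × Bool, ∫⁻ y in {y | y ∈ V \ B ∧ c y = l}, φ₀ y ∂ν = w := by
        refine tsum_fiber ν (V \ B) c (fun l => ?_) φ₀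
        have := hW l
        simpa only [Set.mem_sdiff, and_assoc] using this
      rw [← h6, ENNReal.tsum_prod']
      refine tsum_congr fun i => ?_
      rw [h1, tsum_bool, add_comm]
    -- the unused edges
    have hsplit : ∑' i, ∫⁻ y in A i, φ₀ y ∂ν =
        w + ∑' i, ∫⁻ y in A i \ Used V B c s i, φ₀ y ∂ν := by
      rw [← hused, ← ENNReal.tsum_add]
      refine tsum_congr fun i => ?_
      rw [← lintegral_union ((hA i).diff (hUsed i)) Set.disjoint_sdiff_right,
        Set.union_sdiff_cancel (hUsub i)]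
    have hnew : ∑' i, ∫⁻ y in A i \ Used V B c s i, φ₀ y ∂ν ≤ (∫⁻ y in B, φ y ∂ν) + ρ := by
      rw [hsplit, hint] at hmain
      have h1 : w + ∑' i, ∫⁻ y in A i \ Used V B c s i, φ₀ y ∂ν ≤
          w + ((∫⁻ y in B, φ y ∂ν) + ρ) := by
        refine hmain.trans (le_of_eq ?_)
        ring
      exact (ENNReal.add_le_add_iff_left hwfin).1 h1
    -- the cost of the new edges
    have hcost1 : ∀ i p q, ∫⁻ x in nA V B c s A γ a (Sum.inl (i, p, q)), φ x ∂ν =
        ∫⁻ y in {y | y ∈ (A i \ Used V B c s i) ∩ V ∧ (γ y, γ (s i • y)) = (p, q)}, φ₀ y ∂ν := by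
      intro i p q
      have h1 : (fun y => p • y) ⁻¹' nA V B c s A γ a (Sum.inl (i, p, q)) =
          {y | y ∈ (A i \ Used V B c s i) ∩ V ∧ (γ y, γ (s i • y)) = (p, q)} := by
        ext x
        simp only [nA, Set.mem_ofPred_eq, Set.mem_preimage, Set.mem_inter_iff, Set.mem_sdiff,
          Prod.mk.injEq, and_assoc, inv_smul_smul]
      rw [← (hν p).setLIntegral_comp_preimage (hnA _) hφ, h1]
      refine setLIntegral_congr_fun (hD i p q) fun y hy => ?_
      obtain ⟨⟨_, h2⟩, h3⟩ := hy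
      simp only [Prod.mk.injEq] at h3
      simp only [φ₀, if_pos h2, h3.1]
    have hcost2 : ∀ i, ∑' pq : G × G, ∫⁻ x in nA V B c s A γ a (Sum.inl (i, pq)), φ x ∂ν ≤
        ∫⁻ y in A i \ Used V B c s i, φ₀ y ∂ν := by
      intro i
      have h1 : ∑' pq : G × G, ∫⁻ x in nA V B c s A γ a (Sum.inl (i, pq)), φ x ∂ν =
          ∑' pq : G × G, ∫⁻ y in {y | y ∈ (A i \ Used V B c s i) ∩ V ∧
            (γ y, γ (s i • y)) = pq}, φ₀ y ∂ν :=
        tsum_congr fun pq => hcost1 i pq.1 pq.2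
      rw [h1, tsum_fiber ν ((A i \ Used V B c s i) ∩ V) (fun y => (γ y, γ (s i • y)))
        (fun pq => hD i pq.1 pq.2)]
      exact lintegral_mono_set Set.inter_subset_left
    have hcost3 : ∑' g, ∫⁻ x in nA V B c s A γ a (Sum.inr g), φ x ∂ν = ∫⁻ y in Bᶜ, φ y ∂ν :=
      tsum_fiber ν Bᶜ a (fun g => hB.compl.inter (ha g)) φ
    calc ∑' k, ∫⁻ x in nA V B c s A γ a k, φ x ∂ν
        = (∑' k, ∫⁻ x in nA V B c s A γ a (Sum.inl k), φ x ∂ν) +
          ∑' g, ∫⁻ x in nA V B c s A γ a (Sum.inr g), φ x ∂ν :=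
          Summable.tsum_sum ENNReal.summable ENNReal.summable
      _ ≤ ((∫⁻ y in B, φ y ∂ν) + ρ) + ∫⁻ y in Bᶜ, φ y ∂ν := by
          rw [hcost3]
          gcongr
          rw [ENNReal.tsum_prod']
          exact (ENNReal.tsum_le_tsum hcost2).trans hnew
      _ = (∫⁻ y, φ y ∂ν) + ρ := by
          have h1 := lintegral_add_compl φ hB (μ := ν)
          rw [← h1]
          ring
  · intro y hy g hgy hg
    obtain ⟨h1, h2⟩ := new_conn (a := a) hinv hpar y g hg (hBV hy)
    rwa [hγB y hy, hγB _ hgy, one_smul, one_mul, inv_one, mul_one] at h2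
  · intro y hy
    exact Gen.edge (ns s) (nA V B c s A γ a) (Sum.inr (a y)) y ⟨hy, rfl⟩

/-- **Contraction and reattachment.** -/
theorem Exc.replace [Countable G] [MeasurableSpace Y] {ν : Measure Y} [IsProbabilityMeasure ν]
    (hν : ∀ g : G, MeasurePreserving (fun y : Y => g • y) ν ν) {S : Y → G → Prop} {ρ : ℝ≥0∞}
    (h : Exc ν S ρ) (B : Set Y) (hB : MeasurableSet B) (a : Y → G)
    (ha : ∀ g, MeasurableSet {y | a y = g}) : ∃ S' : Y → G → Prop, Exc ν S' ρ ∧
      (∀ y ∈ B, ∀ g : G, g • y ∈ B → S y g → S' y g) ∧ ∀ y, y ∉ B → S' y (a y) := by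
  classical
  obtain ⟨ι, hι, s, A, hA, hS, hxi⟩ := h
  -- we may assume that there is an index
  let s' : Option ι → G := fun o => o.elim 1 s
  let A' : Option ι → Set Y := fun o => o.elim ∅ A
  have h1 : ∀ y g, Gen s A y g → Gen s' A' y g := by
    refine Gen.mono fun i y hy => ?_
    exact Gen.edge s' A' (some i) y hy
  have hA' : ∀ o, MeasurableSet (A' o) := by
    rintro (_ | i)
    · exact MeasurableSet.empty
    · exact hA i
  obtain ⟨S', h2, h3, h4⟩ := replace_aux hν s' A' hA' (ρ := ρ) (by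
    intro φ hφ hφ1 hφinv
    have h5 := hxi φ hφ hφ1 fun y g hg => hφinv y g (h1 y g ((hS y g).1 hg))
    refine le_trans (le_of_eq ?_) h5
    symm
    refine (Option.some_injective ι).tsum_eq (f := fun o => ∫⁻ y in A' o, φ y ∂ν) ?_
    rintro (_ | i) ho
    · exfalso
      apply ho
      simp [A']
    · exact ⟨i, rfl⟩) B hB a ha
  exact ⟨S', h2, fun y hy g hgy hg => h3 y hy g hgy (h1 y g ((hS y g).1 hg)), h4⟩

end Contraction

end Pool.Agent.Lib.MP_90732c_al.Ab
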