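import Pool.Agent.Lib.MP_90732c_al.Ab.GEN
import Pool.Agent.Lib.MP_90732c_al.Ab.EXT
import Pool.Agent.Lib.MP_90732c_al.Ab.REP
import Pool.Agent.Lib.MP_90732c_al.Ab.LAB
import Pool.Agent.Lib.MP_90732c_al.Ab.CEN

/-! An absolute bound for the Tarski numbers: layers and fillings. -/

set_option autoImplicit false

open MeasureTheory
open scoped ENNReal Pointwise

namespace Pool.Agent.Lib.MP_90732c_al.Ab

variable {G : Type} [Group G] {Y : Type} [MulAction G Y]

/-! ### Words -/

section Words

variable {m : ℕ} (t : Fin m → G)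

open Classical in
private lemma one_mem_letters : (1 : G) ∈ letters t := Finset.mem_insert_self _ _

open Classical in
private lemma gen_mem_letters (i : Fin m) : t i ∈ letters t :=
  Finset.mem_insert_of_mem (Finset.mem_union_left _ (Finset.mem_image_of_mem _
    (Finset.mem_univ i)))

open Classical in
private lemma inv_mem_letters {g : G} (hg : g ∈ letters t) : g⁻¹ ∈ letters t := by
  unfold letters at hg ⊢
  simp only [Finset.mem_insert, Finset.mem_union, Finset.mem_image, Finset.mem_univ,
    true_and] at hg ⊢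
  rcases hg with rfl | ⟨i, rfl⟩ | ⟨i, rfl⟩
  · left; exact inv_one
  · right; right; exact ⟨i, rfl⟩
  · right; left; exact ⟨i, (inv_inv _).symm⟩

open Classical in
private lemma one_mem_words (n : ℕ) : (1 : G) ∈ words t n := by
  unfold words
  exact Finset.one_mem_pow (one_mem_letters t)

open Classical in
private lemma words_mono {k l : ℕ} (h : k ≤ l) : words t k ⊆ words t l := by
  unfold words
  exact Finset.pow_subset_pow_right (one_mem_letters t) h

open Classical in
private lemma mul_mem_words {k l : ℕ} {g g' : G} (hg : g ∈ words t k) (hg' : g' ∈ words t l) :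
    g * g' ∈ words t (k + l) := by
  unfold words at *
  rw [pow_add]
  exact Finset.mul_mem_mul hg hg'

open Classical in
private lemma letters_mem_words {g : G} (hg : g ∈ letters t) : g ∈ words t 1 := by
  unfold words
  rw [pow_one]
  exact hg

open Classical in
private lemma exists_of_mem_words_succ {k : ℕ} {g : G} (hg : g ∈ words t (k + 1)) :
    ∃ b ∈ words t k, ∃ a ∈ letters t, g = b * a := by
  unfold words at *
  rw [pow_succ] at hg
  obtain ⟨b, hb, a, ha, rfl⟩ := Finset.mem_mul.1 hg
  exact ⟨b, hb, a, ha, rfl⟩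

open Classical in
private lemma mem_words_zero {g : G} (hg : g ∈ words t 0) : g = 1 := by
  unfold words at hg
  rw [pow_zero] at hg
  exact Finset.mem_one.1 hg

open Classical in
private lemma inv_mem_words {k : ℕ} : ∀ {g : G}, g ∈ words t k → g⁻¹ ∈ words t k := by
  induction k with
  | zero =>
    intro g hg
    rw [mem_words_zero t hg, inv_one]
    exact one_mem_words t 0
  | succ k ih =>
    intro g hg
    obtain ⟨b, hb, a, ha, rfl⟩ := exists_of_mem_words_succ t hg
    rw [mul_inv_rev, add_comm]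
    exact mul_mem_words t (letters_mem_words t (inv_mem_letters t ha)) (ih hb)

end Words

/-! ### Layers -/

/-- The points with distance at most `k` from `B`. -/
private def layer {m : ℕ} (t : Fin m → G) (B : Set Y) (k : ℕ) : Set Y :=
  {y | ∃ w ∈ words t k, w • y ∈ B}

section Layer

variable {m : ℕ} (t : Fin m → G) (B : Set Y)

private lemma layer_mono {k l : ℕ} (h : k ≤ l) : layer t B k ⊆ layer t B l :=
  fun _ ⟨w, hw, hy⟩ => ⟨w, words_mono t h hw, hy⟩

private lemma mem_layer_zero {y : Y} : y ∈ layer t B 0 ↔ y ∈ B := by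
  constructor
  · rintro ⟨w, hw, hy⟩
    rw [mem_words_zero t hw, one_smul] at hy
    exact hy
  · intro hy
    exact ⟨1, one_mem_words t 0, by rwa [one_smul]⟩

private lemma subset_layer (k : ℕ) : B ⊆ layer t B k := fun _ hy =>
  layer_mono t B (Nat.zero_le k) ((mem_layer_zero t B).2 hy)

private lemma exists_step {k : ℕ} {y : Y} (hy : y ∈ layer t B (k + 1)) :
    ∃ a ∈ letters t, a • y ∈ layer t B k := by
  obtain ⟨w, hw, hy⟩ := hy
  obtain ⟨b, hb, a, ha, rfl⟩ := exists_of_mem_words_succ t hw
  exact ⟨a, ha, b, hb, by rwa [mul_smul] at hy⟩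

private lemma mem_layer_succ {k : ℕ} {y : Y} {a : G} (ha : a ∈ letters t)
    (hy : a • y ∈ layer t B k) : y ∈ layer t B (k + 1) := by
  obtain ⟨w, hw, hy⟩ := hy
  exact ⟨w * a, mul_mem_words t hw (letters_mem_words t ha), by rwa [mul_smul]⟩

private lemma layer_measurable [MeasurableSpace Y] (hG : ∀ g : G, Measurable fun y : Y => g • y)
    (hB : MeasurableSet B) (k : ℕ) : MeasurableSet (layer t B k) := by
  have : layer t B k = ⋃ w ∈ words t k, (fun y : Y => w • y) ⁻¹' B := by
    ext y
    simp only [layer, Set.mem_ofPred_eq, Set.mem_iUnion, Set.mem_preimage, exists_prop]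
  rw [this]
  exact Finset.measurableSet_biUnion _ fun w _ => hG w hB

/-- The level of a point is unique. -/
private lemma level_unique {k l : ℕ} {y : Y} (hk : y ∈ layer t B (k + 1))
    (hk' : y ∉ layer t B k) (hl : y ∈ layer t B (l + 1)) (hl' : y ∉ layer t B l) : k = l := by
  apply le_antisymm
  · by_contra h
    exact hk' (layer_mono t B (by omega : l + 1 ≤ k) hl)
  · by_contra h
    exact hl' (layer_mono t B (by omega : k + 1 ≤ l) hk)

private lemma exists_level {r : ℕ} {y : Y} (hr : y ∈ layer t B r) (h0 : y ∉ B) :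
    ∃ k < r, y ∈ layer t B (k + 1) ∧ y ∉ layer t B k := by
  induction r with
  | zero => exact absurd ((mem_layer_zero t B).1 hr) h0
  | succ r ih =>
    by_cases h : y ∈ layer t B r
    · obtain ⟨k, hk, h1⟩ := ih h
      exact ⟨k, by omega, h1⟩
    · exact ⟨r, by omega, hr, h⟩

/-- There is a thin layer. -/
private lemma exists_thin [MeasurableSpace Y] {ν : Measure Y} [IsProbabilityMeasure ν]
    (hG : ∀ g : G, Measurable fun y : Y => g • y) (hB : MeasurableSet B) (R : ℕ) (hR : 0 < R) :
    ∃ k < R, ν (layer t B (k + 1) \ layer t B k) ≤ ENNReal.ofReal (ν.real Bᶜ / R) := by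
  have hm := layer_measurable t B hG hB
  have hsum : ∑ k ∈ Finset.range R, (ν.real (layer t B (k + 1)) - ν.real (layer t B k)) ≤
      ∑ _k ∈ Finset.range R, ν.real Bᶜ / R := by
    rw [Finset.sum_range_sub (fun k => ν.real (layer t B k)), Finset.sum_const,
      Finset.card_range, nsmul_eq_mul, mul_div_cancel₀ _ (by positivity : (R : ℝ) ≠ 0)]
    have h0 : layer t B 0 = B := Set.ext fun y => mem_layer_zero t B
    rw [h0, probReal_compl_eq_one_sub hB]
    have : ν.real (layer t B R) ≤ 1 := measureReal_le_one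
    linarith
  obtain ⟨k, hk, hle⟩ := Finset.exists_le_of_sum_le ⟨0, Finset.mem_range.2 hR⟩ hsum
  refine ⟨k, Finset.mem_range.1 hk, ?_⟩
  have hd : ν.real (layer t B (k + 1) \ layer t B k) =
      ν.real (layer t B (k + 1)) - ν.real (layer t B k) :=
    measureReal_sdiff (layer_mono t B (Nat.le_succ k)) (hm k)
  rw [← ofReal_measureReal, hd]
  exact ENNReal.ofReal_le_ofReal hle

end Layer

/-! ### Measurable choice in a countable set -/

private lemma exists_choice [Countable G] {X : Type} [MeasurableSpace X] (P : G → Set X)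
    (hP : ∀ g, MeasurableSet (P g)) :
    ∃ a : X → G, (∀ g, MeasurableSet {x | a x = g}) ∧ ∀ x g, x ∈ P g → x ∈ P (a x) := by
  classical
  obtain ⟨e, he⟩ := exists_surjective_nat G
  have hp : ∀ x : X, ∃ n, x ∈ P (e n) ∨ ∀ k, x ∉ P (e k) := by
    intro x
    by_cases h : ∃ n, x ∈ P (e n)
    · obtain ⟨n, hn⟩ := h
      exact ⟨n, Or.inl hn⟩
    · push Not at h
      exact ⟨0, Or.inr h⟩
  have hm : Measurable fun x => Nat.find (hp x) := by
    apply measurable_find
    intro n
    have : {x : X | x ∈ P (e n) ∨ ∀ k, x ∉ P (e k)} = P (e n) ∪ ⋂ k, (P (e k))ᶜ := by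
      ext x
      simp
    rw [this]
    exact (hP _).union (MeasurableSet.iInter fun k => (hP _).compl)
  refine ⟨fun x => e (Nat.find (hp x)), fun g => ?_, fun x g hx => ?_⟩
  · exact hm (MeasurableSet.of_discrete (s := {n : ℕ | e n = g}))
  · obtain ⟨n, rfl⟩ := he g
    rcases Nat.find_spec (hp x) with h | h
    · exact h
    · exact absurd hx (h n)

/-! ### The theorem -/

open Classical in
private lemma bd_card {m : ℕ} (t : Fin m → G) (F : Finset G) :
    (bd t F).card = ∑ i, (F.filter fun h => t i * h ∉ F).card := by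
  unfold bd
  rw [Finset.card_filter, Finset.sum_product]
  refine Finset.sum_congr rfl fun i _ => ?_
  rw [Finset.card_filter]

theorem fill {m : ℕ} [Countable G] [MeasurableSpace Y] {ν : Measure Y} [IsProbabilityMeasure ν]
    (hν : ∀ g : G, MeasurePreserving (fun y : Y => g • y) ν ν) {S : Y → G → Prop} {ρ : ℝ≥0∞}
    (h : Exc ν S ρ) (t : Fin m → G) (F : Finset G) (hne : F.Nonempty)
    (h0 : 2000 * (bd t F).card ≤ F.card) (B : Set Y) (hB : MeasurableSet B) (R : ℕ) (hR : 0 < R)
    (hconn : ∀ y ∈ B, ∀ w ∈ words t (2 * R + 1), w • y ∈ B → S y w) :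
    ∃ S' : Y × Lab G → G → Prop, Exc (ν.prod (lam G)) S' ρ ∧
      ∑ i, (ν.prod (lam G)) {x | ¬ S' x (t i)} ≤
        ENNReal.ofReal (2 * m / R + 1 / 1000) * ν Bᶜ := by
  classical
  have hG : ∀ g : G, Measurable fun y : Y => g • y := fun g => (hν g).measurable
  obtain ⟨k₀, hk₀, hthin⟩ := exists_thin t B (ν := ν) hG hB R hR
  set r := k₀ + 1 with hr
  have hmL := layer_measurable t B hG hB
  have hGL : ∀ g : G, Measurable fun ω : Lab G => g • ω := fun g =>
    (lam_measurePreserving g).measurable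
  -- the choice of the new edges
  let P1 : G → Set (Y × Lab G) := fun g =>
    {x | g ∈ letters t ∧ ∃ k < r, x.1 ∈ layer t B (k + 1) ∧ x.1 ∉ layer t B k ∧
      g • x.1 ∈ layer t B k}
  let P2 : G → Set (Y × Lab G) := fun g =>
    {x | x.1 ∉ layer t B r ∧ g⁻¹ ∈ F ∧ ∀ v ∈ F, v ≠ g⁻¹ → x.2 g⁻¹ < x.2 v}
  have hP1 : ∀ g, MeasurableSet (P1 g) := by
    intro g
    by_cases hg : g ∈ letters t
    · have : P1 g = ⋃ k ∈ Finset.range r, (Prod.fst ⁻¹' (layer t B (k + 1)) ∩
          Prod.fst ⁻¹' (layer t B k)ᶜ ∩ Prod.fst ⁻¹' ((fun y : Y => g • y) ⁻¹' layer t B k)) := by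
        ext x
        simp only [P1, hg, true_and, Set.mem_ofPred_eq, Set.mem_iUnion, Finset.mem_range,
          Set.mem_inter_iff, Set.mem_preimage, Set.mem_compl_iff, exists_prop, and_assoc]
      rw [this]
      exact Finset.measurableSet_biUnion _ fun k _ =>
        ((measurable_fst (hmL _)).inter (measurable_fst (hmL _).compl)).inter
          (measurable_fst (hG g (hmL _)))
    · have : P1 g = ∅ := by
        ext x
        simp [P1, hg]
      rw [this]
      exact MeasurableSet.empty
  have hev : ∀ g : G, Measurable fun ω : Lab G => ω g := fun g => measurable_pi_apply g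
  have hP2 : ∀ g, MeasurableSet (P2 g) := by
    intro g
    have : P2 g = Prod.fst ⁻¹' (layer t B r)ᶜ ∩ {x : Y × Lab G | g⁻¹ ∈ F} ∩
        ⋂ v ∈ F, ({x : Y × Lab G | v = g⁻¹} ∪ {x : Y × Lab G | x.2 g⁻¹ < x.2 v}) := by
      ext x
      simp only [P2, Set.mem_ofPred_eq, Set.mem_iInter, Set.mem_inter_iff, Set.mem_preimage,
        Set.mem_compl_iff, Set.mem_union, and_assoc]
      refine and_congr_right fun _ => and_congr_right fun _ => forall₂_congr fun v _ => ?_
      tauto
    rw [this]
    refine ((measurable_fst (hmL _).compl).inter (MeasurableSet.const _)).inter ?_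
    refine Finset.measurableSet_biInter _ fun v _ => (MeasurableSet.const _).union ?_
    exact measurableSet_lt ((hev _).comp measurable_snd) ((hev _).comp measurable_snd)
  obtain ⟨a, ham, haP⟩ := exists_choice (fun g => P1 g ∪ P2 g) fun g => (hP1 g).union (hP2 g)
  -- the new relation
  have hprod : ∀ g : G, MeasurePreserving (fun x : Y × Lab G => g • x) (ν.prod (lam G))
      (ν.prod (lam G)) := fun g => (hν g).prod (lam_measurePreserving g)
  obtain ⟨S', hExc, hSB, hSa⟩ := Exc.replace hprod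
    (h.prod (lam G) fun g => lam_measurePreserving g) (Prod.fst ⁻¹' B) (measurable_fst hB) a ham
  refine ⟨S', hExc, ?_⟩
  have hRel := hExc.isRel
  -- points of the layers are joined to `B`
  have hjoin : ∀ k ≤ r, ∀ x : Y × Lab G, x.1 ∈ layer t B k →
      ∃ g ∈ words t k, g • x.1 ∈ B ∧ S' x g := by
    intro k
    induction k with
    | zero =>
      intro _ x hx
      exact ⟨1, one_mem_words t 0, by rw [one_smul]; exact (mem_layer_zero t B).1 hx,
        hRel.one x⟩
    | succ k ih =>
      intro hkr x hx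
      by_cases hxk : x.1 ∈ layer t B k
      · obtain ⟨g, hg, h1, h2⟩ := ih (by omega) x hxk
        exact ⟨g, words_mono t (Nat.le_succ k) hg, h1, h2⟩
      · have hxB : x ∉ (Prod.fst ⁻¹' B : Set (Y × Lab G)) := fun hx' =>
          hxk (subset_layer t B k hx')
        obtain ⟨b, hb, hbx⟩ := exists_step t B hx
        have hmem := haP x b (Or.inl ⟨hb, k, by omega, hx, hxk, hbx⟩)
        rcases hmem with ⟨hal, l, hl, h1, h2, h3⟩ | ⟨h1, _⟩
        · obtain rfl := level_unique t B hx hxk h1 h2
          obtain ⟨g, hg, h4, h5⟩ := ih (by omega) (a x • x) h3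
          refine ⟨g * a x, mul_mem_words t hg (letters_mem_words t hal), ?_, ?_⟩
          · rw [mul_smul]
            exact h4
          · exact hRel.mul x (a x) g (hSa x hxB) h5
        · exact absurd (layer_mono t B hkr hx) h1
  -- edges inside the last layer
  have hin : ∀ i, ∀ x : Y × Lab G, x.1 ∈ layer t B r → t i • x.1 ∈ layer t B r →
      S' x (t i) := by
    intro i x hx hx'
    obtain ⟨g, hg, hgB, hgS⟩ := hjoin r le_rfl x hx
    obtain ⟨g', hg', hgB', hgS'⟩ := hjoin r le_rfl (t i • x) hx'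
    have hw : g' * t i * g⁻¹ ∈ words t (2 * R + 1) := by
      have := mul_mem_words t (mul_mem_words t hg' (letters_mem_words t (gen_mem_letters t i)))
        (inv_mem_words t hg)
      exact words_mono t (by omega) this
    have hwB : (g' * t i * g⁻¹) • (g • x).1 ∈ B := by
      change (g' * t i * g⁻¹) • g • x.1 ∈ B
      rw [mul_smul, inv_smul_smul, mul_smul]
      exact hgB'
    have h1 : S' (g • x) (g' * t i * g⁻¹) :=
      hSB (g • x) hgB _ hwB (hconn (g • x.1) hgB _ hw hwB)
    have h2 : S' x (g' * t i) := by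
      have := hRel.mul x g _ hgS h1
      rwa [inv_mul_cancel_right] at this
    have h3 := hRel.inv _ _ hgS'
    have h4 := hRel.mul x (g' * t i) g'⁻¹ h2 (by rw [mul_smul]; exact h3)
    rwa [inv_mul_cancel_left] at h4
  -- edges outside the last layer
  have hout : ∀ i, ∀ x : Y × Lab G, x.1 ∉ layer t B r → t i • x.1 ∉ layer t B r →
      (∃ u ∈ F, t i * u ∈ F ∧ (∀ v ∈ F, v ≠ u → x.2 u < x.2 v) ∧
      ∀ v ∈ F, (t i)⁻¹ * v ≠ u → x.2 u < x.2 ((t i)⁻¹ * v)) → S' x (t i) := by
    rintro i x hx hx' ⟨u, hu, htu, hmin, hmin'⟩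
    have hxB : x ∉ (Prod.fst ⁻¹' B : Set (Y × Lab G)) := fun h => hx (subset_layer t B r h)
    have hxB' : t i • x ∉ (Prod.fst ⁻¹' B : Set (Y × Lab G)) := fun h =>
      hx' (subset_layer t B r h)
    have key : ∀ z : Y × Lab G, z.1 ∉ layer t B r → ∀ u' ∈ F,
        (∀ v ∈ F, v ≠ u' → z.2 u' < z.2 v) → a z = u'⁻¹ := by
      intro z hz u' hu' hm
      have hmem := haP z u'⁻¹ (Or.inr ⟨hz, by rwa [inv_inv], by rwa [inv_inv]⟩)
      rcases hmem with ⟨_, l, hl, h1, _, _⟩ | ⟨_, h2, h3⟩
      · exact absurd (layer_mono t B (by omega) h1) hz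
      · by_contra hne'
        have hne1 : (a z)⁻¹ ≠ u' := fun h => hne' (by rw [← h, inv_inv])
        exact lt_asymm (hm _ h2 hne1) (h3 _ hu' (Ne.symm hne1))
    have e1 : a x = u⁻¹ := key x hx u hu hmin
    have e2 : a (t i • x) = (t i * u)⁻¹ := by
      refine key (t i • x) hx' (t i * u) htu fun v hv hvne => ?_
      change x.2 ((t i)⁻¹ * (t i * u)) < x.2 ((t i)⁻¹ * v)
      rw [inv_mul_cancel_left]
      refine hmin' v hv fun h => hvne ?_
      rw [← h, mul_inv_cancel_left]
    have s1 : S' x u⁻¹ := e1 ▸ hSa x hxB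
    have s2 : S' (t i • x) (t i * u)⁻¹ := e2 ▸ hSa (t i • x) hxB'
    have s3 := hRel.inv _ _ s2
    rw [inv_inv, mul_inv_rev, mul_smul, inv_smul_smul] at s3
    have s4 := hRel.mul x u⁻¹ _ s1 s3
    rwa [mul_inv_cancel_right] at s4
  -- the thin layer
  set D : Set Y := layer t B r \ layer t B k₀ with hD
  have hcross1 : ∀ i, ∀ y : Y, y ∈ layer t B r → t i • y ∉ layer t B r → y ∈ D := by
    intro i y hy hy'
    refine ⟨hy, fun hk => hy' (mem_layer_succ t B (inv_mem_letters t (gen_mem_letters t i)) ?_)⟩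
    rw [inv_smul_smul]
    exact hk
  have hcross2 : ∀ i, ∀ y : Y, y ∉ layer t B r → t i • y ∈ layer t B r → t i • y ∈ D := by
    intro i y hy hy'
    exact ⟨hy', fun hk => hy (mem_layer_succ t B (gen_mem_letters t i) hk)⟩
  have hDm : MeasurableSet D := (hmL _).diff (hmL _)
  -- the bound for one generator
  set c : ℝ := ν.real Bᶜ with hc
  have hc0 : 0 ≤ c := measureReal_nonneg
  have hF0 : (0 : ℝ) < F.card := by exact_mod_cast hne.card_pos
  have hR0 : (0 : ℝ) < R := by exact_mod_cast hR
  let d : Fin m → ℕ := fun i => (F.filter fun h => t i * h ∉ F).card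
  have hone : ∀ i, (ν.prod (lam G)) {x | ¬ S' x (t i)} ≤
      ENNReal.ofReal (c / R + c / R + c * (2 * d i / F.card)) := by
    intro i
    let E : Set (Lab G) := {ω : Lab G | ¬ ∃ u ∈ F, t i * u ∈ F ∧
      (∀ v ∈ F, v ≠ u → ω u < ω v) ∧ ∀ v ∈ F, (t i)⁻¹ * v ≠ u → ω u < ω ((t i)⁻¹ * v)}
    have hsub : {x : Y × Lab G | ¬ S' x (t i)} ⊆
        (D ×ˢ Set.univ ∪ ((fun y : Y => t i • y) ⁻¹' D) ×ˢ Set.univ) ∪
          ((layer t B r)ᶜ ×ˢ E) := by
      intro x hx
      by_cases h1 : x.1 ∈ layer t B r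
      · by_cases h2 : t i • x.1 ∈ layer t B r
        · exact absurd (hin i x h1 h2) hx
        · exact Or.inl (Or.inl ⟨hcross1 i x.1 h1 h2, Set.mem_univ _⟩)
      · by_cases h2 : t i • x.1 ∈ layer t B r
        · exact Or.inl (Or.inr ⟨hcross2 i x.1 h1 h2, Set.mem_univ _⟩)
        · refine Or.inr ⟨h1, fun h3 => hx (hout i x h1 h2 h3)⟩
    have hE : lam G E ≤ ENNReal.ofReal (2 * d i / F.card) := by
      refine (centre_le F hne (t i)).trans (le_of_eq ?_)
      rw [ENNReal.ofReal_div_of_pos hF0, ENNReal.ofReal_mul (by norm_num),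
        ENNReal.ofReal_natCast, ENNReal.ofReal_natCast, ENNReal.ofReal_ofNat]
    have hLc : ν (layer t B r)ᶜ ≤ ENNReal.ofReal c := by
      rw [hc, ofReal_measureReal]
      exact measure_mono (Set.compl_subset_compl.2 (subset_layer t B r))
    calc (ν.prod (lam G)) {x | ¬ S' x (t i)}
        ≤ (ν.prod (lam G)) ((D ×ˢ Set.univ ∪ ((fun y : Y => t i • y) ⁻¹' D) ×ˢ Set.univ) ∪
          ((layer t B r)ᶜ ×ˢ E)) := measure_mono hsub
      _ ≤ (ν.prod (lam G)) (D ×ˢ Set.univ) +
          (ν.prod (lam G)) (((fun y : Y => t i • y) ⁻¹' D) ×ˢ Set.univ) +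
          (ν.prod (lam G)) ((layer t B r)ᶜ ×ˢ E) :=
        (measure_union_le _ _).trans (add_le_add (measure_union_le _ _) le_rfl)
      _ = ν D + ν D + ν (layer t B r)ᶜ * lam G E := by
        rw [Measure.prod_prod, Measure.prod_prod, Measure.prod_prod, measure_univ, mul_one,
          mul_one, (hν (t i)).measure_preimage hDm.nullMeasurableSet]
      _ ≤ ENNReal.ofReal (c / R) + ENNReal.ofReal (c / R) +
          ENNReal.ofReal c * ENNReal.ofReal (2 * d i / F.card) :=
        add_le_add (add_le_add hthin hthin) (mul_le_mul' hLc hE)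
      _ = ENNReal.ofReal (c / R + c / R + c * (2 * d i / F.card)) := by
        rw [← ENNReal.ofReal_mul hc0, ← ENNReal.ofReal_add (by positivity) (by positivity),
          ← ENNReal.ofReal_add (by positivity) (by positivity)]
  calc ∑ i, (ν.prod (lam G)) {x | ¬ S' x (t i)}
      ≤ ∑ i, ENNReal.ofReal (c / R + c / R + c * (2 * d i / F.card)) :=
        Finset.sum_le_sum fun i _ => hone i
    _ = ENNReal.ofReal (∑ i, (c / R + c / R + c * (2 * d i / F.card))) := by
        rw [ENNReal.ofReal_sum_of_nonneg fun i _ => by positivity]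
    _ ≤ ENNReal.ofReal ((2 * m / R + 1 / 1000) * c) := by
        refine ENNReal.ofReal_le_ofReal ?_
        have hbd : (2000 : ℝ) * ∑ i, (d i : ℝ) ≤ F.card := by
          have := h0
          rw [bd_card] at this
          exact_mod_cast this
        rw [Finset.sum_add_distrib, Finset.sum_const, Finset.card_univ, Fintype.card_fin,
          nsmul_eq_mul, ← Finset.mul_sum, ← Finset.sum_div, ← Finset.mul_sum]
        have h2 : (2 * ∑ i, (d i : ℝ)) / F.card ≤ 1 / 1000 := by
          rw [div_le_iff₀ hF0]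
          linarith
        have h3 : c * ((2 * ∑ i, (d i : ℝ)) / F.card) ≤ c * (1 / 1000) :=
          mul_le_mul_of_nonneg_left h2 hc0
        calc (m : ℝ) * (c / R + c / R) + c * ((2 * ∑ i, (d i : ℝ)) / F.card)
            ≤ m * (c / R + c / R) + c * (1 / 1000) := by linarith
          _ = (2 * m / R + 1 / 1000) * c := by ring
    _ = ENNReal.ofReal (2 * m / R + 1 / 1000) * ν Bᶜ := by
        rw [ENNReal.ofReal_mul (by positivity), hc, ofReal_measureReal]

end Pool.Agent.Lib.MP_90732c_al.Ab
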