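import Pool.Agent.Lib.MP_90732c_al.Ab.Defs

/-! An absolute bound for the Tarski numbers: trimming a set of small boundary. -/

set_option autoImplicit false

open MeasureTheory
open scoped ENNReal Pointwise

namespace Pool.Agent.Lib.MP_90732c_al.Ab

variable {G : Type} [Group G] {Y : Type} [MulAction G Y]

open Classical in
/-- The number of edges leaving `F` without `Q`. -/
theorem bd_sdiff_card {m : ℕ} (t : Fin m → G) {F Q : Finset G} (hQ : Q ⊆ F) :
    (bd t (F \ Q)).card + ((Finset.univ ×ˢ F).filter fun p : Fin m × G =>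
        p.2 ∈ Q ∧ t p.1 * p.2 ∉ F).card =
      (bd t F).card + ((Finset.univ ×ˢ F).filter fun p : Fin m × G =>
        p.2 ∉ Q ∧ t p.1 * p.2 ∈ Q).card := by
  rw [← Finset.card_union_of_disjoint, ← Finset.card_union_of_disjoint]
  · congr 1
    ext p
    simp only [bd, Finset.mem_union, Finset.mem_filter, Finset.mem_product, Finset.mem_univ,
      true_and, Finset.mem_sdiff]
    have h1 : p.2 ∈ Q → p.2 ∈ F := fun h => hQ h
    have h2 : t p.1 * p.2 ∈ Q → t p.1 * p.2 ∈ F := fun h => hQ h
    tauto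
  · rw [Finset.disjoint_left]
    intro p hp hp'
    simp only [bd, Finset.mem_filter, Finset.mem_product, Finset.mem_univ,
      true_and] at hp hp'
    exact hp.2 (hQ hp'.2.2)
  · rw [Finset.disjoint_left]
    intro p hp hp'
    simp only [bd, Finset.mem_filter, Finset.mem_product, Finset.mem_univ,
      true_and, Finset.mem_sdiff] at hp hp'
    exact hp.1.2 hp'.2.1

open Classical in
/-- The edges leaving `Q` leave `F` or go to the rest of `F`. -/
theorem bd_card_eq {m : ℕ} (t : Fin m → G) {F Q : Finset G} (hQ : Q ⊆ F) :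
    (bd t Q).card = ((Finset.univ ×ˢ F).filter fun p : Fin m × G =>
        p.2 ∈ Q ∧ t p.1 * p.2 ∉ F).card + ((Finset.univ ×ˢ F).filter fun p : Fin m × G =>
        p.2 ∈ Q ∧ t p.1 * p.2 ∈ F ∧ t p.1 * p.2 ∉ Q).card := by
  rw [← Finset.card_union_of_disjoint]
  · congr 1
    ext p
    simp only [bd, Finset.mem_union, Finset.mem_filter, Finset.mem_product, Finset.mem_univ,
      true_and]
    have h1 : p.2 ∈ Q → p.2 ∈ F := fun h => hQ h
    have h2 : t p.1 * p.2 ∈ Q → t p.1 * p.2 ∈ F := fun h => hQ h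
    tauto
  · rw [Finset.disjoint_left]
    intro p hp hp'
    simp only [Finset.mem_filter, Finset.mem_product, Finset.mem_univ, true_and] at hp hp'
    exact hp.2.2 hp'.2.2.1

open Classical in
/-- The edges inside `F` with exactly one end point in `Q`, by direction. -/
theorem ebd_card_eq {m : ℕ} (t : Fin m → G) {F Q : Finset G} (hQ : Q ⊆ F) :
    (ebd t Q F).card = ((Finset.univ ×ˢ F).filter fun p : Fin m × G =>
        p.2 ∉ Q ∧ t p.1 * p.2 ∈ Q).card + ((Finset.univ ×ˢ F).filter fun p : Fin m × G =>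
        p.2 ∈ Q ∧ t p.1 * p.2 ∈ F ∧ t p.1 * p.2 ∉ Q).card := by
  rw [← Finset.card_union_of_disjoint]
  · congr 1
    ext p
    simp only [ebd, Finset.mem_union, Finset.mem_filter, Finset.mem_product, Finset.mem_univ,
      true_and]
    have h1 : p.2 ∈ Q → p.2 ∈ F := fun h => hQ h
    have h2 : t p.1 * p.2 ∈ Q → t p.1 * p.2 ∈ F := fun h => hQ h
    tauto
  · rw [Finset.disjoint_left]
    intro p hp hp'
    simp only [Finset.mem_filter, Finset.mem_product, Finset.mem_univ, true_and] at hp hp'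
    exact hp.2.1 hp'.2.1

theorem trim {m : ℕ} (t : Fin m → G) (f : ℕ) (hE : Expand t f) (F₀ : Finset G)
    (hF₀ : F₀.Nonempty) (h0 : 2000 * (bd t F₀).card ≤ F₀.card) :
    ∃ F : Finset G, F.Nonempty ∧ 2000 * (bd t F).card ≤ F.card ∧ f ≤ F.card ∧
      ∀ Q ⊆ F, Q.Nonempty → Q.card < f → Q.card ≤ 2 * (ebd t Q F).card := by
  classical
  obtain ⟨F, hF, hmax⟩ := Finset.exists_max_image F₀.powerset
    (fun F : Finset G => (F.card : ℤ) - 2 * (bd t F).card) ⟨F₀, Finset.mem_powerset_self F₀⟩
  have hsub : F ⊆ F₀ := Finset.mem_powerset.1 hF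
  have hcard : F.card ≤ F₀.card := Finset.card_le_card hsub
  have hpos : 0 < F₀.card := hF₀.card_pos
  have h1 := hmax F₀ (Finset.mem_powerset_self F₀)
  have hne : F.Nonempty := by
    rw [← Finset.card_pos]
    omega
  have hQ : ∀ Q ⊆ F, Q.Nonempty → Q.card < f → Q.card ≤ 2 * (ebd t Q F).card := by
    intro Q hQF hQn hQf
    have h2 := hmax (F \ Q) (Finset.mem_powerset.2 (Finset.sdiff_subset.trans hsub))
    have h3 := Finset.card_sdiff_add_card_eq_card hQF
    have h4 := hE Q hQn hQf
    have h5 := bd_sdiff_card t hQF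
    have h6 := bd_card_eq t hQF
    have h7 := ebd_card_eq t hQF
    omega
  refine ⟨F, hne, by omega, ?_, hQ⟩
  by_contra hf
  have h2 := hQ F subset_rfl hne (by omega)
  have h3 : ebd t F F = ∅ := by
    rw [ebd, Finset.filter_eq_empty_iff]
    intro p hp
    have hp2 : p.2 ∈ F := (Finset.mem_product.1 hp).2
    tauto
  rw [h3, Finset.card_empty] at h2
  have := hne.card_pos
  omega

end Pool.Agent.Lib.MP_90732c_al.Ab
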