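import Pool.Agent.Lib.MP_90732c_al.Ab.GEN
import Pool.Agent.Lib.MP_90732c_al.Ab.LAB
import Pool.Agent.Lib.MP_90732c_al.Ab.LNK
import Pool.Agent.Lib.MP_90732c_al.Ab.FIL
import Pool.Agent.Lib.MP_90732c_al.Ab.TRM
import Pool.Agent.Lib.MP_90732c_al.Ab.SML

/-! One step and the iteration. -/

set_option autoImplicit false

open MeasureTheory
open scoped ENNReal Pointwise

namespace Pool.Agent.Lib.MP_90732c_al.Ab

variable {G : Type} [Group G] {Y : Type} [MulAction G Y]

theorem words_card_le (t : Fin 2 → G) : (words t 321).card ≤ cW := by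
  classical
  unfold words cW
  refine Finset.card_pow_le.trans (Nat.pow_le_pow_left ?_ _)
  unfold letters
  refine (Finset.card_insert_le _ _).trans ?_
  have h1 : (Finset.univ.image t : Finset G).card ≤ 2 :=
    Finset.card_image_le.trans (by simp)
  have h2 : (Finset.univ.image (fun i => (t i)⁻¹) : Finset G).card ≤ 2 :=
    Finset.card_image_le.trans (by simp)
  have h3 := Finset.card_union_le (Finset.univ.image t : Finset G)
    (Finset.univ.image fun i => (t i)⁻¹)
  omega

open Classical in
lemma esc_letter {m : ℕ} (t : Fin m → G) (F : Finset G) (a : G) (ha : a ∈ letters t) :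
    (F.filter fun h => a * h ∉ F).card ≤ (bd t F).card := by
  unfold letters at ha
  rw [Finset.mem_insert, Finset.mem_union, Finset.mem_image, Finset.mem_image] at ha
  have key : ∀ i : Fin m, (F.filter fun h => t i * h ∉ F).card ≤ (bd t F).card := by
    intro i
    apply Finset.card_le_card_of_injOn (fun h => (i, h))
    · intro p hp
      simp only [bd, Finset.coe_filter, Finset.mem_product, Finset.mem_univ, true_and,
        Set.mem_ofPred_eq] at hp ⊢
      exact hp
    · intro p _ q _ hpq
      simpa using hpq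
  rcases ha with rfl | ⟨i, -, rfl⟩ | ⟨i, -, rfl⟩
  · rw [Finset.filter_false_of_mem]
    · simp
    · intro h hh
      simpa using hh
  · exact key i
  · -- the number of points leaving `F` backwards is the number of those leaving forwards
    refine le_trans (le_of_eq ?_) (key i)
    have h1 : (F.filter fun h => (t i)⁻¹ * h ∉ F).card = F.card -
        (F.filter fun h => (t i)⁻¹ * h ∈ F).card := by
      have := Finset.card_filter_add_card_filter_not (s := F) (fun h => (t i)⁻¹ * h ∈ F)
      omega
    have h2 : (F.filter fun h => t i * h ∉ F).card = F.card -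
        (F.filter fun h => t i * h ∈ F).card := by
      have := Finset.card_filter_add_card_filter_not (s := F) (fun h => t i * h ∈ F)
      omega
    have h3 : (F.filter fun h => (t i)⁻¹ * h ∈ F).card = (F.filter fun h => t i * h ∈ F).card := by
      apply Finset.card_bij (fun h _ => (t i)⁻¹ * h)
      · intro h hh
        rw [Finset.mem_filter] at hh ⊢
        exact ⟨hh.2, by rw [mul_inv_cancel_left]; exact hh.1⟩
      · intro h _ h' _ hhh
        exact mul_left_cancel hhh
      · intro h hh
        rw [Finset.mem_filter] at hh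
        exact ⟨t i * h, by rw [Finset.mem_filter, inv_mul_cancel_left]; exact ⟨hh.2, hh.1⟩,
          by rw [inv_mul_cancel_left]⟩
    rw [h1, h2, h3]

open Classical in
lemma esc_mul (F : Finset G) (a b : G) :
    (F.filter fun h => a * b * h ∉ F).card ≤
      (F.filter fun h => b * h ∉ F).card + (F.filter fun h => a * h ∉ F).card := by
  have h1 : (F.filter fun h => a * b * h ∉ F) ⊆ (F.filter fun h => b * h ∉ F) ∪
      (F.filter fun h => b * h ∈ F ∧ a * (b * h) ∉ F) := by
    intro h hh
    rw [Finset.mem_filter] at hh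
    rw [Finset.mem_union, Finset.mem_filter, Finset.mem_filter]
    by_cases hb : b * h ∈ F
    · exact Or.inr ⟨hh.1, hb, by rw [← mul_assoc]; exact hh.2⟩
    · exact Or.inl ⟨hh.1, hb⟩
  refine (Finset.card_le_card h1).trans ((Finset.card_union_le _ _).trans ?_)
  refine Nat.add_le_add_left ?_ _
  apply Finset.card_le_card_of_injOn (fun h => b * h)
  · intro h hh
    have hh' := Finset.mem_filter.1 hh
    exact Finset.mem_coe.2 (Finset.mem_filter.2 ⟨hh'.2.1, hh'.2.2⟩)
  · intro h _ h' _ hhh
    exact mul_left_cancel hhh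

open Classical in
lemma esc_words {m : ℕ} (t : Fin m → G) (F : Finset G) (n : ℕ) :
    ∀ w ∈ words t n, (F.filter fun h => w * h ∉ F).card ≤ n * (bd t F).card := by
  unfold words
  induction n with
  | zero =>
    intro w hw
    rw [pow_zero, Finset.mem_one] at hw
    rw [hw, zero_mul, Finset.filter_false_of_mem]
    · simp
    · intro h hh
      simpa using hh
  | succ n ih =>
    intro w hw
    rw [pow_succ, Finset.mem_mul] at hw
    obtain ⟨a, ha, b, hb, rfl⟩ := hw
    have h1 := esc_mul F a b
    have h2 := ih a ha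
    have h3 := esc_letter t F b hb
    calc _ ≤ _ := h1
      _ ≤ (bd t F).card + n * (bd t F).card := by gcongr
      _ = (n + 1) * (bd t F).card := by ring

/-- One step. -/
theorem step [Countable G] (t : Fin 2 → G) (f : ℕ) (F : Finset G)
    (h0 : 2000 * (bd t F).card ≤ F.card) (hfF : f ≤ F.card) (hf8 : 8 ≤ f)
    (hF : ∀ Q ⊆ F, Q.Nonempty → Q.card < f → Q.card ≤ 2 * (ebd t Q F).card)
    {L : ℝ} (hL0 : 0 ≤ L) (hLf : L ≤ f) {ρ β : ℝ≥0∞} (h : HasState t ρ β) :
    HasState t (ρ + ENNReal.ofReal (L / f))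
      (β / 2 + ENNReal.ofReal (cW * Real.exp (-(L / 8)))) := by
  classical
  obtain ⟨Y, _, _, _, ν, _, S, hν, hexc, hβ⟩ := h
  obtain ⟨R, hR⟩ : ∃ R : ℕ, R = 160 := ⟨_, rfl⟩
  have hR1 : 2 * R + 1 = 321 := by omega
  have hne : F.Nonempty := by
    rw [← Finset.card_pos]
    omega
  have hF8 : (8 : ℝ) ≤ F.card := by exact_mod_cast hf8.trans hfF
  have hfR : (8 : ℝ) ≤ f := by exact_mod_cast hf8
  have hfFR : (f : ℝ) ≤ F.card := by exact_mod_cast hfF
  have hl0 : 0 ≤ L / F.card := by positivity
  have hl1 : L / F.card ≤ 1 := by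
    rw [div_le_one (by linarith)]
    linarith
  obtain ⟨S', hexc', hSS', hlink⟩ := link hν hexc F f (by omega) hl0 hl1
  have hm : ∀ g : G, Measurable fun y : Y => g • y := fun g => (hν g).measurable
  have hrel := hexc.isRel
  have hSm := hexc.measurableSet hm
  have hν' : ∀ g : G, MeasurePreserving (fun x : Y × Lab G => g • x) (ν.prod (lam G))
      (ν.prod (lam G)) := fun g => (hν g).prod (lam_measurePreserving g)
  have hm' : ∀ g : G, Measurable fun x : Y × Lab G => g • x := fun g => (hν' g).measurable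
  have hSm' := hexc'.measurableSet hm'
  have hfine := fine_measurable hm hSm F f
  -- the good set
  set D : G → Set (Y × Lab G) := fun w =>
    {x | x.1 ∈ Fine S F f ∧ w • x.1 ∈ Fine S F f ∧ ¬ S' x w} with hD
  have hDm : ∀ w, MeasurableSet (D w) := by
    intro w
    have e : D w = (Prod.fst ⁻¹' Fine S F f) ∩ ((fun x : Y × Lab G => w • x.1) ⁻¹' Fine S F f) ∩
        {x | S' x w}ᶜ := by
      ext x
      simp only [hD, Set.mem_ofPred_eq, Set.mem_inter_iff, Set.mem_preimage, Set.mem_compl_iff]
      tauto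
    rw [e]
    exact ((measurable_fst hfine).inter (((hm w).comp measurable_fst) hfine)).inter (hSm' w).compl
  set B : Set (Y × Lab G) := (Prod.fst ⁻¹' Fine S F f) ∩ (⋃ w ∈ words t (2 * R + 1), D w)ᶜ with hB
  have hBm : MeasurableSet B :=
    (measurable_fst hfine).inter (Finset.measurableSet_biUnion _ fun w _ => hDm w).compl
  have hconn : ∀ y ∈ B, ∀ w ∈ words t (2 * R + 1), w • y ∈ B → S' y w := by
    intro y hy w hw hwy
    by_contra hcon
    apply hy.2
    rw [Set.mem_iUnion₂]
    exact ⟨w, hw, hy.1, hwy.1, hcon⟩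
  obtain ⟨S'', hexc'', hcut⟩ := fill hν' hexc' t F hne h0 B hBm R (by omega) hconn
  -- the measure of the complement of the good set
  have hword : ∀ w ∈ words t (2 * R + 1), (ν.prod (lam G)) (D w) ≤
      ENNReal.ofReal (Real.exp (-(L / 8))) := by
    intro w hw
    have h1 : 4 * (F.filter fun h => w * h ∉ F).card ≤ F.card := by
      have h7 := esc_words t F (2 * R + 1) w hw
      rw [hR1] at h7
      omega
    refine (hlink w (F.card / 4) (by omega) h1).trans (ENNReal.ofReal_le_ofReal ?_)
    have h2 : (F.card : ℝ) / 8 ≤ ((F.card / 4 : ℕ) : ℝ) := by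
      have h3 : F.card ≤ 8 * (F.card / 4) := by omega
      have h4 : (F.card : ℝ) ≤ 8 * ((F.card / 4 : ℕ) : ℝ) := by exact_mod_cast h3
      linarith
    calc (1 - L / F.card) ^ (F.card / 4) ≤ (Real.exp (-(L / F.card))) ^ (F.card / 4) := by
          apply pow_le_pow_left₀ (by linarith)
          linarith [Real.add_one_le_exp (-(L / F.card))]
      _ = Real.exp (-(L / F.card) * ((F.card / 4 : ℕ) : ℝ)) := by
          rw [← Real.exp_nat_mul]
          ring_nf
      _ ≤ Real.exp (-(L / 8)) := by
          apply Real.exp_le_exp.2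
          have h5 : L / F.card * ((F.card : ℝ) / 8) ≤ L / F.card * ((F.card / 4 : ℕ) : ℝ) :=
            mul_le_mul_of_nonneg_left h2 hl0
          have h6 : L / F.card * ((F.card : ℝ) / 8) = L / 8 := by
            field_simp
          nlinarith
  have hBc : (ν.prod (lam G)) Bᶜ ≤ 16 * β + ENNReal.ofReal (cW * Real.exp (-(L / 8))) := by
    have e : Bᶜ ⊆ ((Fine S F f)ᶜ ×ˢ (Set.univ : Set (Lab G))) ∪
        ⋃ w ∈ words t (2 * R + 1), D w := by
      intro x hx
      by_cases h1 : x.1 ∈ Fine S F f
      · right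
        by_contra h2
        exact hx ⟨h1, h2⟩
      · left
        exact ⟨h1, trivial⟩
    refine (measure_mono e).trans ((measure_union_le _ _).trans ?_)
    gcongr ?_ + ?_
    · rw [Measure.prod_prod, measure_univ, mul_one]
      exact (fine_compl_le hν t hrel hSm F hne f hF).trans (by gcongr)
    · refine (measure_biUnion_finset_le _ _).trans ?_
      have h8 : (words t (2 * R + 1)).card ≤ cW := by
        rw [hR1]
        exact words_card_le t
      calc ∑ w ∈ words t (2 * R + 1), (ν.prod (lam G)) (D w) ≤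
          ∑ _w ∈ words t (2 * R + 1), ENNReal.ofReal (Real.exp (-(L / 8))) :=
            Finset.sum_le_sum hword
        _ = (words t (2 * R + 1)).card * ENNReal.ofReal (Real.exp (-(L / 8))) := by
            rw [Finset.sum_const, nsmul_eq_mul]
        _ ≤ (cW : ℝ≥0∞) * ENNReal.ofReal (Real.exp (-(L / 8))) :=
            mul_le_mul_left (Nat.cast_le.2 h8) _
        _ = ENNReal.ofReal (cW * Real.exp (-(L / 8))) := by
            rw [ENNReal.ofReal_mul (Nat.cast_nonneg _), ENNReal.ofReal_natCast]
  refine ⟨(Y × Lab G) × Lab G, inferInstance, inferInstance, inferInstance,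
    (ν.prod (lam G)).prod (lam G), inferInstance, S'',
    fun g => (hν' g).prod (lam_measurePreserving g), ?_, ?_⟩
  · refine hexc''.mono (le_of_eq ?_)
    have h9 : L / F.card * F.card / f = L / f := by
      have : (F.card : ℝ) ≠ 0 := by linarith
      field_simp
    rw [h9]
  · refine hcut.trans ?_
    have h1 : ENNReal.ofReal (2 * (2 : ℕ) / (R : ℕ) + 1 / 1000) ≤ (1 / 32 : ℝ≥0∞) := by
      rw [hR]
      rw [show (1 / 32 : ℝ≥0∞) = ENNReal.ofReal (1 / 32) by
        rw [ENNReal.ofReal_div_of_pos (by norm_num)]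
        simp]
      exact ENNReal.ofReal_le_ofReal (by norm_num)
    calc _ ≤ (1 / 32 : ℝ≥0∞) * (16 * β + ENNReal.ofReal (cW * Real.exp (-(L / 8)))) := by
          gcongr
      _ = (1 / 32 : ℝ≥0∞) * 16 * β + (1 / 32 : ℝ≥0∞) *
          ENNReal.ofReal (cW * Real.exp (-(L / 8))) := by ring
      _ ≤ β / 2 + 1 * ENNReal.ofReal (cW * Real.exp (-(L / 8))) := by
          gcongr ?_ + ?_ * _
          · have h2 : (1 / 32 : ℝ≥0∞) * 16 = 1 / 2 := by
              rw [show (32 : ℝ≥0∞) = 2 * 16 by norm_num, ENNReal.div_eq_inv_mul,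
                ENNReal.mul_inv (by simp) (by simp)]
              rw [mul_one, mul_assoc, ENNReal.inv_mul_cancel (by norm_num) (by norm_num), mul_one,
                one_div]
            rw [h2, ENNReal.div_eq_inv_mul, mul_one, ENNReal.div_eq_inv_mul]
          · exact ENNReal.div_le_of_le_mul (by norm_num)
      _ = _ := by rw [one_mul]

theorem iterate [Countable G] (t : Fin 2 → G) (f : ℕ) (hf8 : 8 ≤ f) (hE : Expand t f)
    (F₀ : Finset G) (hF₀ : F₀.Nonempty) (h0 : 2000 * (bd t F₀).card ≤ F₀.card)
    {L : ℝ} (hL0 : 0 ≤ L) (hLf : L ≤ f) (J : ℕ) :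
    HasState t (ENNReal.ofReal (J * L / f))
      (ENNReal.ofReal (2 * (1 / 2) ^ J + 2 * (cW * Real.exp (-(L / 8))))) := by
  classical
  obtain ⟨F, hne, hbd, hfF, hF⟩ := trim t f hE F₀ hF₀ h0
  have hfR : (0 : ℝ) < f := by
    have : (8 : ℝ) ≤ f := by exact_mod_cast hf8
    linarith
  have hE0 : 0 ≤ cW * Real.exp (-(L / 8)) := by positivity
  induction J with
  | zero =>
    refine ⟨Lab G, inferInstance, inferInstance, inferInstance, lam G, inferInstance,
      fun _ g => g = 1, fun g => lam_measurePreserving g, ?_, ?_⟩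
    · exact (exc_one (lam G)).mono zero_le
    · calc ∑ i, (lam G) {y | ¬ t i = 1} ≤ ∑ _i : Fin 2, 1 :=
            Finset.sum_le_sum fun i _ => prob_le_one
        _ = 2 := by simp
        _ = ENNReal.ofReal 2 := by simp
        _ ≤ _ := ENNReal.ofReal_le_ofReal (by
            rw [pow_zero, mul_one]
            linarith)
  | succ J ih =>
    obtain ⟨Y, i1, i2, i3, ν, i4, S, h1, h2, h3⟩ := step t f F hbd hfF hf8 hF hL0 hLf ih
    refine ⟨Y, i1, i2, i3, ν, i4, S, h1, h2.mono (le_of_eq ?_), h3.trans (le_of_eq ?_)⟩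
    · rw [← ENNReal.ofReal_add (by positivity) (by positivity)]
      congr 1
      push_cast
      ring
    · rw [show (2 : ℝ≥0∞) = ENNReal.ofReal 2 by simp, ← ENNReal.ofReal_div_of_pos (by norm_num),
        ← ENNReal.ofReal_add (by positivity) hE0]
      congr 1
      rw [pow_succ]
      ring

end Pool.Agent.Lib.MP_90732c_al.Ab
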