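import Pool.Agent.Lib.MP_90732c_al.Ab.ADG
import Pool.Agent.Lib.MP_90732c_al.Ab.FIN
import Pool.Agent.Lib.MP_90732c_al.Ab.HAL
import Pool.Agent.Lib.MP_90732c_al.Ab.LOC
import Pool.Agent.Lib.MP_90732c_al.Ab.STP

/-! The absolute bound for the Tarski number. -/

set_option autoImplicit false

open MeasureTheory
open scoped ENNReal Pointwise

namespace Pool.Agent.Lib.MP_90732c_al.Ab

variable {G : Type} [Group G]

/-- **The absolute bound.** -/
theorem tarskiLe_absolute (hfg : Group.FG G) (hexp : ¬ ∃ n : ℕ, 0 < n ∧ ∀ g : G, g ^ n = 1)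
    {ε : ℝ≥0∞} (hε : 0 < ε) (hc : CostGe G (1 + ε)) : TarskiLe G (2 * 4 ^ 6000) := by
  classical
  by_contra hT
  have : Countable G := countable_of_fg hfg
  obtain ⟨δ, hδ, hc'⟩ := hc.real hε
  obtain ⟨T, hgen⟩ := Group.fg_def.1 hfg
  set d := T.card with hd
  -- the parameters
  obtain ⟨J, hJ⟩ := exists_pow_lt_of_lt_one (show 0 < δ / 16 by linarith)
    (show (1 / 2 : ℝ) < 1 by norm_num)
  have hlim : Filter.Tendsto (fun L : ℝ => Real.exp (-(L / 8))) Filter.atTop (nhds 0) :=
    Real.tendsto_exp_neg_atTop_nhds_zero.comp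
      (Filter.tendsto_id.atTop_div_const (by norm_num))
  set C : ℝ := 2 * cW + d + 1 with hC
  have hC0 : 0 < C := by positivity
  obtain ⟨L, hL1, hL0⟩ : ∃ L : ℝ, Real.exp (-(L / 8)) < δ / (4 * C) ∧ 0 ≤ L := by
    have h1 := (hlim.eventually (gt_mem_nhds (show 0 < δ / (4 * C) by positivity)))
    exact (h1.and (Filter.eventually_ge_atTop 0)).exists
  obtain ⟨f, hf⟩ := exists_nat_gt (max (max 8 L) (4 * ((J + d : ℕ) : ℝ) * L / δ))
  have hf8 : 8 ≤ f := by
    have : (8 : ℝ) < f := lt_of_le_of_lt ((le_max_left _ _).trans (le_max_left _ _)) hf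
    exact_mod_cast this.le
  have hLf : L ≤ f := (((le_max_right _ _).trans (le_max_left _ _)).trans_lt hf).le
  have hf0 : (0 : ℝ) < f := by
    have : (8 : ℝ) ≤ f := by exact_mod_cast hf8
    linarith
  have hJf : ((J + d : ℕ) : ℝ) * L / f < δ / 4 := by
    have h1 : 4 * ((J + d : ℕ) : ℝ) * L / δ < f := lt_of_le_of_lt (le_max_right _ _) hf
    rw [div_lt_iff₀ hδ] at h1
    rw [div_lt_div_iff₀ hf0 (by norm_num)]
    linarith
  obtain ⟨t, ht⟩ := exists_expand hfg hexp (show 1 < 1 + δ by linarith) hc' f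
  obtain ⟨F₀, hF₀, h0⟩ := exists_small_bd hT (by norm_num) t
  have h1 := hasFull_of_hasState t (iterate t f hf8 ht F₀ hF₀ h0 hL0 hLf J)
  -- the generators
  have key : ∀ U : Finset G, ∃ K : Set G, (U : Set G) ⊆ K ∧ Set.range t ⊆ K ∧
      HasFull K (ENNReal.ofReal (J * L / f) + ENNReal.ofReal (2 * (1 / 2) ^ J +
        2 * (cW * Real.exp (-(L / 8)))) + U.card *
          (ENNReal.ofReal (L / f) + ENNReal.ofReal (Real.exp (-(L / 8))))) := by
    intro U
    induction U using Finset.induction_on with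
    | empty => exact ⟨Set.range t, by simp, subset_rfl, by simpa using h1⟩
    | insert s U hs ih =>
      obtain ⟨K, hK1, hK2, hK3⟩ := ih
      obtain ⟨F, hne, hF⟩ := exists_small_bd hT (m := 3) le_rfl (Fin.cons s t)
      have hb : (bd t F).card ≤ (bd (Fin.cons s t : Fin 3 → G) F).card := by
        apply Finset.card_le_card_of_injOn (fun p => (p.1.succ, p.2))
        · intro p hp
          simp only [bd, Finset.coe_filter, Finset.mem_product, Finset.mem_univ, true_and,
            Set.mem_ofPred_eq] at hp ⊢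
          exact ⟨hp.1, by simpa using hp.2⟩
        · intro p _ q _ hpq
          simp only [Prod.mk.injEq, Fin.succ_inj] at hpq
          exact Prod.ext hpq.1 hpq.2
      have hs' : (F.filter fun h => s * h ∉ F).card ≤
          (bd (Fin.cons s t : Fin 3 → G) F).card := by
        apply Finset.card_le_card_of_injOn (fun h => (0, h))
        · intro p hp
          simp only [bd, Finset.coe_filter, Finset.mem_product, Finset.mem_univ, true_and,
            Set.mem_ofPred_eq] at hp ⊢
          exact ⟨hp.1, by simpa using hp.2⟩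
        · intro p _ q _ hpq
          simpa using hpq
      have h2 := add_generator t s f hf8 ht F hne (by omega) (by omega) hL0 hLf hK2 hK3
      refine ⟨insert s K, ?_, hK2.trans (Set.subset_insert _ _), ?_⟩
      · rw [Finset.coe_insert]
        exact Set.insert_subset_insert hK1
      · convert h2 using 1
        rw [Finset.card_insert_of_notMem hs]
        push_cast
        ring
  obtain ⟨K, hK1, _, hK3⟩ := key T
  have hK : Subgroup.closure K = ⊤ := by
    rw [eq_top_iff, ← hgen]
    exact Subgroup.closure_mono hK1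
  have h3 := le_of_hasFull hc' hK hK3
  have h4 : (1 : ℝ≥0∞) + (ENNReal.ofReal (J * L / f) + ENNReal.ofReal (2 * (1 / 2) ^ J +
        2 * (cW * Real.exp (-(L / 8)))) + d *
          (ENNReal.ofReal (L / f) + ENNReal.ofReal (Real.exp (-(L / 8))))) =
      ENNReal.ofReal (1 + (J * L / f + (2 * (1 / 2) ^ J + 2 * (cW * Real.exp (-(L / 8)))) +
        d * (L / f + Real.exp (-(L / 8))))) := by
    have e1 : ∀ x : ℝ, 0 ≤ x → ENNReal.ofReal (1 + x) = 1 + ENNReal.ofReal x := by
      intro x hx
      rw [ENNReal.ofReal_add zero_le_one hx, ENNReal.ofReal_one]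
    have e2 : ∀ x y : ℝ, 0 ≤ x → 0 ≤ y →
        ENNReal.ofReal (x + y) = ENNReal.ofReal x + ENNReal.ofReal y :=
      fun x y hx hy => ENNReal.ofReal_add hx hy
    rw [e1 _ (by positivity), e2 (J * L / f + (2 * (1 / 2) ^ J + 2 * (cW *
      Real.exp (-(L / 8))))) (d * (L / f + Real.exp (-(L / 8)))) (by positivity) (by positivity),
      e2 (J * L / f) (2 * (1 / 2) ^ J + 2 * (cW * Real.exp (-(L / 8)))) (by positivity)
      (by positivity), ENNReal.ofReal_mul (Nat.cast_nonneg d), ENNReal.ofReal_natCast,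
      e2 (L / f) (Real.exp (-(L / 8))) (by positivity) (by positivity)]
  rw [h4, ENNReal.ofReal_le_ofReal_iff (by positivity)] at h3
  have h5 : C * Real.exp (-(L / 8)) < δ / 4 := by
    rw [lt_div_iff₀ (by positivity)] at hL1
    linarith
  have h6 : ((J + d : ℕ) : ℝ) * L / f = J * L / f + d * (L / f) := by
    push_cast
    ring
  have h7 : (1 / 2 : ℝ) ^ J < δ / 16 := hJ
  have h8 : 0 < Real.exp (-(L / 8)) := Real.exp_pos _
  rw [h6] at hJf
  rw [hC] at h5
  nlinarith

end Pool.Agent.Lib.MP_90732c_al.Ab
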